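import Pool.Agent.Lib.MP_72e2e6_nt.P3.N.Spec

/-!
# MP_72e2e6_nt, theorem T3p, block N: the places above a finite set of places
-/

namespace Pool.Agent.MP72P

open Polynomial
open Pool.Agent.MP72W (IsPl)

private theorem abv_ntr {K L : Type} [Field K] [Field L] [Algebra K L] (v : AbsoluteValue L ℝ)
    (h : (rsa K v).IsNontrivial) : v.IsNontrivial := by
  obtain ⟨x, hx0, hx1⟩ := h
  refine ⟨algebraMap K L x, ?_, hx1⟩
  rwa [Ne, map_eq_zero]

/-- **Abv**. The places above a finite set of places. -/
theorem tAbv (cmp : S_Cmp) : S_Abv := by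
  classical
  intro p _ K L _ _ _ _ _ I _ u hu
  have hfI : Fintype I := Fintype.ofFinite I
  let P : ℕ → Prop := fun m => ∃ w : Fin m → AbsoluteValue L ℝ, Pls w ∧
    ∀ j, ∃ i, (rsa K (w j)).IsEquiv (u i)
  have hb : ∀ m, P m → m ≤ Fintype.card I * Module.finrank K L := by
    rintro m ⟨w, hw, hwu⟩
    choose f hf using hwu
    have h1 : ∀ i : I, (Finset.univ.filter fun j => f j = i).card ≤ Module.finrank K L := by
      intro i
      have e := ((Finset.univ.filter fun j => f j = i).equivFin).symm
      refine cmp p K L (u i) _ (fun k => w (e k)) (hu i) ⟨fun k => hw.ntr _, fun k k' hkk => ?_⟩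
        fun k => ?_
      · refine hw.inq _ _ fun h => hkk ?_
        exact e.injective (Subtype.ext h)
      · have h2 := hf ((e k : Finset.univ.filter fun j => f j = i) : Fin m)
        rwa [(Finset.mem_filter.1 (e k).2).2] at h2
    calc m = (Finset.univ : Finset (Fin m)).card := by rw [Finset.card_univ, Fintype.card_fin]
      _ = ∑ i : I, (Finset.univ.filter fun j => f j = i).card :=
          Finset.card_eq_sum_card_fiberwise fun _ _ => Finset.mem_coe.2 (Finset.mem_univ _)
      _ ≤ ∑ _i : I, Module.finrank K L := Finset.sum_le_sum fun i _ => h1 i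
      _ = Fintype.card I * Module.finrank K L := by
          rw [Finset.sum_const, Finset.card_univ, smul_eq_mul]
  have h0 : P 0 := ⟨fun j => j.elim0, ⟨fun j => j.elim0, fun j => j.elim0⟩, fun j => j.elim0⟩
  set m := Nat.findGreatest P (Fintype.card I * Module.finrank K L) with hm
  have hPm : P m := Nat.findGreatest_spec (Nat.zero_le _) h0
  obtain ⟨w, hw, hwu⟩ := hPm
  refine ⟨m, w, hw, hwu, fun v ⟨i, hvi⟩ => ?_⟩
  by_contra hne
  push Not at hne
  have hP : P (m + 1) := by
    refine ⟨Fin.cons v w, ⟨fun j => ?_, fun j j' hjj => ?_⟩, fun j => ?_⟩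
    · refine Fin.cases ?_ (fun k => ?_) j
      · rw [Fin.cons_zero]
        exact abv_ntr v ((hvi.isNontrivial_congr).2 (hu i))
      · rw [Fin.cons_succ]
        exact hw.ntr k
    · revert hjj
      refine Fin.cases ?_ (fun k => ?_) j <;> refine Fin.cases ?_ (fun k' => ?_) j'
      · exact fun h => absurd rfl h
      · intro _
        rw [Fin.cons_zero, Fin.cons_succ]
        exact hne k'
      · intro _
        rw [Fin.cons_zero, Fin.cons_succ]
        exact fun h => hne k h.symm
      · intro h
        rw [Fin.cons_succ, Fin.cons_succ]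
        exact hw.inq k k' fun hk => h (by rw [hk])
    · refine Fin.cases ?_ (fun k => ?_) j
      · rw [Fin.cons_zero]
        exact ⟨i, hvi⟩
      · rw [Fin.cons_succ]
        exact hwu k
  have hle := hb (m + 1) hP
  exact absurd (Nat.le_findGreatest hle hP) (by rw [← hm]; omega)

end Pool.Agent.MP72P
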