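import Pool.Agent.Lib.MP_72e2e6_nt.P3.N.Spec

/-!
# MP_72e2e6_nt, theorem T3p, block N: almost all values are `1`
-/

namespace Pool.Agent.MP72P

open Polynomial
open Pool.Agent.MP72W (IsPl)

/-- An element whose minimal polynomial has small coefficients is small. -/
private theorem alm_le {R K : Type} [Field R] [Field K] [Algebra R K] [FiniteDimensional R K]
    (v : AbsoluteValue K ℝ) (hna : IsNonarchimedean v) (x : K)
    (hc : ∀ i, v (algebraMap R K ((minpoly R x).coeff i)) ≤ 1) : v x ≤ 1 := by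
  classical
  by_contra hlt
  rw [not_le] at hlt
  have hP' : aeval x (minpoly R x) = 0 := minpoly.aeval R x
  have hmon : (minpoly R x).Monic := minpoly.monic (Algebra.IsIntegral.isIntegral x)
  rw [Polynomial.aeval_eq_sum_range, Finset.sum_range_succ] at hP'
  have hlead : (minpoly R x).coeff (minpoly R x).natDegree = 1 := hmon
  rw [hlead, one_smul] at hP'
  have h1 : x ^ (minpoly R x).natDegree =
      -∑ i ∈ Finset.range (minpoly R x).natDegree, (minpoly R x).coeff i • x ^ i :=
    eq_neg_of_add_eq_zero_right hP'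
  rcases Nat.eq_zero_or_pos (minpoly R x).natDegree with h0 | h0
  · rw [h0, Finset.range_zero, Finset.sum_empty, neg_zero, pow_zero] at h1
    exact one_ne_zero h1
  have h2 : v (∑ i ∈ Finset.range (minpoly R x).natDegree, (minpoly R x).coeff i • x ^ i) ≤
      v x ^ ((minpoly R x).natDegree - 1) := by
    obtain ⟨i, hi, hle⟩ := IsNonarchimedean.finset_image_add_of_nonempty hna
      (fun i => (minpoly R x).coeff i • x ^ i) (t := Finset.range (minpoly R x).natDegree)
      ⟨0, Finset.mem_range.2 h0⟩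
    refine hle.trans ?_
    have hi' := Finset.mem_range.1 hi
    rw [Algebra.smul_def, map_mul, map_pow]
    calc v (algebraMap R K ((minpoly R x).coeff i)) * v x ^ i ≤ 1 * v x ^ i :=
          mul_le_mul_of_nonneg_right (hc i) (by positivity)
      _ = v x ^ i := one_mul _
      _ ≤ v x ^ ((minpoly R x).natDegree - 1) := pow_le_pow_right₀ hlt.le (by omega)
  have h4 : v x ^ (minpoly R x).natDegree ≤ v x ^ ((minpoly R x).natDegree - 1) := by
    rw [← map_pow, h1, AbsoluteValue.map_neg]
    exact h2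
  have h5 : v x ^ ((minpoly R x).natDegree - 1) < v x ^ (minpoly R x).natDegree :=
    pow_lt_pow_right₀ hlt (by omega)
  exact absurd h4 (not_le.2 h5)

/-- The product of the denominators of the coefficients of the minimal polynomial. -/
private noncomputable def almD {F K : Type} [Field F] [Field K] [Algebra (RatFunc F) K] (x : K) :
    F[X] :=
  ∏ i ∈ Finset.range ((minpoly (RatFunc F) x).natDegree + 1),
    ((minpoly (RatFunc F) x).coeff i).denom

private theorem almD_ne {F K : Type} [Field F] [Field K] [Algebra (RatFunc F) K] (x : K) :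
    (almD x : F[X]) ≠ 0 :=
  Finset.prod_ne_zero_iff.2 fun _ _ => RatFunc.denom_ne_zero _

/-- The values at the places not dividing the denominator. -/
private theorem alm_val {F : Type} [Field F] (P : F[X]) (u : AbsoluteValue (RatFunc F) ℝ)
    (hu : IsPl (some P) u) (c : RatFunc F) (hc : ¬ P ∣ c.denom) : u c ≤ 1 := by
  obtain ⟨hm, hP, h⟩ := hu
  have h1 : u (algebraMap F[X] (RatFunc F) c.denom) = 1 := by
    rw [h _ c.denom_ne_zero, multiplicity_eq_zero.2 hc, pow_zero]
  have h2 : u (algebraMap F[X] (RatFunc F) c.num) ≤ 1 := by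
    rcases eq_or_ne c.num 0 with h0 | h0
    · rw [h0, map_zero, map_zero]
      exact zero_le_one
    · rw [h _ h0]
      exact pow_le_one₀ (by norm_num) (by norm_num)
  have h3 := RatFunc.num_div_denom c
  rw [← h3, map_div₀, h1, div_one]
  exact h2

private theorem alm_coeff {F K : Type} [Field F] [Field K] [Algebra (RatFunc F) K] (x : K)
    (P : F[X]) (u : AbsoluteValue (RatFunc F) ℝ) (hu : IsPl (some P) u) (hP : ¬ P ∣ almD x)
    (i : ℕ) : u ((minpoly (RatFunc F) x).coeff i) ≤ 1 := by
  rcases le_or_gt i (minpoly (RatFunc F) x).natDegree with hi | hi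
  · refine alm_val P u hu _ fun h => hP (h.trans ?_)
    exact Finset.dvd_prod_of_mem _ (Finset.mem_range.2 (Nat.lt_succ_of_le hi))
  · rw [coeff_eq_zero_of_natDegree_lt hi, map_zero]
    exact zero_le_one

/-- **Alm**. Almost all values are `1`. -/
theorem tAlm (na : S_Na) (rt : S_Rt) (ntr : S_Ntr) (abv : S_Abv) : S_Alm := by
  classical
  intro p _ K _ _ hK x hx
  obtain ⟨F, _, _, _, _, hfd, hsep⟩ := hK
  have hch : CharP (RatFunc F) p :=
    (algebraMap (RatFunc F) K).charP (algebraMap (RatFunc F) K).injective p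
  obtain ⟨hr1, hr2, -⟩ := rt F
  obtain ⟨hp1, hp2, hp3⟩ := Pool.Agent.MP72W.tAv F
  set E : F[X] := almD x * almD x⁻¹ with hE
  have hE0 : E ≠ 0 := mul_ne_zero (almD_ne x) (almD_ne x⁻¹)
  let T : Set (Option F[X]) := {w | w = none ∨ ∃ P : F[X], w = some P ∧ P.Monic ∧
    Irreducible P ∧ P ∣ E}
  have hT : T.Finite := by
    have h1 : T ⊆ insert none (some ''
        ((UniqueFactorizationMonoid.normalizedFactors E).toFinset : Set F[X])) := by
      rintro w (rfl | ⟨P, rfl, hm, hi, hd⟩)
      · exact Set.mem_insert _ _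
      · refine Set.mem_insert_of_mem _ ⟨P, ?_, rfl⟩
        rw [Finset.mem_coe, Multiset.mem_toFinset,
          UniqueFactorizationMonoid.mem_normalizedFactors_iff' hE0]
        exact ⟨hi, hm.normalize_eq_self, hd⟩
    exact ((Finset.finite_toSet _).image _).insert none |>.subset h1
  have hTf : Finite T := hT
  have hpl : ∀ w : T, ∃ u : AbsoluteValue (RatFunc F) ℝ, IsPl w.1 u := by
    rintro ⟨w, (rfl | ⟨P, rfl, hm, hi, hd⟩)⟩
    · exact hp2
    · exact hp1 P hm hi
  choose u hu using hpl
  obtain ⟨m, av, hav, -, hcov⟩ := abv p (RatFunc F) K T u fun w => hp3 w.1 (u w) (hu w)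
  refine ⟨m, av, hav, fun v hv hvj => ?_⟩
  have hna := na p K v
  obtain ⟨w, u', hu', heq⟩ := hr1 (rsa (RatFunc F) v) (ntr p (RatFunc F) K v hv)
  have hwT : w ∉ T := by
    intro hw
    have h1 : u ⟨w, hw⟩ = u' := hr2 w _ _ (hu ⟨w, hw⟩) hu'
    obtain ⟨j, hj⟩ := hcov v ⟨⟨w, hw⟩, by rw [h1]; exact heq⟩
    exact hvj j hj
  cases w with
  | none => exact absurd (Or.inl rfl) hwT
  | some P =>
    have hPE : ¬ P ∣ E := fun h => hwT (Or.inr ⟨P, rfl, hu'.1, hu'.2.1, h⟩)
    have h1 : ∀ y : K, ¬ P ∣ almD y → v y ≤ 1 := by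
      intro y hy
      refine alm_le (R := RatFunc F) v hna y fun i => ?_
      exact (heq.le_one_iff (x := (minpoly (RatFunc F) y).coeff i)).2
        (alm_coeff y P u' hu' hy i)
    have h2 : v x ≤ 1 := h1 x fun h => hPE (h.mul_right _)
    have h3 : v x⁻¹ ≤ 1 := h1 x⁻¹ fun h => hPE (h.mul_left _)
    have h4 : v x * v x⁻¹ = 1 := by
      rw [← map_mul, mul_inv_cancel₀ hx, map_one]
    refine le_antisymm h2 ?_
    calc (1 : ℝ) = v x * v x⁻¹ := h4.symm
      _ ≤ v x * 1 := mul_le_mul_of_nonneg_left h3 (v.nonneg _)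
      _ = v x := mul_one _

end Pool.Agent.MP72P
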