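import Pool.Agent.Lib.MP_72e2e6_nt.P3.N.Spec

/-!
# MP_72e2e6_nt, theorem T3p, block N, Bas: a basis of integral elements
-/

namespace Pool.Agent.MP72P

open Polynomial

private theorem bas_int {R K : Type} [CommRing R] [Field K] [Algebra R K]
    {v : AbsoluteValue K ℝ} (hna : IsNonarchimedean v)
    (h : ∀ r : R, v (algebraMap R K r) ≤ 1) {b : K} (hb : IsIntegral R b) : v b ≤ 1 := by
  by_contra hv
  rw [not_le] at hv
  obtain ⟨P, hP, hb⟩ := hb
  rw [eval₂_eq_sum_range, Finset.sum_range_succ, hP.coeff_natDegree, map_one, one_mul] at hb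
  have h1 : v (b ^ P.natDegree) =
      v (∑ i ∈ Finset.range P.natDegree, algebraMap R K (P.coeff i) * b ^ i) := by
    rw [eq_neg_of_add_eq_zero_right hb, AbsoluteValue.map_neg]
  rcases Nat.eq_zero_or_pos P.natDegree with h0 | h0
  · rw [h0] at h1
    simp at h1
  · obtain ⟨i, hi, h2⟩ := hna.finset_image_add_of_nonempty
      (fun i => algebraMap R K (P.coeff i) * b ^ i) (Finset.nonempty_range_iff.2 h0.ne')
    rw [Finset.mem_range] at hi
    have h3 : v (algebraMap R K (P.coeff i) * b ^ i) ≤ v b ^ i := by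
      rw [map_mul, map_pow]
      exact mul_le_of_le_one_left (pow_nonneg (v.nonneg _) _) (h _)
    have h4 : v b ^ i < v b ^ P.natDegree := pow_lt_pow_right₀ hv hi
    rw [map_pow] at h1
    exact absurd (h1.le.trans (h2.trans h3)) (not_le.2 h4)

theorem tBasN : S_Na → S_BasN := by
  intro hNa p _ F K _ _ _ _ _ _
  letI alg : Algebra F[X] K := ((algebraMap (RatFunc F) K).comp (algebraMap F[X] (RatFunc F))).toAlgebra
  haveI : IsScalarTower F[X] (RatFunc F) K := IsScalarTower.of_algebraMap_eq fun _ => rfl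
  obtain ⟨s, b, hb⟩ := FiniteDimensional.exists_is_basis_integral F[X] (RatFunc F) K
  refine ⟨Fintype.card s, b.reindex (Fintype.equivFin s), fun i v hv => ?_⟩
  have hna := hNa p K v
  rw [Module.Basis.reindex_apply]
  refine bas_int hna (fun r => ?_) (hb _)
  have h1 : ∀ c : F, v (algebraMap F[X] K (C c)) ≤ 1 := by
    intro c
    rcases eq_or_ne c 0 with rfl | hc
    · rw [C_0, map_zero, map_zero]
      exact zero_le_one
    · have hfin : IsOfFinOrder (Units.mk0 c hc) := isOfFinOrder_of_finite _
      obtain ⟨n, hn, h2⟩ := isOfFinOrder_iff_pow_eq_one.1 hfin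
      have h3 : c ^ n = 1 := by
        have := congrArg Units.val h2
        simpa using this
      have h4 : v (algebraMap F[X] K (C c)) ^ n = 1 := by
        rw [← map_pow, ← map_pow, ← C_pow, h3, C_1, map_one, map_one]
      exact ((pow_eq_one_iff_of_nonneg (v.nonneg _) hn.ne').1 h4).le
  have hX : v (algebraMap F[X] K X) ≤ 1 := by
    have h5 : algebraMap F[X] K X = algebraMap (RatFunc F) K RatFunc.X := by
      rw [IsScalarTower.algebraMap_apply F[X] (RatFunc F) K, RatFunc.algebraMap_X]
    rw [h5]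
    exact hv
  induction r using Polynomial.induction_on' with
  | add f g hf hg =>
    rw [map_add]
    exact (hna _ _).trans (max_le hf hg)
  | monomial n c =>
    rw [← C_mul_X_pow_eq_monomial, map_mul, map_pow, map_mul, map_pow]
    exact mul_le_one₀ (h1 c) (pow_nonneg (v.nonneg _) _) (pow_le_one₀ (v.nonneg _) hX)

end Pool.Agent.MP72P
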