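import Pool.Agent.Lib.MP_72e2e6_nt.P3.N.Spec

/-!
# MP_72e2e6_nt, theorem T3p, block N: the number of places above a place
-/

namespace Pool.Agent.MP72P

open Polynomial
open Pool.Agent.MP72W (IsPl)

/-- **Cmp**. There are at most `[L : K]` places above a place. -/
theorem tCmp (na : S_Na) : S_Cmp := by
  classical
  intro p _ K L _ _ _ _ _ u m w hu hw hwu
  have hL : CharP L p := charP_of_injective_algebraMap (algebraMap K L).injective p
  have hd := AbsoluteValue.denseRange_algebraMap_pi hw.ntr (fun i j hij => hw.inq i j hij)
  -- the elements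
  have hex : ∀ i : Fin m, ∃ a : L, ∀ j, w j (a - if j = i then 1 else 0) < 1 := by
    intro i
    obtain ⟨a, ha⟩ := Metric.denseRange_iff.1 hd
      (fun j => WithAbs.toAbs (w j) (if j = i then 1 else 0)) 1 one_pos
    refine ⟨a, fun j => ?_⟩
    have h1 := (dist_pi_lt_iff one_pos).1 ha j
    rw [dist_comm, dist_eq_norm] at h1
    exact h1
  choose a ha using hex
  have hdiag : ∀ i, w i (a i) = 1 := by
    intro i
    have h1 := ha i i
    rw [if_pos rfl] at h1
    have h2 : w i (a i) = w i ((a i - 1) + 1) := by rw [sub_add_cancel]
    rw [h2, (na p L (w i)).add_eq_right_of_lt (by rw [map_one]; exact h1), map_one]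
  have hoff : ∀ i j, j ≠ i → w j (a i) < 1 := by
    intro i j hji
    have h1 := ha i j
    rwa [if_neg hji, sub_zero] at h1
  have hli : LinearIndependent K a := by
    rw [Fintype.linearIndependent_iff]
    intro c hc
    by_contra hne
    push Not at hne
    obtain ⟨i0, hi0⟩ := hne
    obtain ⟨k, -, hk⟩ := Finset.exists_max_image Finset.univ (fun i => u (c i))
      ⟨i0, Finset.mem_univ _⟩
    have hck : c k ≠ 0 := by
      intro h0
      have h1 := hk i0 (Finset.mem_univ _)
      rw [h0, map_zero] at h1
      exact hi0 (by simpa using le_antisymm h1 (u.nonneg _))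
    have hsum : a k = -∑ i ∈ Finset.univ.erase k, (c i / c k) • a i := by
      have h1 : c k • a k + ∑ i ∈ Finset.univ.erase k, c i • a i = 0 :=
        (Finset.add_sum_erase Finset.univ (fun i => c i • a i) (Finset.mem_univ k)).trans hc
      have h2 : ∑ i ∈ Finset.univ.erase k, (c i / c k) • a i =
          (c k)⁻¹ • ∑ i ∈ Finset.univ.erase k, c i • a i := by
        rw [Finset.smul_sum]
        refine Finset.sum_congr rfl fun i _ => ?_
        rw [smul_smul, div_eq_inv_mul]
      rw [h2, eq_neg_of_add_eq_zero_right h1, smul_neg, smul_smul, inv_mul_cancel₀ hck,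
        one_smul, neg_neg]
    have hlt : w k (a k) < 1 := by
      rw [hsum, AbsoluteValue.map_neg]
      rcases (Finset.univ.erase k).eq_empty_or_nonempty with he | he
      · rw [he, Finset.sum_empty, map_zero]
        exact one_pos
      · refine ((na p L (w k)).apply_sum_le_sup he).trans_lt ((Finset.sup'_lt_iff he).2
          fun i hi => ?_)
        rw [Algebra.smul_def, map_mul]
        have h3 : w k (algebraMap K L (c i / c k)) ≤ 1 := by
          have h4 : u (c i / c k) ≤ 1 := by
            rw [map_div₀]
            exact div_le_one_of_le₀ (hk i (Finset.mem_univ _)) (u.nonneg _)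
          exact (hwu k).le_one_iff.2 h4
        calc w k (algebraMap K L (c i / c k)) * w k (a i) ≤ 1 * w k (a i) :=
              mul_le_mul_of_nonneg_right h3 ((w k).nonneg _)
          _ = w k (a i) := one_mul _
          _ < 1 := hoff i k (Finset.ne_of_mem_erase hi).symm
    exact absurd (hdiag k) hlt.ne
  have := hli.fintype_card_le_finrank
  rwa [Fintype.card_fin] at this

end Pool.Agent.MP72P
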