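import Pool.Agent.Lib.MP_72e2e6_nt.P3.N.Spec

/-!
# MP_72e2e6_nt, theorem T3p, block N: approximation in `F(t)`
-/

namespace Pool.Agent.MP72P

open Polynomial
open Pool.Agent.MP72W (IsPl)

section Co0

variable {F : Type} [Field F]

private theorem co0_le {P : F[X]} {v : AbsoluteValue (RatFunc F) ℝ} (hv : IsPl (some P) v)
    (q : F[X]) : v (algebraMap F[X] (RatFunc F) q) ≤ 1 := by
  by_cases hq : q = 0
  · rw [hq, map_zero, map_zero]
    exact zero_le_one
  · rw [hv.2.2 q hq]
    exact pow_le_one₀ (by norm_num) (by norm_num)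

private theorem co0_one {P : F[X]} {v : AbsoluteValue (RatFunc F) ℝ} (hv : IsPl (some P) v)
    {q : F[X]} (hq : ¬ P ∣ q) : v (algebraMap F[X] (RatFunc F) q) = 1 := by
  have hq0 : q ≠ 0 := by
    rintro rfl
    exact hq (dvd_zero P)
  rw [hv.2.2 q hq0, multiplicity_eq_zero.2 hq, pow_zero]

private theorem co0_half {P : F[X]} {v : AbsoluteValue (RatFunc F) ℝ} (hv : IsPl (some P) v)
    {q : F[X]} (hq : P ∣ q) : v (algebraMap F[X] (RatFunc F) q) ≤ 1 / 2 := by
  obtain ⟨k, rfl⟩ := hq
  have h1 : v (algebraMap F[X] (RatFunc F) P) = 1 / 2 := by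
    rw [hv.2.2 P hv.2.1.ne_zero, multiplicity_self, pow_one]
  have h2 := co0_le hv k
  rw [map_mul, map_mul, h1]
  linarith

/-- The part of the denominator which is prime to `G`. -/
private theorem co0_dec (G : F[X]) : ∀ (n : ℕ) (D : F[X]), D.natDegree ≤ n → D ≠ 0 →
    ∃ (m : ℕ) (H k : F[X]), H ≠ 0 ∧ IsCoprime H G ∧ G ^ m * H = D * k := by
  intro n
  induction n with
  | zero =>
    intro D hn hD
    have hu : IsUnit D := isUnit_iff_degree_eq_zero.2 (by
      rw [degree_eq_natDegree hD, Nat.le_zero.1 hn]
      rfl)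
    obtain ⟨D', hD'⟩ := isUnit_iff_exists_inv'.1 hu
    exact ⟨0, D, 1, hD, ⟨D', 0, by rw [hD', zero_mul, add_zero]⟩, by ring⟩
  | succ n ih =>
    intro D hn hD
    by_cases hc : IsCoprime D G
    · exact ⟨0, D, 1, hD, hc, by ring⟩
    · obtain ⟨z, hz, ⟨D₁, hD₁⟩, ⟨G₁, hG₁⟩⟩ : ∃ z, Irreducible z ∧ z ∣ D ∧ z ∣ G := by
        by_contra hn
        push Not at hn
        exact hc (isCoprime_of_irreducible_dvd (fun h => hD h.1) hn)
      have hD₁0 : D₁ ≠ 0 := by
        rintro rfl
        rw [mul_zero] at hD₁
        exact hD hD₁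
      have h1 : D.natDegree = z.natDegree + D₁.natDegree := by
        rw [hD₁, natDegree_mul hz.ne_zero hD₁0]
      have h2 := hz.natDegree_pos
      obtain ⟨m, H, k, hH, hHG, he⟩ := ih D₁ (by omega) hD₁0
      refine ⟨m + 1, H, G₁ * k, hH, hHG, ?_⟩
      calc G ^ (m + 1) * H = G * (G ^ m * H) := by ring
        _ = (z * G₁) * (D₁ * k) := by rw [he, ← hG₁]
        _ = D * (G₁ * k) := by rw [hD₁]; ring

end Co0

theorem tCo0 : S_Co0 := by
  classical
  intro F _ _ T hT ε hε
  -- the product of the finite places of `T`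
  let TP : Finset F[X] := T.eraseNone.filter fun P => P.Monic ∧ Irreducible P
  let G' : F[X] := ∏ P ∈ TP, P
  have hG'm : G'.Monic := monic_prod_of_monic _ _ fun P hP => (Finset.mem_filter.1 hP).2.1
  have hG'0 : G' ≠ 0 := hG'm.ne_zero
  have hdvd : ∀ P : F[X], some P ∈ T → P.Monic → Irreducible P → P ∣ G' := fun P h1 h2 h3 =>
    Finset.dvd_prod_of_mem _ (Finset.mem_filter.2 ⟨Finset.mem_eraseNone.2 h1, h2, h3⟩)
  have hndvd : ∀ P : F[X], some P ∉ T → P.Monic → Irreducible P → ¬ P ∣ G' := by
    intro P h1 h2 h3 h4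
    obtain ⟨Q, hQ, hPQ⟩ := (h3.prime.dvd_finsetProd_iff _).1 h4
    obtain ⟨hQ1, hQ2, hQ3⟩ := Finset.mem_filter.1 hQ
    have h5 : P = Q := eq_of_monic_of_associated h2 hQ2 (h3.associated_of_dvd hQ3 hPQ)
    rw [h5] at h1
    exact h1 (Finset.mem_eraseNone.1 hQ1)
  obtain ⟨N, hN⟩ := exists_pow_lt_of_lt_one hε (by norm_num : (1 / 2 : ℝ) < 1)
  obtain ⟨G, hG⟩ : ∃ G : F[X], G = G' ^ N := ⟨_, rfl⟩
  have hG0 : G ≠ 0 := by
    rw [hG]
    exact pow_ne_zero _ hG'0
  obtain ⟨R, hR⟩ : ∃ R : F[X], R = X * G' + 1 := ⟨_, rfl⟩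
  have hRd : R.natDegree = G'.natDegree + 1 := by
    have h1 : (X * G' : F[X]).natDegree = G'.natDegree + 1 := natDegree_X_mul hG'0
    have h2 : (1 : F[X]).natDegree < (X * G' : F[X]).natDegree := by
      rw [natDegree_one, h1]
      omega
    rw [hR, natDegree_add_eq_left_of_natDegree_lt h2, h1]
  have hR0 : R ≠ 0 := by
    intro h
    rw [h, natDegree_zero] at hRd
    omega
  obtain ⟨L, hL⟩ : ∃ L : ℕ, L = G.natDegree + N := ⟨_, rfl⟩
  let A : F[X] →+* RatFunc F := algebraMap F[X] (RatFunc F)
  have hA : ∀ q : F[X], q ≠ 0 → A q ≠ 0 := fun q hq => by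
    rw [Ne, FaithfulSMul.algebraMap_eq_zero_iff]
    exact hq
  refine ⟨(fun c : F[X] => A (G * c) / A R ^ L) '' {c | c.degree < (L * R.natDegree : ℕ)}, ?_, ?_⟩
  · apply Set.Finite.image
    have h1 : Finite (degreeLT F (L * R.natDegree)) :=
      Finite.of_injective _ (degreeLTEquiv F (L * R.natDegree)).injective
    have h2 : {c : F[X] | c.degree < (L * R.natDegree : ℕ)} =
        (degreeLT F (L * R.natDegree) : Set F[X]) := by
      ext c
      exact mem_degreeLT.symm
    rw [h2]
    exact Set.toFinite _
  · intro x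
    obtain ⟨m, H, k, hH0, hHG, hk⟩ := co0_dec G' x.denom.natDegree x.denom le_rfl
      (RatFunc.denom_ne_zero x)
    have hk0 : k ≠ 0 := by
      rintro rfl
      rw [mul_zero] at hk
      exact mul_ne_zero (pow_ne_zero m hG'0) hH0 hk
    -- `x = g / (G' ^ m * H)`
    have hx : x = A (x.num * k) / (A G' ^ m * A H) := by
      rw [← map_pow, ← map_mul, hk, map_mul, map_mul, mul_div_mul_right _ _ (hA k hk0)]
      exact (RatFunc.num_div_denom x).symm
    set g := x.num * k with hg
    obtain ⟨u, w, huw⟩ : IsCoprime H (G' ^ (m + N)) := hHG.pow_right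
    let b : F[X] := u * g
    let e : F[X] := g * w
    have hbe : g - b * H = e * G' ^ (m + N) := by
      show g - u * g * H = g * w * G' ^ (m + N)
      linear_combination -g * huw
    let e₁ : F[X] := e / H
    let e₂ : F[X] := e % H
    have he : e = H * e₁ + e₂ := (EuclideanDomain.div_add_mod e H).symm
    let B : F[X] := R ^ L * e₂
    let c : F[X] := B / H
    let r : F[X] := B % H
    have hB : B = H * c + r := (EuclideanDomain.div_add_mod B H).symm
    have he₂ : e₂.degree < H.degree := degree_mod_lt e hH0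
    have hr : r.degree < H.degree := degree_mod_lt B hH0
    have hc : c.degree < (L * R.natDegree : ℕ) := by
      by_cases h0 : B.degree < H.degree
      · have h1 : c = 0 := (Polynomial.div_eq_zero_iff hH0).2 h0
        rw [h1, degree_zero]
        exact WithBot.bot_lt_coe _
      · have h1 : H.degree + c.degree = B.degree := degree_add_div hH0 (not_lt.1 h0)
        have h2 : B ≠ 0 := by
          intro h2
          rw [h2, degree_zero] at h0
          exact h0 (bot_lt_iff_ne_bot.2 (by rwa [Ne, degree_eq_bot]))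
        have h3 : e₂ ≠ 0 := by
          rintro h3
          apply h2
          show R ^ L * e₂ = 0
          rw [h3, mul_zero]
        have h4 : c ≠ 0 := by
          intro h4
          rw [h4, degree_zero, WithBot.add_bot] at h1
          exact h2 (degree_eq_bot.1 h1.symm)
        have h5 : B.degree = (R ^ L).degree + e₂.degree := degree_mul
        rw [h5, degree_eq_natDegree hH0, degree_eq_natDegree h4, degree_eq_natDegree h3,
          degree_eq_natDegree (pow_ne_zero L hR0), natDegree_pow] at h1
        rw [degree_eq_natDegree h3, degree_eq_natDegree hH0] at he₂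
        rw [degree_eq_natDegree h4]
        have h6 : H.natDegree + c.natDegree = L * R.natDegree + e₂.natDegree := by exact_mod_cast h1
        have h7 : e₂.natDegree < H.natDegree := by exact_mod_cast he₂
        have h8 : c.natDegree < L * R.natDegree := by omega
        exact_mod_cast h8
    refine ⟨_, ⟨c, hc, rfl⟩, A (b + G * e₁ * G' ^ m) / A G' ^ m, ?_, ?_⟩
    · intro w v hv hwT
      cases w with
      | none => exact absurd hT hwT
      | some P =>
        have h1 : v (A G') = 1 := co0_one hv (hndvd P hwT hv.1 hv.2.1)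
        rw [map_div₀, map_pow, h1, one_pow, div_one]
        exact co0_le hv _
    · -- the difference
      have hdiff : x - A (G * c) / A R ^ L - A (b + G * e₁ * G' ^ m) / A G' ^ m =
          A (G * r) / (A H * A R ^ L) := by
        have h1 : A G' ≠ 0 := hA _ hG'0
        have h2 : A H ≠ 0 := hA _ hH0
        have h3 : A R ≠ 0 := hA _ hR0
        have h4 : A g - A b * A H = A e * A G' ^ m * A G := by
          rw [← map_mul, ← map_sub, hbe, hG, ← map_pow, ← map_mul, ← map_mul, pow_add]
          exact congrArg A (mul_assoc e (G' ^ m) (G' ^ N)).symm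
        have h5 : A e = A H * A e₁ + A e₂ := by
          rw [← map_mul, ← map_add, ← he]
        have h6 : A R ^ L * A e₂ = A H * A c + A r := by
          rw [← map_pow, ← map_mul, ← map_mul, ← map_add, ← hB]
        rw [hx]
        simp only [map_mul, map_add, map_pow]
        field_simp
        linear_combination (A R ^ L) * h4 + (A R ^ L * A G' ^ m * A G) * h5 +
          (A G' ^ m * A G) * h6
      rw [hdiff]
      intro w v hv hwT
      by_cases hr0 : r = 0
      · rw [hr0, mul_zero, map_zero, zero_div, map_zero]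
        exact hε.le
      cases w with
      | none =>
        have h1 : A (G * r) / (A H * A R ^ L) ≠ 0 :=
          div_ne_zero (hA _ (mul_ne_zero hG0 hr0)) (mul_ne_zero (hA _ hH0)
            (pow_ne_zero _ (hA _ hR0)))
        rw [show v _ = _ from hv _ h1]
        have h2 : (A (G * r) / (A H * A R ^ L)).intDegree ≤ -(N : ℤ) := by
          rw [← map_pow, ← map_mul, RatFunc.intDegree_div (hA _ (mul_ne_zero hG0 hr0))
            (hA _ (mul_ne_zero hH0 (pow_ne_zero _ hR0)))]
          show (algebraMap F[X] (RatFunc F) (G * r)).intDegree -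
            (algebraMap F[X] (RatFunc F) (H * R ^ L)).intDegree ≤ _
          rw [RatFunc.intDegree_polynomial, RatFunc.intDegree_polynomial, natDegree_mul hG0 hr0,
            natDegree_mul hH0 (pow_ne_zero _ hR0), natDegree_pow]
          have h3 : r.natDegree < H.natDegree := by
            rw [degree_eq_natDegree hr0, degree_eq_natDegree hH0] at hr
            exact_mod_cast hr
          have h4 : L ≤ L * R.natDegree := Nat.le_mul_of_pos_right _ (by omega)
          push_cast
          rw [hL] at h4 ⊢
          have h6 : ((G.natDegree + N : ℕ) : ℤ) ≤ (((G.natDegree + N) * R.natDegree : ℕ) : ℤ) := by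
            exact_mod_cast h4
          have h7 : (r.natDegree : ℤ) < H.natDegree := by exact_mod_cast h3
          push_cast at h6 ⊢
          linarith
        calc (2 : ℝ) ^ (A (G * r) / (A H * A R ^ L)).intDegree ≤ (2 : ℝ) ^ (-(N : ℤ)) :=
              zpow_le_zpow_right₀ (by norm_num) h2
          _ = (1 / 2) ^ N := by
              rw [zpow_neg, zpow_natCast, one_div, inv_pow]
          _ ≤ ε := hN.le
      | some P =>
        have hPG : P ∣ G' := hdvd P hwT hv.1 hv.2.1
        have h1 : v (A H) = 1 := by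
          apply co0_one hv
          intro h2
          exact hv.2.1.not_isUnit (hHG.isUnit_of_dvd' h2 hPG)
        have h2 : v (A R) = 1 := by
          apply co0_one hv
          intro h3
          apply hv.2.1.not_isUnit
          apply isUnit_of_dvd_one
          have h4 : P ∣ X * G' := hPG.mul_left X
          rw [hR] at h3
          exact (dvd_add_right h4).1 h3
        have h3 : v (A r) ≤ 1 := co0_le hv r
        have h4 : v (A G) ≤ (1 / 2) ^ N := by
          rw [hG, map_pow, map_pow]
          exact pow_le_pow_left₀ (v.nonneg _) (co0_half hv hPG) N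
        rw [map_div₀, map_mul A, map_mul v, map_mul v, map_pow, h1, h2, one_pow, mul_one, div_one]
        calc v (A G) * v (A r) ≤ (1 / 2) ^ N * 1 :=
              mul_le_mul h4 h3 (v.nonneg _) (by positivity)
          _ ≤ ε := by rw [mul_one]; exact hN.le

end Pool.Agent.MP72P
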