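import Pool.Agent.Lib.MP_72e2e6_nt.P3.N.Spec

/-!
# MP_72e2e6_nt, theorem T3p, block N: compactness of `K` modulo `A` and a ball
-/

namespace Pool.Agent.MP72P

open Polynomial
open Pool.Agent.MP72W (IsPl)

private theorem CoK_small {K : Type} [Field K] {v w : AbsoluteValue K ℝ} (h : v.IsEquiv w) {ε : ℝ}
    (hε : 0 < ε) : ∃ δ > 0, ∀ z, v z ≤ δ → w z ≤ ε := by
  obtain ⟨c, hc, hcw⟩ := AbsoluteValue.isEquiv_iff_exists_rpow_eq.1 h
  refine ⟨ε ^ (1 / c), Real.rpow_pos_of_pos hε _, fun z hz => ?_⟩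
  have h1 : w z = v z ^ c := (congrFun hcw z).symm
  rw [h1]
  calc v z ^ c ≤ (ε ^ (1 / c)) ^ c := Real.rpow_le_rpow (v.nonneg z) hz hc.le
    _ = ε := by rw [← Real.rpow_mul hε.le, one_div, inv_mul_cancel₀ hc.ne', Real.rpow_one]

private theorem CoK_wap {K : Type} [Field K] {I : Type} [Finite I] {w : I → AbsoluteValue K ℝ}
    (h : Pls w) (t : I → K) {ε : ℝ} (hε : 0 < ε) : ∃ x, ∀ i, w i (x - t i) < ε := by
  have := Fintype.ofFinite I
  have hd := AbsoluteValue.denseRange_algebraMap_pi h.ntr (fun i j hij => h.inq i j hij)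
  obtain ⟨x, hx⟩ := hd.exists_dist_lt (fun i => (WithAbs.equiv (w i)).symm (t i)) hε
  refine ⟨x, fun i => ?_⟩
  have h1 := (dist_pi_lt_iff hε).1 hx i
  rw [dist_comm, dist_eq_norm] at h1
  exact h1

private theorem CoK_lb {J : Type} [Finite J] (f : J → ℝ) (hf : ∀ j, 0 < f j) :
    ∃ δ > 0, ∀ j, δ ≤ f j := by
  rcases isEmpty_or_nonempty J with hJ | hJ
  · exact ⟨1, one_pos, fun j => (hJ.false j).elim⟩
  · obtain ⟨j0, hj0⟩ := Finite.exists_min f
    exact ⟨f j0, hf j0, hj0⟩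

private theorem CoK_ub {J : Type} [Finite J] (f : J → ℝ) : ∃ C, 1 ≤ C ∧ ∀ j, f j ≤ C := by
  rcases isEmpty_or_nonempty J with hJ | hJ
  · exact ⟨1, le_refl _, fun j => (hJ.false j).elim⟩
  · obtain ⟨j0, hj0⟩ := Finite.exists_max f
    exact ⟨max 1 (f j0), le_max_left _ _, fun j => (hj0 j).trans (le_max_right _ _)⟩

private theorem CoK_sum {K : Type} [Field K] {v : AbsoluteValue K ℝ} (hv : IsNonarchimedean v)
    {ι : Type} (s : Finset ι) (f : ι → K) {B : ℝ} (hB : 0 ≤ B) (h : ∀ i ∈ s, v (f i) ≤ B) :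
    v (∑ i ∈ s, f i) ≤ B := by
  classical
  induction s using Finset.induction_on with
  | empty => simpa using hB
  | insert a s ha ih =>
    rw [Finset.sum_insert ha]
    exact (hv _ _).trans (max_le (h a (Finset.mem_insert_self a s))
      (ih fun i hi => h i (Finset.mem_insert_of_mem hi)))

private theorem CoK_sub {K : Type} [Field K] {v : AbsoluteValue K ℝ} (hv : IsNonarchimedean v)
    {x y : K} {B : ℝ} (hx : v x ≤ B) (hy : v y ≤ B) : v (x - y) ≤ B := by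
  rw [sub_eq_add_neg]
  refine (hv _ _).trans (max_le hx ?_)
  rwa [AbsoluteValue.map_neg]

/-- The first step: the family of all places above a finite set of places. -/
private theorem CoK_step1 (hNa : S_Na) (hRt : S_Rt) (hCo0 : S_Co0) (hNtr : S_Ntr) (hBas : S_BasN)
    (p : ℕ) [Fact p.Prime] (F K : Type) [Field F] [Finite F] [Field K] [CharP F p] [CharP K p]
    [CharP (RatFunc F) p] [Algebra (RatFunc F) K] [FiniteDimensional (RatFunc F) K]
    (T : Finset (Option F[X])) (hT : none ∈ T) (u : T → AbsoluteValue (RatFunc F) ℝ)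
    (hu : ∀ w : T, IsPl w.1 (u w)) (m : ℕ) (av' : Fin m → AbsoluteValue K ℝ)
    (h1 : ∀ j, ∃ i, (rsa (RatFunc F) (av' j)).IsEquiv (u i))
    (h2 : ∀ v : AbsoluteValue K ℝ, (∃ i, (rsa (RatFunc F) v).IsEquiv (u i)) → ∃ j, v.IsEquiv (av' j))
    (ε : ℝ) (hε : 0 < ε) :
    ∃ X : Set K, X.Finite ∧ ∀ x, ∃ s ∈ X, ∃ a ∈ OS av', ∀ j, av' j (x - s - a) ≤ ε := by
  obtain ⟨n, b, hb⟩ := hBas p F K
  obtain ⟨C, hC1, hC⟩ := CoK_ub (fun q : Fin m × Fin n => av' q.1 (b q.2))
  have hC0 : 0 < C := by linarith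
  have hδ : ∀ j, ∃ δ > 0, ∀ z, (∀ w v, IsPl w v → w ∈ T → v z ≤ δ) →
      rsa (RatFunc F) (av' j) z ≤ ε / C := by
    intro j
    obtain ⟨i, hi⟩ := h1 j
    obtain ⟨δ, hδ0, hδ⟩ := CoK_small hi.symm (div_pos hε hC0)
    exact ⟨δ, hδ0, fun z hz => hδ z (hz i.1 (u i) (hu i) i.2)⟩
  choose δ hδ0 hδ using hδ
  obtain ⟨δ', hδ'0, hδ'⟩ := CoK_lb δ hδ0
  obtain ⟨X₀, hX₀, hX⟩ := hCo0 F T hT δ' hδ'0
  refine ⟨(fun s : Fin n → RatFunc F => ∑ i, s i • b i) '' {s | ∀ i, s i ∈ X₀},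
    (Set.Finite.pi' fun _ => hX₀).image _, fun x => ?_⟩
  choose s hs a ha1 ha2 using fun i => hX (b.repr x i)
  refine ⟨_, ⟨s, hs, rfl⟩, ∑ i, a i • b i, ?_, ?_⟩
  · intro v hv hvn hvj
    obtain ⟨w, u0, hw, hvu⟩ := (hRt F).1 (rsa (RatFunc F) v) (hNtr p (RatFunc F) K v hv)
    have hwT : w ∉ T := by
      intro hwT
      have e := (hRt F).2.1 w u0 (u ⟨w, hwT⟩) hw (hu ⟨w, hwT⟩)
      obtain ⟨j, hj⟩ := h2 v ⟨⟨w, hwT⟩, by rw [← e]; exact hvu⟩
      exact hvj j hj
    have hX1 : rsa (RatFunc F) v RatFunc.X ≤ 1 := by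
      rw [hvu.le_one_iff]
      cases w with
      | none => exact absurd hT hwT
      | some P =>
        have h3 := hw.2.2 X X_ne_zero
        rw [RatFunc.algebraMap_X] at h3
        rw [h3]
        exact pow_le_one₀ (by norm_num) (by norm_num)
    refine CoK_sum hvn _ _ zero_le_one fun i _ => ?_
    rw [Algebra.smul_def, map_mul]
    refine mul_le_one₀ ?_ (v.nonneg _) (hb i v hX1)
    have h4 : rsa (RatFunc F) v (a i) ≤ 1 := by
      rw [hvu.le_one_iff]
      exact ha1 i w u0 hw hwT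
    exact h4
  · intro j
    have e : x - (fun s : Fin n → RatFunc F => ∑ i, s i • b i) s - ∑ i, a i • b i =
        ∑ i, (b.repr x i - s i - a i) • b i := by
      simp only [sub_smul, Finset.sum_sub_distrib]
      rw [b.sum_repr]
    rw [e]
    refine CoK_sum (hNa p K _) _ _ hε.le fun i _ => ?_
    rw [Algebra.smul_def, map_mul]
    have h5 : av' j (algebraMap (RatFunc F) K (b.repr x i - s i - a i)) ≤ ε / C :=
      hδ j _ fun w v hw hwT => (ha2 i w v hw hwT).trans (hδ' j)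
    calc av' j (algebraMap (RatFunc F) K (b.repr x i - s i - a i)) * av' j (b i)
        ≤ ε / C * C := mul_le_mul h5 (hC (j, i)) ((av' j).nonneg _) (div_pos hε hC0).le
      _ = ε := div_mul_cancel₀ _ hC0.ne'

theorem tCoK (hNa : S_Na) (hRt : S_Rt) (hCo0 : S_Co0) (hNtr : S_Ntr) (hAbv : S_Abv)
    (hBas : S_BasN) : S_CoK := by
  classical
  intro p _ K _ _ hG J _ av hav ε hε
  obtain ⟨F, _, _, _, _, _, _⟩ := hG
  have : CharP (RatFunc F) p :=
    charP_of_injective_algebraMap (algebraMap F (RatFunc F)).injective p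
  have hJf := Fintype.ofFinite J
  -- the places below
  choose wj uj hwj huj using fun j => (hRt F).1 (rsa (RatFunc F) (av j))
    (hNtr p (RatFunc F) K (av j) (hav.ntr j))
  let T : Finset (Option F[X]) := insert none (Finset.univ.image wj)
  have hT : none ∈ T := Finset.mem_insert_self _ _
  have hwT : ∀ j, wj j ∈ T := fun j =>
    Finset.mem_insert_of_mem (Finset.mem_image_of_mem _ (Finset.mem_univ j))
  have hex : ∀ w : T, ∃ u, IsPl w.1 u := by
    rintro ⟨w, hw⟩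
    rcases Finset.mem_insert.1 hw with h | h
    · change ∃ u, IsPl w u
      rw [h]
      exact (Pool.Agent.MP72W.tAv F).2.1
    · obtain ⟨j, -, rfl⟩ := Finset.mem_image.1 h
      exact ⟨uj j, hwj j⟩
  choose u hu using hex
  obtain ⟨m, av', hav', h1, h2⟩ := hAbv p (RatFunc F) K T u
    (fun w => (Pool.Agent.MP72W.tAv F).2.2 w.1 (u w) (hu w))
  -- the indices
  have hij : ∀ j, ∃ k, (av j).IsEquiv (av' k) := by
    intro j
    refine h2 (av j) ⟨⟨wj j, hwT j⟩, ?_⟩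
    have e := (hRt F).2.1 (wj j) (uj j) (u ⟨wj j, hwT j⟩) (hwj j) (hu ⟨wj j, hwT j⟩)
    rw [← e]
    exact huj j
  choose i hi using hij
  have hinj : Function.Injective i := by
    intro j j' hjj
    by_contra hne
    refine hav.inq j j' hne ((hi j).trans ?_)
    rw [hjj]
    exact (hi j').symm
  choose δ hδ0 hδ using fun j => CoK_small (hi j).symm hε
  obtain ⟨δ', hδ'0, hδ'⟩ := CoK_lb δ hδ0
  set ε' : ℝ := min 1 δ' with hε'
  have hε'0 : 0 < ε' := lt_min one_pos hδ'0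
  have hε'1 : ε' ≤ 1 := min_le_left _ _
  have hsm : ∀ j z, av' (i j) z ≤ ε' → av j z ≤ ε := fun j z hz =>
    hδ j z (hz.trans ((min_le_right _ _).trans (hδ' j)))
  obtain ⟨X', hX', hX'x⟩ := CoK_step1 hNa hRt hCo0 hNtr hBas p F K T hT u hu m av' h1 h2 ε' hε'0
  let S : K → Set K := fun s => {x | (∀ k, k ∉ Set.range i → av' k x ≤ 1) ∧
    ∃ a ∈ OS av', ∀ k, av' k (x - s - a) ≤ ε'}
  let g : K → K := fun s => if h : (S s).Nonempty then h.some else 0
  have hg : ∀ s, (S s).Nonempty → g s ∈ S s := by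
    intro s hs
    simp only [g]
    rw [dif_pos hs]
    exact hs.some_mem
  refine ⟨g '' X', hX'.image g, fun x => ?_⟩
  obtain ⟨x', hx'⟩ := CoK_wap hav' (fun k => if k ∈ Set.range i then x else 0) hε'0
  have hx1 : ∀ j, av' (i j) (x' - x) < ε' := by
    intro j
    have := hx' (i j)
    rwa [if_pos ⟨j, rfl⟩] at this
  have hx2 : ∀ k, k ∉ Set.range i → av' k x' ≤ 1 := by
    intro k hk
    have := hx' k
    rw [if_neg hk, sub_zero] at this
    exact this.le.trans hε'1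
  obtain ⟨s, hs, a', ha', hxa⟩ := hX'x x'
  have hgs := hg s ⟨x', hx2, a', ha', hxa⟩
  obtain ⟨hg1, a₁, ha₁, hga⟩ := hgs
  have hdiff : ∀ k, av' k (x' - g s - (a' - a₁)) ≤ ε' := by
    intro k
    have e : x' - g s - (a' - a₁) = (x' - s - a') - (g s - s - a₁) := by ring
    rw [e]
    exact CoK_sub (hNa p K _) (hxa k) (hga k)
  refine ⟨g s, ⟨s, hs, rfl⟩, a' - a₁, ?_, ?_⟩
  · intro v hv hvn hvj
    by_cases hk : ∃ k, v.IsEquiv (av' k)
    · obtain ⟨k, hk⟩ := hk
      have hkr : k ∉ Set.range i := by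
        rintro ⟨j, rfl⟩
        exact hvj j (hk.trans (hi j).symm)
      rw [hk.le_one_iff]
      have e : a' - a₁ = (x' - g s) - (x' - g s - (a' - a₁)) := by ring
      rw [e]
      exact CoK_sub (hNa p K _) (CoK_sub (hNa p K _) (hx2 k hkr) (hg1 k hkr))
        ((hdiff k).trans hε'1)
    · push Not at hk
      exact (sub_mem ha' ha₁ : a' - a₁ ∈ OS av') v hv hvn hk
  · intro j
    refine hsm j _ ?_
    have e : x - g s - (a' - a₁) = (x' - g s - (a' - a₁)) - (x' - x) := by ring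
    rw [e]
    exact CoK_sub (hNa p K _) (hdiff (i j)) (hx1 j).le

end Pool.Agent.MP72P
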