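import Pool.Agent.Lib.MP_72e2e6_nt.P3.N.Spec

/-!
# MP_72e2e6_nt, theorem T3p, block N: Den, `K` is dense in the product of the completions
-/

set_option autoImplicit false

namespace Pool.Agent.MP72P

private theorem den_norm {K : Type} [Field K] {v : AbsoluteValue K ℝ} (x : K) :
    ‖algebraMap K v.Completion x‖ = v x :=
  UniformSpace.Completion.norm_coe (WithAbs.toAbs v x)

private theorem den_dense {K : Type} [Field K] {v : AbsoluteValue K ℝ} (x : v.Completion) (ε : ℝ)
    (hε : 0 < ε) : ∃ a : K, ‖algebraMap K v.Completion a - x‖ < ε := by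
  obtain ⟨b, hb⟩ := UniformSpace.Completion.denseRange_coe.exists_dist_lt x hε
  rw [dist_comm, dist_eq_norm] at hb
  exact ⟨WithAbs.ofAbs b, hb⟩

private theorem den_wa {K : Type} [Field K] {J : Type} [Finite J] {av : J → AbsoluteValue K ℝ}
    (h : Pls av) (t : J → K) (ε : ℝ) (hε : 0 < ε) : ∃ x : K, ∀ j, av j (x - t j) < ε := by
  have := Fintype.ofFinite J
  have hd := AbsoluteValue.denseRange_algebraMap_pi h.ntr (fun i j hij => h.inq i j hij)
  obtain ⟨x, hx⟩ := Metric.denseRange_iff.1 hd (fun j => WithAbs.toAbs (av j) (t j)) ε hε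
  refine ⟨x, fun j => ?_⟩
  have h1 := (dist_pi_lt_iff hε).1 hx j
  rw [dist_comm, dist_eq_norm] at h1
  exact h1

theorem tDen : S_Den := by
  intro K _ J _ av hav y ε hε
  choose x hx using fun j => den_dense (y j) (ε / 2) (half_pos hε)
  obtain ⟨z, hz⟩ := den_wa hav x (ε / 2) (half_pos hε)
  refine ⟨z, fun j => ?_⟩
  have h1 : algebraMap K (av j).Completion z - y j =
      algebraMap K (av j).Completion (z - x j) + (algebraMap K (av j).Completion (x j) - y j) := by
    rw [map_sub]
    abel
  rw [h1]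
  refine lt_of_le_of_lt (norm_add_le _ _) ?_
  rw [den_norm]
  have h2 := hz j
  have h3 := hx j
  linarith

end Pool.Agent.MP72P
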