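import Pool.Agent.Lib.MP_72e2e6_nt.P3.N.Spec

/-!
# MP_72e2e6_nt, theorem T3p, block N, Dsc: discreteness and finite residue fields
-/

namespace Pool.Agent.MP72P

private def dscO {K : Type} [Field K] (v : AbsoluteValue K ℝ) (hna : IsNonarchimedean v) :
    Subring K where
  carrier := {x | v x ≤ 1}
  mul_mem' := fun {a b} ha hb => by
    change v (a * b) ≤ 1
    rw [map_mul]
    exact mul_le_one₀ ha (v.nonneg _) hb
  one_mem' := by
    change v 1 ≤ 1
    rw [map_one]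
  add_mem' := fun {a b} ha hb => (hna a b).trans (max_le ha hb)
  zero_mem' := by
    change v 0 ≤ 1
    rw [map_zero]
    exact zero_le_one
  neg_mem' := fun {a} ha => by
    change v (-a) ≤ 1
    rw [AbsoluteValue.map_neg]
    exact ha

private def dscM {K : Type} [Field K] (v : AbsoluteValue K ℝ) (hna : IsNonarchimedean v) :
    Ideal (dscO v hna) where
  carrier := {x | v (x : K) < 1}
  add_mem' := fun {a b} ha hb => lt_of_le_of_lt (hna a b) (max_lt ha hb)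
  zero_mem' := by
    change v ((0 : dscO v hna) : K) < 1
    rw [ZeroMemClass.coe_zero, map_zero]
    exact zero_lt_one
  smul_mem' := fun c a ha => by
    change v ((c • a : dscO v hna) : K) < 1
    rw [smul_eq_mul, MulMemClass.coe_mul, map_mul]
    exact mul_lt_one_of_nonneg_of_lt_one_right c.2 (v.nonneg _) ha

private theorem dsc_mem {K : Type} [Field K] {v : AbsoluteValue K ℝ} {hna : IsNonarchimedean v}
    {x : dscO v hna} : x ∈ dscM v hna ↔ v (x : K) < 1 := Iff.rfl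

private theorem dsc_max {K : Type} [Field K] (v : AbsoluteValue K ℝ) (hna : IsNonarchimedean v) :
    (dscM v hna).IsMaximal := by
  rw [Ideal.isMaximal_iff]
  constructor
  · rw [dsc_mem, OneMemClass.coe_one, map_one]
    exact lt_irrefl _
  · intro J x _ hx hxJ
    rw [dsc_mem, not_lt] at hx
    have h1 : v (x : K) = 1 := le_antisymm x.2 hx
    have h0 : (x : K) ≠ 0 := fun h => by
      rw [h, map_zero] at h1
      exact zero_ne_one h1
    have h2 : v ((x : K)⁻¹) ≤ 1 := by rw [map_inv₀, h1, inv_one]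
    have h3 : (⟨(x : K)⁻¹, h2⟩ : dscO v hna) * x = 1 := Subtype.ext (inv_mul_cancel₀ h0)
    rw [← h3]
    exact J.mul_mem_left _ hxJ

private theorem dsc_cls {K : Type} [Field K] {v : AbsoluteValue K ℝ} (hna : IsNonarchimedean v)
    {ε : ℝ} (h1 : ∃ X : Set K, X.Finite ∧ ∀ x, ∃ s ∈ X, ∃ a ∈ OS (fun _ : Unit => v),
      Unit → v (x - s - a) ≤ ε)
    (h2 : ∀ B : ℝ, {f : K | f ∈ OS (fun _ : Unit => v) ∧ (Unit → v f ≤ B)}.Finite) :
    ∃ Y : Set K, Y.Finite ∧ ∀ x, v x ≤ 1 → ∃ y ∈ Y, v (x - y) ≤ ε := by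
  obtain ⟨X, hX, h1⟩ := h1
  obtain ⟨C, hC⟩ := (hX.image v).bddAbove
  refine ⟨Set.image2 (fun s a => s + a) X _, hX.image2 _ (h2 (max ε (max 1 C))), fun x hx => ?_⟩
  obtain ⟨s, hs, a, ha, h3⟩ := h1 x
  have hsC : v s ≤ C := hC ⟨s, hs, rfl⟩
  refine ⟨s + a, ⟨s, hs, a, ⟨ha, fun _ => ?_⟩, rfl⟩, by
    have := h3 ()
    rwa [sub_sub] at this⟩
  have h4 : a = -(x - s - a) + (x - s) := by ring
  have h5 : v (x - s) ≤ max 1 C := by
    rw [sub_eq_add_neg]
    refine (hna _ _).trans (max_le_max hx ?_)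
    rw [AbsoluteValue.map_neg]
    exact hsC
  rw [h4]
  refine (hna _ _).trans (max_le_max ?_ h5)
  rw [AbsoluteValue.map_neg]
  exact h3 ()

private theorem dsc_pi {K : Type} [Field K] {v : AbsoluteValue K ℝ} (hna : IsNonarchimedean v)
    (hv : v.IsNontrivial)
    (h : ∀ ε : ℝ, 0 < ε → ∃ Y : Set K, Y.Finite ∧ ∀ x, v x ≤ 1 → ∃ y ∈ Y, v (x - y) ≤ ε) :
    ∃ ϖ : K, 0 < v ϖ ∧ v ϖ < 1 ∧ ∀ x, v x < 1 → v x ≤ v ϖ := by
  obtain ⟨x0, hx0, hx1⟩ := hv.exists_abv_lt_one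
  have hx0 := v.pos hx0
  obtain ⟨Y, hY, hY1⟩ := h (v x0 / 2) (half_pos hx0)
  have hfin : {r : ℝ | ∃ x, v x = r ∧ v x0 / 2 < r ∧ r < 1}.Finite := by
    refine (hY.image v).subset ?_
    rintro r ⟨x, rfl, h1, h2⟩
    obtain ⟨y, hy, h3⟩ := hY1 x h2.le
    refine ⟨y, hy, ?_⟩
    have h4 : v (x - y) < v x := h3.trans_lt h1
    have h5 : y = -(x - y) + x := by ring
    rw [h5]
    refine hna.add_eq_right_of_lt ?_
    rw [AbsoluteValue.map_neg]
    exact h4
  obtain ⟨r, ⟨ϖ, hr, h1, h2⟩, h3⟩ := Set.exists_max_image _ id hfin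
    ⟨v x0, x0, rfl, half_lt_self hx0, hx1⟩
  subst hr
  have h4 : v x0 ≤ v ϖ := h3 _ ⟨x0, rfl, half_lt_self hx0, hx1⟩
  refine ⟨ϖ, hx0.trans_le h4, h2, fun x hx => ?_⟩
  rcases lt_or_ge (v x0 / 2) (v x) with h5 | h5
  · exact h3 _ ⟨x, rfl, h5, hx⟩
  · exact h5.trans ((half_le_self hx0.le).trans h4)

theorem tDsc : S_Na → S_CoK → S_FiK → S_Dsc := by
  intro hNa hCoK hFiK p _ K _ _ hG v hv
  classical
  have hna := hNa p K v
  have hpls : Pls (fun _ : Unit => v) := ⟨fun _ => hv, fun j j' h => absurd rfl h⟩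
  have hcls : ∀ ε : ℝ, 0 < ε →
      ∃ Y : Set K, Y.Finite ∧ ∀ x, v x ≤ 1 → ∃ y ∈ Y, v (x - y) ≤ ε := fun ε hε =>
    dsc_cls hna (hCoK p K hG Unit _ hpls ε hε) (fun B => hFiK p K hG Unit _ hpls B)
  obtain ⟨ϖ, hpi0, hpi1, hpi⟩ := dsc_pi hna hv hcls
  obtain ⟨Y, hY, hY1⟩ := hcls (v ϖ) hpi0
  have hmax := dsc_max v hna
  let k := dscO v hna ⧸ dscM v hna
  letI : Field k := Ideal.Quotient.field _
  have hfin : Finite k := by
    have : Finite (Subtype.val ⁻¹' Y : Set (dscO v hna)) :=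
      (hY.preimage Subtype.val_injective.injOn).to_subtype
    refine Finite.of_surjective
      (fun y : (Subtype.val ⁻¹' Y : Set (dscO v hna)) => (Ideal.Quotient.mk _ y.1 : k)) ?_
    intro q
    obtain ⟨x, rfl⟩ := Ideal.Quotient.mk_surjective q
    obtain ⟨y, hy, h1⟩ := hY1 x x.2
    have h2 : v y ≤ 1 := by
      have h3 : y = -((x : K) - y) + x := by ring
      rw [h3]
      refine (hna _ _).trans (max_le ?_ x.2)
      rw [AbsoluteValue.map_neg]
      exact h1.trans hpi1.le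
    refine ⟨⟨⟨y, h2⟩, hy⟩, ?_⟩
    refine (Ideal.Quotient.eq.2 ?_).symm
    rw [dsc_mem]
    exact h1.trans_lt hpi1
  have := Fintype.ofFinite k
  have hchar : CharP k p := by
    rw [CharP.charP_iff_prime_eq_zero Fact.out]
    have h1 : ((p : ℕ) : dscO v hna) = 0 := Subtype.ext (by
      push_cast
      exact CharP.cast_eq_zero K p)
    have h2 := congrArg (Ideal.Quotient.mk (dscM v hna)) h1
    rw [map_natCast, map_zero] at h2
    exact h2
  obtain ⟨g, hg⟩ : ∃ g : k → dscO v hna, ∀ q, (Ideal.Quotient.mk _ (g q) : k) = q :=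
    ⟨Function.surjInv Ideal.Quotient.mk_surjective, fun q => Function.surjInv_eq _ q⟩
  have hinj : Function.Injective (fun q : k => (g q : K)) := by
    intro q q' h
    rw [← hg q, ← hg q', Subtype.val_injective h]
  refine ⟨Fintype.card k, ϖ, Finset.univ.image (fun q : k => (g q : K)), hna, hpi0, hpi1,
    ?_, ?_, ?_, ?_, ?_, ?_, ?_⟩
  · intro x hx
    obtain ⟨n, h1, h2⟩ := exists_mem_Ioc_zpow (v.pos hx) ((one_lt_inv₀ hpi0).2 hpi1)
    refine ⟨-(n + 1), ?_⟩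
    rw [inv_zpow'] at h1 h2
    have h3 : v (x / ϖ ^ (-(n + 1))) ≤ 1 := by
      rw [map_div₀, map_zpow₀, div_le_one (zpow_pos hpi0 _)]
      exact h2
    have h4 : ¬ v (x / ϖ ^ (-(n + 1))) < 1 := by
      intro h5
      have h6 := hpi _ h5
      rw [map_div₀, map_zpow₀, div_le_iff₀ (zpow_pos hpi0 _), ← zpow_one_add₀ hpi0.ne'] at h6
      have h7 : 1 + -(n + 1) = -n := by ring
      rw [h7] at h6
      exact absurd h6 (not_le.2 h1)
    have h8 := le_antisymm h3 (not_lt.1 h4)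
    rw [map_div₀, map_zpow₀, div_eq_one_iff_eq (zpow_pos hpi0 _).ne'] at h8
    exact h8
  · obtain ⟨n, _, hn⟩ := FiniteField.card k p
    exact ⟨n, n.2, hn⟩
  · intro x hx
    have h1 : (Ideal.Quotient.mk _ (⟨x, hx⟩ ^ Fintype.card k - ⟨x, hx⟩) : k) = 0 := by
      rw [map_sub, map_pow, FiniteField.pow_card, sub_self]
    exact Ideal.Quotient.eq_zero_iff_mem.1 h1
  · rw [Finset.card_image_of_injective _ hinj]
    rfl
  · intro r hr
    obtain ⟨q, _, rfl⟩ := Finset.mem_image.1 hr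
    exact (g q).2
  · intro r hr r' hr' hne
    obtain ⟨q, _, rfl⟩ := Finset.mem_image.1 hr
    obtain ⟨q', _, rfl⟩ := Finset.mem_image.1 hr'
    have h1 : q ≠ q' := fun h => hne (by rw [h])
    refine le_antisymm (g q - g q').2 (not_lt.1 fun h => h1 ?_)
    rw [← hg q, ← hg q']
    exact Ideal.Quotient.eq.2 h
  · intro x hx
    refine ⟨g (Ideal.Quotient.mk _ ⟨x, hx⟩), Finset.mem_image.2 ⟨_, Finset.mem_univ _, rfl⟩, ?_⟩
    have h1 := hg (Ideal.Quotient.mk _ ⟨x, hx⟩)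
    exact Ideal.Quotient.eq.1 h1.symm

end Pool.Agent.MP72P
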