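import Pool.Agent.Lib.MP_72e2e6_nt.P3.N.Spec

/-!
# MP_72e2e6_nt, theorem T3p, block N: the Euler characteristic at level one
-/

namespace Pool.Agent.MP72P

/-! ### Index lemmas -/

/-- A relation which is total on both sides and compatible with subgroups compares indices. -/
private theorem Eul_rel {G H : Type*} [AddCommGroup G] [AddCommGroup H] (V₀ V : AddSubgroup G)
    (S₀ S : AddSubgroup H) (R : AddSubgroup (G × H))
    (h1 : ∀ x ∈ V, ∃ s ∈ S, (x, s) ∈ R) (h2 : ∀ s ∈ S, ∃ x ∈ V, (x, s) ∈ R)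
    (h3 : ∀ x ∈ V, ∀ s ∈ S, (x, s) ∈ R → (x ∈ V₀ ↔ s ∈ S₀)) :
    V₀.relIndex V = S₀.relIndex S := by
  let R' : AddSubgroup (G × H) := R ⊓ V.prod S
  have hR1 : ∀ z : R', z.1.1 ∈ V := fun z => (AddSubgroup.mem_prod.1 z.2.2).1
  have hR2 : ∀ z : R', z.1.2 ∈ S := fun z => (AddSubgroup.mem_prod.1 z.2.2).2
  let f : R' →+ V := ((AddMonoidHom.fst G H).comp R'.subtype).codRestrict V hR1
  let g : R' →+ S := ((AddMonoidHom.snd G H).comp R'.subtype).codRestrict S hR2
  have hf : Function.Surjective f := by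
    rintro ⟨x, hx⟩
    obtain ⟨s, hs, hxs⟩ := h1 x hx
    exact ⟨⟨(x, s), hxs, AddSubgroup.mem_prod.2 ⟨hx, hs⟩⟩, rfl⟩
  have hg : Function.Surjective g := by
    rintro ⟨s, hs⟩
    obtain ⟨x, hx, hxs⟩ := h2 s hs
    exact ⟨⟨(x, s), hxs, AddSubgroup.mem_prod.2 ⟨hx, hs⟩⟩, rfl⟩
  have e1 := (V₀.addSubgroupOf V).index_comap_of_surjective hf
  have e2 := (S₀.addSubgroupOf S).index_comap_of_surjective hg
  have e3 : (V₀.addSubgroupOf V).comap f = (S₀.addSubgroupOf S).comap g := by
    ext z
    exact h3 z.1.1 (hR1 z) z.1.2 (hR2 z) z.2.1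
  rw [e3] at e1
  exact e1.symm.trans e2

private theorem Eul_idx {K : Type*} [AddCommGroup K] (P μ : K →+ K) (hμ : Function.Surjective μ)
    (A B B' : AddSubgroup K) (hAB : (A ⊔ B').comap μ = A ⊔ B) (hPA : A ≤ A.comap P)
    (hPB : B ≤ B'.comap P) (hAB' : A ⊓ B' = ⊥) (hfin : (A ⊔ B).index ≠ 0) (hkA : P.ker ≤ A)
    (hkB : P.ker ⊓ B = ⊥) :
    (A ⊔ P.range ⊔ B').index ≠ 0 ∧ (A ⊔ B'.comap P).relIndex ((A ⊔ B').comap P) ≠ 0 ∧
    (A ⊔ P.range ⊔ B').index * Nat.card P.ker =
      (A ⊔ B'.comap P).relIndex ((A ⊔ B').comap P) * B.relIndex (B'.comap P) := by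
  set U := A ⊔ B with hU
  set U' := A ⊔ B' with hU'
  set V := U'.comap P with hV
  set W := B'.comap P with hW
  set T := A ⊔ P.range ⊔ B' with hT
  have hTU : T = P.range ⊔ U' := by
    rw [hT, hU', sup_comm A P.range, sup_assoc]
  have e1 : U.index = U'.index := by
    rw [← hAB]
    exact AddSubgroup.index_comap_of_surjective _ hμ
  have e2 : V.index = U'.relIndex P.range := AddSubgroup.index_comap _ _
  have e3 : U'.relIndex T = U'.relIndex P.range := by
    rw [hTU]
    exact AddSubgroup.relIndex_sup_right _ _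
  have e4 : U'.relIndex T * T.index = U'.index :=
    AddSubgroup.relIndex_mul_index (by rw [hTU]; exact le_sup_right)
  have hUV : U ≤ V := by
    refine sup_le (fun x hx => ?_) (fun x hx => ?_)
    · exact AddSubgroup.mem_sup_left (hPA hx)
    · exact AddSubgroup.mem_sup_right (hPB hx)
  have e5 : U.relIndex V * V.index = U.index := AddSubgroup.relIndex_mul_index hUV
  have hVi : V.index ≠ 0 := by
    intro h0
    rw [h0, mul_zero] at e5
    exact hfin e5.symm
  have e6 : T.index = U.relIndex V := by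
    have : V.index * T.index = V.index * U.relIndex V := by
      rw [e2, ← e3, e4, ← e1, ← e5, e2, e3]
      ring
    exact Nat.eq_of_mul_eq_mul_left (Nat.pos_of_ne_zero hVi) this
  have hAWV : A ⊔ W ≤ V := by
    refine sup_le (fun x hx => ?_) (fun x hx => ?_)
    · exact AddSubgroup.mem_sup_left (hPA hx)
    · exact AddSubgroup.mem_sup_right hx
  have hUAW : U ≤ A ⊔ W := sup_le le_sup_left (hPB.trans le_sup_right)
  have e7 : U.relIndex (A ⊔ W) * (A ⊔ W).relIndex V = U.relIndex V :=
    AddSubgroup.relIndex_mul_relIndex _ _ _ hUAW hAWV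
  have hAW : A ⊔ W = W ⊔ U := by
    apply le_antisymm
    · exact sup_le (le_sup_left.trans le_sup_right) le_sup_left
    · exact sup_le le_sup_right hUAW
  have e8 : U.relIndex (A ⊔ W) = U.relIndex W := by
    rw [hAW]
    exact AddSubgroup.relIndex_sup_right _ _
  have hWU : U ⊓ W = P.ker ⊔ B := by
    apply le_antisymm
    · rintro x ⟨hxU, hxW⟩
      obtain ⟨a, ha, b, hb, hab⟩ := AddSubgroup.mem_sup.1 hxU
      have h1 : P a ∈ A := hPA ha
      have h2 : P a ∈ B' := by
        have : P a = P x - P b := by rw [← hab, map_add, add_sub_cancel_right]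
        rw [this]
        exact sub_mem hxW (hPB hb)
      have h3 : P a ∈ A ⊓ B' := ⟨h1, h2⟩
      rw [hAB', AddSubgroup.mem_bot] at h3
      exact AddSubgroup.mem_sup.2 ⟨a, h3, b, hb, hab⟩
    · refine sup_le (fun x hx => ⟨AddSubgroup.mem_sup_left (hkA hx), ?_⟩)
        (fun x hx => ⟨AddSubgroup.mem_sup_right hx, hPB hx⟩)
      have h4 : P x = 0 := hx
      have h5 : P x ∈ B' := by rw [h4]; exact zero_mem _
      exact h5
  have e9 : U.relIndex W = (P.ker ⊔ B).relIndex W := by
    rw [← hWU, AddSubgroup.inf_relIndex_right]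
  have hkW : P.ker ⊔ B ≤ W := by rw [← hWU]; exact inf_le_right
  have e10 : B.relIndex (P.ker ⊔ B) * (P.ker ⊔ B).relIndex W = B.relIndex W :=
    AddSubgroup.relIndex_mul_relIndex _ _ _ le_sup_right hkW
  have e11 : B.relIndex (P.ker ⊔ B) = Nat.card P.ker := by
    rw [AddSubgroup.relIndex_sup_right, ← AddSubgroup.inf_relIndex_right, inf_comm, hkB,
      AddSubgroup.relIndex_bot_left]
  have hUVn : U.relIndex V ≠ 0 := by
    intro h0
    rw [h0, zero_mul] at e5
    exact hfin e5.symm
  refine ⟨by rw [e6]; exact hUVn, fun h0 => ?_, ?_⟩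
  · rw [h0, mul_zero] at e7
    exact hUVn e7.symm
  · rw [e6, ← e7, e8, e9, ← e10, e11]
    ring

/-! ### Absolute values -/

private theorem Eul_lb {J : Type} [Finite J] (f : J → ℝ) (hf : ∀ j, 0 < f j) :
    ∃ δ > 0, ∀ j, δ ≤ f j := by
  rcases isEmpty_or_nonempty J with hJ | hJ
  · exact ⟨1, one_pos, fun j => (hJ.false j).elim⟩
  · obtain ⟨j0, hj0⟩ := Finite.exists_min f
    exact ⟨f j0, hf j0, hj0⟩

private theorem Eul_sub {K : Type} [Field K] {v : AbsoluteValue K ℝ} (hv : IsNonarchimedean v)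
    {x y : K} {B : ℝ} (hx : v x ≤ B) (hy : v y ≤ B) : v (x - y) ≤ B := by
  rw [sub_eq_add_neg]
  refine (hv _ _).trans (max_le hx ?_)
  rwa [AbsoluteValue.map_neg]

private theorem Eul_norm {K : Type} [Field K] (v : AbsoluteValue K ℝ) (x : K) :
    ‖algebraMap K v.Completion x‖ = v x :=
  UniformSpace.Completion.norm_coe (WithAbs.toAbs v x)

private theorem Eul_ultra {K : Type} [Field K] {v : AbsoluteValue K ℝ} (hna : IsNonarchimedean v)
    (x y : v.Completion) : ‖x + y‖ ≤ max ‖x‖ ‖y‖ := by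
  refine UniformSpace.Completion.induction_on₂ x y ?_ fun a b => ?_
  · exact isClosed_le (by fun_prop) (by fun_prop)
  · rw [← UniformSpace.Completion.coe_add, UniformSpace.Completion.norm_coe,
      UniformSpace.Completion.norm_coe, UniformSpace.Completion.norm_coe]
    exact hna a.ofAbs b.ofAbs

section
variable {p : ℕ} [Fact p.Prime] {K : Type} [Field K] [CharP K p] {J : Type}
  {av : J → AbsoluteValue K ℝ}

omit [Fact p.Prime] [CharP K p] in
private theorem Eul_Pmap (v : AbsoluteValue K ℝ) (h x : K) :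
    algebraMap K v.Completion (Ph p h x) =
      Ph p (algebraMap K v.Completion h) (algebraMap K v.Completion x) := by
  rw [Ph, Ph, map_sub, map_pow, map_mul]

private theorem Eul_Psub (v : AbsoluteValue K ℝ) (h : K) (x y : v.Completion) :
    Ph p (algebraMap K v.Completion h) (x - y) =
      Ph p (algebraMap K v.Completion h) x - Ph p (algebraMap K v.Completion h) y := by
  have := charP_of_injective_algebraMap (algebraMap K v.Completion).injective p
  exact (PhA p (algebraMap K v.Completion h)).map_sub x y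

omit [Fact p.Prime] [CharP K p] in
private theorem Eul_mem (hna : ∀ j, IsNonarchimedean (av j)) {r : J → ℝ} (hr : ∀ j, 0 < r j)
    (x : K) : x ∈ Bl av r ↔ ∀ j, av j x ≤ r j := by
  refine ⟨fun h j => ?_, fun h j _ => ?_⟩
  · have := h j (hna j)
    rwa [abs_of_pos (hr j)] at this
  · rw [abs_of_pos (hr j)]
    exact h j

private theorem Eul_PA {h b : K} (hh : h ∈ OS av) (hb : b ∈ (OS av).toAddSubgroup) :
    PhA p h b ∈ (OS av).toAddSubgroup := by
  have hb' : b ∈ OS av := hb
  have : b ^ p - h * b ∈ OS av := sub_mem (pow_mem hb' p) (mul_mem hh hb')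
  exact this

/-- The relation `a = P x + (small)` between `x` and `a ∈ ShN`. -/
private theorem Eul_s (hNa : S_Na) (hDen : S_Den) (hPhl : S_Phl) [Finite J] (hav : Pls av)
    (h : K) (h0 : h ≠ 0) (hhA : h ∈ OS av) (r r' : J → ℝ) (hr : ∀ j, 0 < r j) (hr' : ∀ j, r' j = av j h * r j)
    (hrp : ∀ j, r j ^ (p - 1) < av j h) (hA0 : (OS av).toAddSubgroup ⊓ Bl av r' = ⊥) :
    ((OS av).toAddSubgroup ⊔ (Bl av r').comap (PhA p h)).relIndex
      (((OS av).toAddSubgroup ⊔ Bl av r').comap (PhA p h)) =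
    (PhN p av h).relIndex (ShN p av h) := by
  have hr'0 : ∀ j, 0 < r' j := fun j => by
    rw [hr']
    exact mul_pos ((av j).pos h0) (hr j)
  have hm := fun x => Eul_mem (fun j => hNa p K (av j)) hr'0 x
  let f : K × K →+ K := (PhA p h).comp (AddMonoidHom.fst K K) - AddMonoidHom.snd K K
  have hf : ∀ x s, f (x, s) = Ph p h x - s := fun x s => rfl
  refine Eul_rel _ _ _ _ ((Bl av r').comap f) ?_ ?_ ?_
  · intro x hx
    obtain ⟨a, ha, z, hz, haz⟩ := AddSubgroup.mem_sup.1 hx
    have haz : a + z = Ph p h x := haz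
    refine ⟨a, ⟨ha, fun j => ?_⟩, ?_⟩
    · obtain ⟨y, hy, -⟩ := (hPhl p K (av j) h (r j) h0 (hr j) (hrp j)).2.1
        (algebraMap K (av j).Completion z) (by
          rw [Eul_norm, ← hr']
          exact (hm z).1 hz j)
      refine ⟨algebraMap K (av j).Completion x - y, ?_⟩
      rw [Eul_Psub, hy.2, ← Eul_Pmap, ← haz, map_add, add_sub_cancel_right]
    · show f (x, a) ∈ Bl av r'
      rw [hf, ← haz, add_sub_cancel_left]
      exact hz
  · intro a ha
    choose y hy using ha.2
    obtain ⟨δ, hδ0, hδ⟩ := Eul_lb r hr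
    obtain ⟨x, hx⟩ := hDen K J av hav y δ hδ0
    have h5 : Ph p h x - a ∈ Bl av r' := by
      rw [hm]
      intro j
      have h6 : ‖algebraMap K (av j).Completion x - y j‖ ≤ r j := (hx j).le.trans (hδ j)
      have h7 := (hPhl p K (av j) h (r j) h0 (hr j) (hrp j)).1 _ h6
      rw [← Eul_norm, map_sub, Eul_Pmap, ← hy j, ← Eul_Psub, h7, hr']
      exact mul_le_mul_of_nonneg_left h6 ((av j).nonneg h)
    refine ⟨x, ?_, h5⟩
    exact AddSubgroup.mem_sup.2 ⟨a, ha.1, Ph p h x - a, h5, by
      rw [add_sub_cancel]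
      rfl⟩
  · intro x _ a ha hxa
    have hxa : Ph p h x - a ∈ Bl av r' := hxa
    constructor
    · intro hx
      obtain ⟨b, hb, w, hw, hbw⟩ := AddSubgroup.mem_sup.1 hx
      refine ⟨b, hb, ?_⟩
      have hw : PhA p h w ∈ Bl av r' := hw
      have e1 : a - PhA p h b = PhA p h w - (Ph p h x - a) := by
        have : Ph p h x = PhA p h b + PhA p h w := by
          rw [← map_add, hbw]
          rfl
        rw [this]
        ring
      have h8 : a - PhA p h b ∈ (OS av).toAddSubgroup ⊓ Bl av r' := by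
        refine ⟨?_, ?_⟩
        · exact (OS av).toAddSubgroup.sub_mem ha.1 (Eul_PA hhA hb)
        · have h9 := (Bl av r').sub_mem hw hxa
          rwa [← e1] at h9
      rw [hA0, AddSubgroup.mem_bot, sub_eq_zero] at h8
      exact h8.symm
    · rintro ⟨b, hb, hba⟩
      refine AddSubgroup.mem_sup.2 ⟨b, hb, x - b, ?_, by rw [add_sub_cancel]⟩
      show PhA p h (x - b) ∈ Bl av r'
      rw [map_sub, hba]
      exact hxa

/-- The kernels of `x ^ p - h x` in the completions. -/
private noncomputable def EulN (p : ℕ) [Fact p.Prime] {K : Type} [Field K] [CharP K p] {J : Type}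
    (av : J → AbsoluteValue K ℝ) (h : K) : AddSubgroup (∀ j, (av j).Completion) where
  carrier := {κ | ∀ j, Ph p (algebraMap K (av j).Completion h) (κ j) = 0}
  add_mem' := fun {a b} ha hb j => by
    have := charP_of_injective_algebraMap (algebraMap K (av j).Completion).injective p
    have e : PhA p (algebraMap K (av j).Completion h) (a j + b j) =
      PhA p (algebraMap K (av j).Completion h) (a j) +
        PhA p (algebraMap K (av j).Completion h) (b j) := map_add _ _ _
    have ha' : PhA p (algebraMap K (av j).Completion h) (a j) = 0 := ha j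
    have hb' : PhA p (algebraMap K (av j).Completion h) (b j) = 0 := hb j
    rw [ha', hb', add_zero] at e
    exact e
  zero_mem' := fun j => by
    have := charP_of_injective_algebraMap (algebraMap K (av j).Completion).injective p
    exact (PhA p (algebraMap K (av j).Completion h)).map_zero
  neg_mem' := fun {a} ha j => by
    have := charP_of_injective_algebraMap (algebraMap K (av j).Completion).injective p
    have e : PhA p (algebraMap K (av j).Completion h) (-a j) =
      -PhA p (algebraMap K (av j).Completion h) (a j) := map_neg _ _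
    have ha' : PhA p (algebraMap K (av j).Completion h) (a j) = 0 := ha j
    rw [ha', neg_zero] at e
    exact e

/-- Vectors of the completions near elements of `K`. -/
private noncomputable def EulR {K : Type} [Field K] {J : Type} (av : J → AbsoluteValue K ℝ)
    (hna : ∀ j, IsNonarchimedean (av j)) (r : J → ℝ) (hr : ∀ j, 0 < r j) :
    AddSubgroup (K × ∀ j, (av j).Completion) where
  carrier := {z | ∀ j, ‖algebraMap K (av j).Completion z.1 - z.2 j‖ ≤ r j}
  add_mem' := fun {a b} ha hb j => by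
    have e : algebraMap K (av j).Completion (a + b).1 - (a + b).2 j =
        (algebraMap K (av j).Completion a.1 - a.2 j) +
          (algebraMap K (av j).Completion b.1 - b.2 j) := by
      rw [Prod.fst_add, Prod.snd_add, Pi.add_apply, map_add]
      ring
    rw [e]
    exact (Eul_ultra (hna j) _ _).trans (max_le (ha j) (hb j))
  zero_mem' := fun j => by
    rw [Prod.fst_zero, Prod.snd_zero, Pi.zero_apply, map_zero, sub_zero, norm_zero]
    exact (hr j).le
  neg_mem' := fun {a} ha j => by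
    have e : algebraMap K (av j).Completion (-a).1 - (-a).2 j =
        -(algebraMap K (av j).Completion a.1 - a.2 j) := by
      rw [Prod.fst_neg, Prod.snd_neg, Pi.neg_apply, map_neg]
      ring
    rw [e, norm_neg]
    exact ha j

/-- The number of solutions in the completions. -/
private theorem Eul_W (hNa : S_Na) (hDen : S_Den) (hPhl : S_Phl) [Fintype J] (hav : Pls av)
    (h : K) (h0 : h ≠ 0) (r r' : J → ℝ) (hr : ∀ j, 0 < r j) (hr' : ∀ j, r' j = av j h * r j)
    (hrp : ∀ j, r j ^ (p - 1) < av j h) :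
    (Bl av r).relIndex ((Bl av r').comap (PhA p h)) =
    ∏ j, Nat.card {x : (av j).Completion // Ph p (algebraMap K (av j).Completion h) x = 0} := by
  have hna := fun j => hNa p K (av j)
  have hr'0 : ∀ j, 0 < r' j := fun j => by
    rw [hr']
    exact mul_pos ((av j).pos h0) (hr j)
  have hm := fun x => Eul_mem hna hr'0 x
  have hm0 := fun x => Eul_mem hna hr x
  have hP := fun j => hPhl p K (av j) h (r j) h0 (hr j) (hrp j)
  have e1 : (Bl av r).relIndex ((Bl av r').comap (PhA p h)) =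
      (⊥ : AddSubgroup (∀ j, (av j).Completion)).relIndex (EulN p av h) := by
    refine Eul_rel _ _ _ _ (EulR av hna r hr) ?_ ?_ ?_
    · intro x hx
      have hx : Ph p h x ∈ Bl av r' := hx
      have hy : ∀ j, ∃ y : (av j).Completion, ‖y‖ ≤ r j ∧
          Ph p (algebraMap K (av j).Completion h) y =
            algebraMap K (av j).Completion (Ph p h x) := fun j => by
        obtain ⟨y, hy, -⟩ := (hP j).2.1 (algebraMap K (av j).Completion (Ph p h x)) (by
          rw [Eul_norm, ← hr']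
          exact (hm _).1 hx j)
        exact ⟨y, hy⟩
      choose y hy1 hy2 using hy
      refine ⟨fun j => algebraMap K (av j).Completion x - y j, fun j => ?_, fun j => ?_⟩
      · rw [Eul_Psub, hy2, ← Eul_Pmap, sub_self]
      · show ‖algebraMap K (av j).Completion x - (algebraMap K (av j).Completion x - y j)‖ ≤ r j
        rw [sub_sub_cancel]
        exact hy1 j
    · intro κ hκ
      obtain ⟨δ, hδ0, hδ⟩ := Eul_lb r hr
      obtain ⟨x, hx⟩ := hDen K J av hav κ δ hδ0
      have h6 : ∀ j, ‖algebraMap K (av j).Completion x - κ j‖ ≤ r j :=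
        fun j => (hx j).le.trans (hδ j)
      refine ⟨x, ?_, h6⟩
      show Ph p h x ∈ Bl av r'
      rw [hm]
      intro j
      have h7 := (hP j).1 _ (h6 j)
      rw [Eul_Psub, hκ j, sub_zero, ← Eul_Pmap, Eul_norm] at h7
      rw [h7, hr']
      exact mul_le_mul_of_nonneg_left (h6 j) ((av j).nonneg h)
    · intro x hx κ hκ hxκ
      have hxκ : ∀ j, ‖algebraMap K (av j).Completion x - κ j‖ ≤ r j := hxκ
      rw [AddSubgroup.mem_bot, hm0]
      constructor
      · intro hxB
        funext j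
        refine (hP j).2.2.1 (κ j) (hκ j) ?_
        have e : κ j = algebraMap K (av j).Completion x +
            -(algebraMap K (av j).Completion x - κ j) := by ring
        rw [e]
        refine (Eul_ultra (hna j) _ _).trans (max_le ?_ ?_)
        · rw [Eul_norm]
          exact hxB j
        · rw [norm_neg]
          exact hxκ j
      · rintro rfl j
        have := hxκ j
        rwa [Pi.zero_apply, sub_zero, Eul_norm] at this
  rw [e1, AddSubgroup.relIndex_bot_left, ← Nat.card_pi]
  exact Nat.card_congr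
    { toFun := fun κ j => ⟨κ.1 j, κ.2 j⟩
      invFun := fun κ => ⟨fun j => (κ j).1, fun j => (κ j).2⟩
      left_inv := fun κ => rfl
      right_inv := fun κ => rfl }

/-- The statement for one family of radii. -/
private theorem Eul_one (hNa : S_Na) (hCoK : S_CoK) (hDen : S_Den) (hPhl : S_Phl) [Fintype J]
    [Nonempty J] (hG : GFld p K) (hav : Pls av) (h : K) (h0 : h ≠ 0)
    (hh : ∀ v : AbsoluteValue K ℝ, v.IsNontrivial → (∀ j, ¬ v.IsEquiv (av j)) → v h = 1)
    (r r' : J → ℝ) (hr : ∀ j, 0 < r j) (hr' : ∀ j, r' j = av j h * r j)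
    (hrp : ∀ j, r j ^ (p - 1) < av j h)
    (hA : ∀ f ∈ OS av, (∀ j, av j f ≤ r' j) → f = 0) :
    ((OS av).toAddSubgroup ⊔ (PhA p h).range ⊔ Bl av r').index ≠ 0 ∧
    (PhN p av h).relIndex (ShN p av h) ≠ 0 ∧
    ((OS av).toAddSubgroup ⊔ (PhA p h).range ⊔ Bl av r').index *
        Nat.card {x : K // Ph p h x = 0} =
      (PhN p av h).relIndex (ShN p av h) *
        ∏ j, Nat.card {x : (av j).Completion // Ph p (algebraMap K (av j).Completion h) x = 0} := by
  have hna := fun j => hNa p K (av j)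
  have hp1 : p - 1 ≠ 0 := by
    have := (Fact.out : p.Prime).two_le
    omega
  have hr'0 : ∀ j, 0 < r' j := fun j => by
    rw [hr']
    exact mul_pos ((av j).pos h0) (hr j)
  have hm := fun x => Eul_mem hna hr'0 x
  have hm0 := fun x => Eul_mem hna hr x
  have hP := fun j => hPhl p K (av j) h (r j) h0 (hr j) (hrp j)
  have hhA : h ∈ OS av := fun v hv _ hvj => (hh v hv hvj).le
  have hhiA : h⁻¹ ∈ OS av := fun v hv _ hvj => by
    rw [map_inv₀, hh v hv hvj, inv_one]
  have hPn : ∀ x ∈ Bl av r, ∀ j, av j (Ph p h x) = av j h * av j x := fun x hx j => by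
    have h7 := (hP j).1 (algebraMap K (av j).Completion x) (by
      rw [Eul_norm]
      exact (hm0 x).1 hx j)
    rwa [← Eul_Pmap, Eul_norm, Eul_norm] at h7
  have hA0 : (OS av).toAddSubgroup ⊓ Bl av r' = ⊥ := by
    refine (AddSubgroup.eq_bot_iff_forall _).2 fun f hf => ?_
    exact hA f hf.1 ((hm f).1 hf.2)
  have key := Eul_idx (PhA p h) (AddMonoidHom.mulLeft h) (fun y => ⟨h⁻¹ * y, by
      rw [AddMonoidHom.coe_mulLeft, mul_inv_cancel_left₀ h0]⟩) (OS av).toAddSubgroup (Bl av r)
      (Bl av r') ?_ ?_ ?_ hA0 ?_ ?_ ?_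
  · rw [Eul_s hNa hDen hPhl hav h h0 hhA r r' hr hr' hrp hA0,
      Eul_W hNa hDen hPhl hav h h0 r r' hr hr' hrp] at key
    exact key
  · ext x
    constructor
    · intro hx
      obtain ⟨a, ha, z, hz, haz⟩ := AddSubgroup.mem_sup.1 hx
      have haz : a + z = h * x := haz
      refine AddSubgroup.mem_sup.2 ⟨h⁻¹ * a, (OS av).mul_mem hhiA ha, h⁻¹ * z, ?_, ?_⟩
      · rw [hm0]
        intro j
        rw [map_mul, map_inv₀, inv_mul_le_iff₀ ((av j).pos h0), ← hr']
        exact (hm z).1 hz j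
      · rw [← mul_add, haz, inv_mul_cancel_left₀ h0]
    · intro hx
      obtain ⟨a, ha, z, hz, haz⟩ := AddSubgroup.mem_sup.1 hx
      refine AddSubgroup.mem_sup.2 ⟨h * a, (OS av).mul_mem hhA ha, h * z, ?_, ?_⟩
      · rw [hm]
        intro j
        rw [map_mul, hr']
        exact mul_le_mul_of_nonneg_left ((hm0 z).1 hz j) ((av j).nonneg h)
      · rw [← mul_add, haz]
        rfl
  · exact fun a ha => Eul_PA hhA ha
  · intro b hb
    show Ph p h b ∈ Bl av r'
    rw [hm]
    intro j
    rw [hPn b hb j, hr']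
    exact mul_le_mul_of_nonneg_left ((hm0 b).1 hb j) ((av j).nonneg h)
  · obtain ⟨δ, hδ0, hδ⟩ := Eul_lb r hr
    obtain ⟨X, hX, hXs⟩ := hCoK p K hG J av hav δ hδ0
    have : Finite X := hX
    have hsurj : Function.Surjective
        (fun s : X => (QuotientAddGroup.mk s.1 : K ⧸ ((OS av).toAddSubgroup ⊔ Bl av r))) := by
      intro q
      obtain ⟨x, rfl⟩ := QuotientAddGroup.mk_surjective q
      obtain ⟨s, hs, a, ha, hxa⟩ := hXs x
      refine ⟨⟨s, hs⟩, ?_⟩
      refine QuotientAddGroup.eq.2 (AddSubgroup.mem_sup.2 ⟨a, ha, x - s - a, ?_, by ring⟩)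
      rw [hm0]
      exact fun j => (hxa j).trans (hδ j)
    have := Finite.of_surjective _ hsurj
    exact AddSubgroup.index_ne_zero_of_finite
  · intro x hx v hv _ hvj
    have hx : Ph p h x = 0 := hx
    by_cases hx0 : x = 0
    · rw [hx0, map_zero]
      exact zero_le_one
    · have e : x ^ (p - 1) = h := by
        have : x ^ (p - 1) * x = h * x := by
          rw [← pow_succ, Nat.sub_add_cancel (Fact.out : p.Prime).one_le]
          exact sub_eq_zero.1 hx
        exact mul_right_cancel₀ hx0 this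
      have e2 := hh v hv hvj
      rw [← e, map_pow] at e2
      exact (pow_le_one_iff_of_nonneg (v.nonneg x) hp1).1 e2.le
  · refine (AddSubgroup.eq_bot_iff_forall _).2 fun x hx => ?_
    obtain ⟨j0⟩ := ‹Nonempty J›
    have h8 := hPn x hx.2 j0
    have hx0 : Ph p h x = 0 := hx.1
    rw [hx0, map_zero] at h8
    rcases mul_eq_zero.1 h8.symm with h9 | h9
    · exact absurd ((AbsoluteValue.eq_zero _).1 h9) h0
    · exact (AbsoluteValue.eq_zero _).1 h9

end

/-- **Eul**. -/
theorem tEul (hNa : S_Na) (hCoK : S_CoK) (hFiK : S_FiK) (hDen : S_Den) (hPhl : S_Phl) :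
    S_Eul := by
  intro p _ K _ _ hG J _ _ av hav h h0 hh
  have hna := fun j => hNa p K (av j)
  have hp1 : p - 1 ≠ 0 := by
    have := (Fact.out : p.Prime).two_le
    omega
  have hc : ∀ j, 0 < av j h := fun j => (av j).pos h0
  -- the first radius
  obtain ⟨δ, hδ0, hδ⟩ := Eul_lb (fun j => av j h) hc
  let ρ₀ : ℝ := min 1 (δ / 2)
  have hρ₀ : 0 < ρ₀ := lt_min one_pos (half_pos hδ0)
  have hρ₀1 : ρ₀ ≤ 1 := min_le_left _ _
  have hρ₀2 : ρ₀ ≤ δ / 2 := min_le_right _ _
  have hρ₀p : ∀ j, ρ₀ ^ (p - 1) < av j h := fun j =>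
    calc ρ₀ ^ (p - 1) ≤ ρ₀ := pow_le_of_le_one hρ₀.le hρ₀1 hp1
      _ ≤ δ / 2 := hρ₀2
      _ < δ := half_lt_self hδ0
      _ ≤ av j h := hδ j
  -- the second radius
  obtain ⟨j0⟩ := ‹Nonempty J›
  have hfin := hFiK p K hG J av hav 1
  let X₀ : Set K := {f : K | f ∈ OS av ∧ ∀ j, av j f ≤ 1} \ {0}
  have hX₀ : X₀.Finite := hfin.subset Set.sdiff_subset
  have : Finite X₀ := hX₀
  obtain ⟨δ₁, hδ₁0, hδ₁⟩ := Eul_lb (fun f : X₀ => av j0 f.1) (fun f => (av j0).pos f.2.2)
  let ρ₁ : ℝ := min 1 (δ₁ / 2)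
  have hρ₁ : 0 < ρ₁ := lt_min one_pos (half_pos hδ₁0)
  have hρ₁A : ∀ f ∈ OS av, (∀ j, av j f ≤ ρ₁) → f = 0 := by
    intro f hf hfj
    by_contra hf0
    have h1 := hδ₁ ⟨f, ⟨hf, fun j => (hfj j).trans (min_le_left _ _)⟩, hf0⟩
    have h2 : av j0 f ≤ δ₁ / 2 := (hfj j0).trans (min_le_right _ _)
    have h3 : δ₁ ≤ av j0 f := h1
    linarith
  obtain ⟨δ₂, hδ₂0, hδ₂⟩ := Eul_lb (fun j => ρ₀ * av j h) (fun j => mul_pos hρ₀ (hc j))
  let ρ : ℝ := min ρ₁ δ₂
  have hρ : 0 < ρ := lt_min hρ₁ hδ₂0
  have key : ∀ r' : J → ℝ, (∀ j, 0 < r' j ∧ r' j ≤ ρ) →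
      ((OS av).toAddSubgroup ⊔ (PhA p h).range ⊔ Bl av r').index ≠ 0 ∧
      (PhN p av h).relIndex (ShN p av h) ≠ 0 ∧
      ((OS av).toAddSubgroup ⊔ (PhA p h).range ⊔ Bl av r').index *
          Nat.card {x : K // Ph p h x = 0} =
        (PhN p av h).relIndex (ShN p av h) * ∏ j,
          Nat.card {x : (av j).Completion // Ph p (algebraMap K (av j).Completion h) x = 0} := by
    intro r' hr'
    have : Nonempty J := ⟨j0⟩
    refine Eul_one hNa hCoK hDen hPhl hG hav h h0 hh (fun j => r' j / av j h) r'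
      (fun j => div_pos (hr' j).1 (hc j)) (fun j => ?_) (fun j => ?_) (fun f hf hfj => ?_)
    · rw [mul_div_cancel₀ _ (hc j).ne']
    · have h1 : r' j / av j h ≤ ρ₀ := by
        rw [div_le_iff₀ (hc j)]
        exact ((hr' j).2.trans (min_le_right _ _)).trans (hδ₂ j)
      exact (pow_le_pow_left₀ (div_pos (hr' j).1 (hc j)).le h1 _).trans_lt (hρ₀p j)
    · exact hρ₁A f hf fun j => (hfj j).trans ((hr' j).2.trans (min_le_left _ _))
  refine ⟨Nat.finite_of_card_ne_zero (key (fun _ => ρ) fun _ => ⟨hρ, le_refl _⟩).2.1, ρ, hρ,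
    fun r hr => ⟨Nat.finite_of_card_ne_zero (key r hr).1, (key r hr).2.2⟩⟩

end Pool.Agent.MP72P
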