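import Pool.Agent.Lib.MP_72e2e6_nt.P3.N.Spec

/-!
# MP_72e2e6_nt, theorem T3p, block N: extensions of absolute values, coefficients of minimal
polynomials
-/

namespace Pool.Agent.MP72P

open Polynomial
open Pool.Agent.MP72W (IsPl)

section
variable {K : Type} [Field K] (v : AbsoluteValue K ℝ)

private theorem exn_norm (x : K) : ‖algebraMap K v.Completion x‖ = v x :=
  UniformSpace.Completion.norm_coe (WithAbs.toAbs v x)

private theorem exn_ultra (hna : IsNonarchimedean v) : IsUltrametricDist v.Completion := by
  refine IsUltrametricDist.isUltrametricDist_of_forall_norm_add_le_max_norm fun x y => ?_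
  refine UniformSpace.Completion.induction_on₂ x y ?_ fun a b => ?_
  · exact isClosed_le (by fun_prop) (by fun_prop)
  · rw [← UniformSpace.Completion.coe_add, UniformSpace.Completion.norm_coe,
      UniformSpace.Completion.norm_coe, UniformSpace.Completion.norm_coe]
    exact hna a.ofAbs b.ofAbs

end

section
variable {K L C M : Type} [Field K] [Field L] [Algebra K L]
  [NontriviallyNormedField C] [CompleteSpace C] [IsUltrametricDist C] [Algebra K C]
  [Field M] [Algebra C M] [Algebra K M] [IsScalarTower K C M] [Algebra.IsAlgebraic C M]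

/-- The absolute value given by an embedding. -/
private noncomputable def exn_av (i : L →ₐ[K] M) : AbsoluteValue L ℝ where
  toFun x := spectralMulAlgNorm C M (i x)
  map_mul' x y := by rw [map_mul, map_mul]
  nonneg' x := apply_nonneg _ _
  eq_zero' x := by rw [map_eq_zero_iff_eq_zero, map_eq_zero]
  add_le' x y := by
    rw [map_add]
    exact map_add_le_add _ _ _

private theorem exn_ext (u : AbsoluteValue K ℝ) (hu : ∀ x, ‖algebraMap K C x‖ = u x)
    (i : L →ₐ[K] M) : rsa K (exn_av (C := C) i) = u := by
  ext x
  change spectralMulAlgNorm C M (i (algebraMap K L x)) = u x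
  rw [i.commutes, IsScalarTower.algebraMap_apply K C M, spectralMulAlgNorm_def,
    spectralNorm_extends, hu]

private theorem exn_prod (B : ℝ) (t : Multiset M) :
    (∀ z ∈ t, spectralMulAlgNorm C M z ≤ B) →
      spectralMulAlgNorm C M t.prod ≤ B ^ Multiset.card t := by
  refine Multiset.induction_on t (fun _ => ?_) fun a s ih h => ?_
  · rw [Multiset.prod_zero, map_one, Multiset.card_zero, pow_zero]
  · rw [Multiset.prod_cons, map_mul, Multiset.card_cons, pow_succ']
    have h1 := h a (Multiset.mem_cons_self a s)
    exact mul_le_mul h1 (ih fun z hz => h z (Multiset.mem_cons_of_mem hz)) (apply_nonneg _ _)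
      ((apply_nonneg _ _).trans h1)

private theorem exn_coeff (P : M[X]) (hP : P.Monic) (hs : P.Splits) (B : ℝ)
    (h : ∀ z ∈ P.roots, spectralMulAlgNorm C M z ≤ B) (i : ℕ) (hi : i ≤ P.natDegree) :
    spectralMulAlgNorm C M (P.coeff i) ≤ B ^ (P.natDegree - i) := by
  have hcard : Multiset.card P.roots = P.natDegree := splits_iff_card_roots.1 hs
  have hna : IsNonarchimedean (spectralMulAlgNorm C M) :=
    isNonarchimedean_spectralNorm (K := C) (L := M)
  rw [Polynomial.coeff_eq_esymm_roots_of_card hcard hi, hP.leadingCoeff, one_mul, map_mul,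
    map_pow, map_neg_eq_map, map_one, one_pow, one_mul, Multiset.esymm, ← hcard]
  obtain ⟨t, ht, htr, hle⟩ := hna.multiset_powerset_image_add P.roots i
  refine hle.trans ?_
  rw [← ht]
  exact exn_prod (C := C) B t fun z hz => h z (htr z hz)

private theorem exn_core [FiniteDimensional K L] [IsAlgClosed M]
    (u : AbsoluteValue K ℝ) (hu : ∀ x, ‖algebraMap K C x‖ = u x) :
    (∃ v : AbsoluteValue L ℝ, rsa K v = u) ∧
    ∀ (f : L) (B : ℝ), 0 < B → (∀ v : AbsoluteValue L ℝ, rsa K v = u → v f ≤ B) →
      ∀ i ≤ (minpoly K f).natDegree,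
        u ((minpoly K f).coeff i) ≤ B ^ ((minpoly K f).natDegree - i) := by
  refine ⟨⟨_, exn_ext (C := C) u hu (IsAlgClosed.lift (M := M))⟩, fun f B hB hf i hi => ?_⟩
  have hint : IsIntegral K f := Algebra.IsIntegral.isIntegral f
  have hmon : ((minpoly K f).map (algebraMap K M)).Monic := (minpoly.monic hint).map _
  have hroots : ∀ z ∈ ((minpoly K f).map (algebraMap K M)).roots,
      spectralMulAlgNorm C M z ≤ B := by
    intro z hz
    have hz0 : aeval z (minpoly K f) = 0 := by
      have h1 := (mem_roots'.1 hz).2
      rwa [IsRoot.def, eval_map_algebraMap] at h1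
    obtain ⟨φ, hφ⟩ := IntermediateField.exists_algHom_of_splits_of_aeval (F := K) (E := L) (K := M)
      (fun x => ⟨Algebra.IsIntegral.isIntegral x, IsAlgClosed.splits _⟩) hz0
    have h2 := hf (exn_av (C := C) φ) (exn_ext (C := C) u hu φ)
    change spectralMulAlgNorm C M (φ f) ≤ B at h2
    rwa [hφ] at h2
  have h3 := exn_coeff (C := C) ((minpoly K f).map (algebraMap K M)) hmon (IsAlgClosed.splits _) B
    hroots i (by rwa [natDegree_map])
  rw [natDegree_map, coeff_map, IsScalarTower.algebraMap_apply K C M, spectralMulAlgNorm_def,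
    spectralNorm_extends, hu] at h3
  exact h3

end

/-- **Exn**. Extensions of absolute values and the coefficients of the minimal polynomial. -/
theorem tExn (na : S_Na) : S_Exn := by
  intro p _ K L _ _ _ _ _ u hu
  have hul : IsUltrametricDist u.Completion := exn_ultra u (na p K u)
  have hnt : ∃ x : u.Completion, 1 < ‖x‖ := by
    obtain ⟨x, hx⟩ := hu.exists_abv_gt_one
    exact ⟨algebraMap K u.Completion x, by rwa [exn_norm]⟩
  let _ : NontriviallyNormedField u.Completion :=
    { (inferInstance : NormedField u.Completion) with non_trivial := hnt }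
  exact exn_core (C := u.Completion) (M := AlgebraicClosure u.Completion) u (exn_norm u)

end Pool.Agent.MP72P
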