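import Pool.Agent.Lib.MP_72e2e6_nt.P3.N.Spec

/-!
# MP_72e2e6_nt, theorem T3p, block N, FiK: discreteness
-/

namespace Pool.Agent.MP72P

open Polynomial
open Pool.Agent.MP72W (IsPl)

private theorem fik_eqv {K L : Type} [Field K] [Field L] [Algebra K L] {v w : AbsoluteValue L ℝ}
    (h : v.IsEquiv w) : (rsa K v).IsEquiv (rsa K w) := fun _ _ => h _ _

private theorem fik_ntr {K L : Type} [Field K] [Field L] [Algebra K L] {v : AbsoluteValue L ℝ}
    (h : (rsa K v).IsNontrivial) : v.IsNontrivial := by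
  obtain ⟨x, hx, h1⟩ := h
  exact ⟨algebraMap K L x, (_root_.map_ne_zero _).2 hx, h1⟩

private theorem fik_pow {K L : Type} [Field K] [Field L] [Algebra K L]
    {v w : AbsoluteValue L ℝ} {u : AbsoluteValue K ℝ} {c : ℝ} (hvw : w.IsEquiv v)
    (hv : rsa K v = u) (hu : u.IsNontrivial) (hw : ∀ x, (rsa K w x) ^ c = u x) (f : L) :
    v f = w f ^ c := by
  obtain ⟨c', hc', h1⟩ := AbsoluteValue.isEquiv_iff_exists_rpow_eq.1 hvw
  obtain ⟨x, hx, h2⟩ := hu
  have h3 : rsa K w x ^ c' = u x := by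
    rw [← hv]
    exact congrFun h1 (algebraMap K L x)
  have h4 : rsa K w x ^ c' = rsa K w x ^ c := h3.trans (hw x).symm
  have h5 : 0 < rsa K w x := (rsa K w).pos hx
  have h6 : rsa K w x ≠ 1 := fun h => h2 (by rw [← hw x, h, Real.one_rpow])
  have h7 : c' = c := by
    have h8 := congrArg Real.log h4
    rw [Real.log_rpow h5, Real.log_rpow h5] at h8
    exact mul_right_cancel₀ (Real.log_ne_zero_of_pos_of_ne_one h5 h6) h8
  rw [← h7]
  exact (congrFun h1 f).symm

theorem tFiK : S_Na → S_Rt → S_Fi0 → S_Ntr → S_Exn → S_FiK := by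
  intro hNa hRt hFi0 hNtr hExn p _ K _ _ hG J _ av hav B
  classical
  obtain ⟨F, _, _, _, _, _, _⟩ := hG
  have : CharP (RatFunc F) p :=
    charP_of_injective_algebraMap (algebraMap F (RatFunc F)).injective p
  have := Fintype.ofFinite J
  obtain ⟨hR1, hR2, hR3⟩ := hRt F
  have hj : ∀ j, ∃ (w : Option F[X]) (u : AbsoluteValue (RatFunc F) ℝ), IsPl w u ∧
      (rsa (RatFunc F) (av j)).IsEquiv u :=
    fun j => hR1 _ (hNtr p (RatFunc F) K (av j) (hav.ntr j))
  choose w u hwu heq using hj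
  have hc : ∀ j, ∃ c : ℝ, 0 < c ∧ ∀ x, (rsa (RatFunc F) (av j) x) ^ c = u j x := fun j => by
    obtain ⟨c, hc, h⟩ := AbsoluteValue.isEquiv_iff_exists_rpow_eq.1 (heq j)
    exact ⟨c, hc, fun x => congrFun h x⟩
  choose c hc0 hc using hc
  have hM : (1 : ℝ) ≤ max B 1 := le_max_right _ _
  have hM0 : (0 : ℝ) ≤ max B 1 := zero_le_one.trans hM
  obtain ⟨B₁, hB1, hBj⟩ : ∃ B₁ : ℝ, 1 ≤ B₁ ∧ ∀ j, (max B 1) ^ c j ≤ B₁ := by
    refine ⟨1 + ∑ j, (max B 1) ^ c j, ?_, fun j => ?_⟩
    · have : 0 ≤ ∑ j, (max B 1) ^ c j := Finset.sum_nonneg fun j _ => Real.rpow_nonneg hM0 _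
      linarith
    · have := Finset.single_le_sum (f := fun j => (max B 1) ^ c j)
        (fun j _ => Real.rpow_nonneg hM0 _) (Finset.mem_univ j)
      linarith
  have hnt := (MP72W.tAv F).2.2
  have key : ∀ (w' : Option F[X]) (u' : AbsoluteValue (RatFunc F) ℝ), IsPl w' u' →
      ∀ f : K, f ∈ OS av → (∀ j, av j f ≤ B) → ∀ v : AbsoluteValue K ℝ, rsa (RatFunc F) v = u' →
      v f ≤ B₁ ∧ (w' ∉ Finset.univ.image w → v f ≤ 1) := by
    intro w' u' hP f hf hfB v hv
    have hu' : u'.IsNontrivial := hnt w' u' hP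
    by_cases h : ∃ j, v.IsEquiv (av j)
    · obtain ⟨j, hj⟩ := h
      have h1 : u'.IsEquiv (u j) := by
        rw [← hv]
        exact (fik_eqv hj).trans (heq j)
      have h2 : w' = w j := hR3 _ _ _ _ hP (hwu j) h1
      have h3 : u' = u j := hR2 w' _ _ hP (h2 ▸ hwu j)
      refine ⟨?_, fun h => absurd (Finset.mem_image.2 ⟨j, Finset.mem_univ _, h2.symm⟩) h⟩
      rw [fik_pow hj.symm hv hu' (fun x => by rw [hc j, h3]) f]
      exact (Real.rpow_le_rpow ((av j).nonneg f) ((hfB j).trans (le_max_left _ _))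
        (hc0 j).le).trans (hBj j)
    · have h1 : v f ≤ 1 := hf v (fik_ntr (K := RatFunc F) (by rw [hv]; exact hu')) (hNa p K v)
        (fun j hj => h ⟨j, hj⟩)
      exact ⟨h1.trans hB1, fun _ => h1⟩
  have hfin := hFi0 F (Finset.univ.image w) (B₁ ^ Module.finrank (RatFunc F) K)
    (one_le_pow₀ hB1)
  refine (Polynomial.bUnion_roots_finite (algebraMap (RatFunc F) K)
    (Module.finrank (RatFunc F) K) hfin).subset ?_
  rintro f ⟨hf, hfB⟩
  have hint : IsIntegral (RatFunc F) f := Algebra.IsIntegral.isIntegral f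
  have hdeg : (minpoly (RatFunc F) f).natDegree ≤ Module.finrank (RatFunc F) K :=
    minpoly.natDegree_le f
  simp only [Set.mem_iUnion]
  refine ⟨minpoly (RatFunc F) f, ⟨hdeg, fun i => ?_⟩, ?_⟩
  · intro w' u' hP
    rcases le_or_gt i (minpoly (RatFunc F) f).natDegree with hi | hi
    · have h1 := (hExn p (RatFunc F) K u' (hnt w' u' hP)).2 f
      constructor
      · refine (h1 B₁ (zero_lt_one.trans_le hB1)
          (fun v hv => (key w' u' hP f hf hfB v hv).1) i hi).trans ?_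
        exact pow_le_pow_right₀ hB1 ((Nat.sub_le _ _).trans hdeg)
      · intro hw'
        have h2 := h1 1 zero_lt_one (fun v hv => (key w' u' hP f hf hfB v hv).2 hw') i hi
        rwa [one_pow] at h2
    · rw [coeff_eq_zero_of_natDegree_lt hi, map_zero]
      exact ⟨pow_nonneg (zero_le_one.trans hB1) _, fun _ => zero_le_one⟩
  · rw [Finset.mem_coe, Multiset.mem_toFinset, mem_roots
      (Polynomial.map_ne_zero (minpoly.ne_zero hint)), IsRoot.def, eval_map_algebraMap,
      minpoly.aeval]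

end Pool.Agent.MP72P
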