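import Pool.Agent.Lib.MP_72e2e6_nt.P3.N.Spec

/-!
# MP_72e2e6_nt, theorem T3p, block N: `K` is the field of fractions of `A`, `A` is integrally closed
-/

namespace Pool.Agent.MP72P

open Polynomial
open Pool.Agent.MP72W (IsPl)

private theorem frc_den {p : ℕ} [Fact p.Prime] {K : Type} [Field K] [CharP K p] (hK : GFld p K)
    (na : S_Na) (sml : S_Sml) (alm : S_Alm) {J : Type} [Finite J] [Nonempty J]
    (av : J → AbsoluteValue K ℝ) (hav : Pls av) (x : K) : ∃ a ∈ OS av, a ≠ 0 ∧ a * x ∈ OS av := by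
  classical
  rcases eq_or_ne x 0 with rfl | hx
  · exact ⟨1, one_mem _, one_ne_zero, by rw [mul_zero]; exact zero_mem _⟩
  obtain ⟨m, av₁, hav₁, h1⟩ := alm p K hK x hx
  -- the combined family
  let av₂ : J ⊕ {k : Fin m // ∀ j, ¬ (av₁ k).IsEquiv (av j)} → AbsoluteValue K ℝ :=
    Sum.elim av fun k => av₁ k.1
  have hav₂ : Pls av₂ := by
    constructor
    · rintro (j | k)
      · exact hav.ntr j
      · exact hav₁.ntr k.1
    · rintro (j | k) (j' | k') hne h
      · exact hav.inq j j' (fun h => hne (by rw [h])) h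
      · exact k'.2 j h.symm
      · exact k.2 j' h
      · exact hav₁.inq k.1 k'.1 (fun h => hne (by rw [Subtype.ext h])) h
  have hft : Fintype J := Fintype.ofFinite J
  obtain ⟨j0⟩ := (inferInstance : Nonempty J)
  -- a lower bound
  obtain ⟨ε, hε, hε1, hεx⟩ : ∃ ε : ℝ, 0 < ε ∧ ε ≤ 1 ∧ ∀ k : Fin m, ε * av₁ k x ≤ 1 := by
    have h2 : ∀ k : Fin m, 0 < (av₁ k x)⁻¹ := fun k => inv_pos.2 ((av₁ k).pos hx)
    have h3 : ∃ M : ℝ, ∀ k : Fin m, av₁ k x ≤ M := by
      obtain ⟨M, hM⟩ := (Set.finite_range fun k : Fin m => av₁ k x).bddAbove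
      exact ⟨M, fun k => hM ⟨k, rfl⟩⟩
    obtain ⟨M, hM⟩ := h3
    refine ⟨(max M 1)⁻¹, inv_pos.2 (lt_max_of_lt_right one_pos),
      inv_le_one_of_one_le₀ (le_max_right _ _), fun k => ?_⟩
    rw [inv_mul_le_iff₀ (lt_max_of_lt_right one_pos), mul_one]
    exact (hM k).trans (le_max_left _ _)
  obtain ⟨a, ha, ha0, haj⟩ := sml p K hK _ av₂ hav₂ (Sum.inl j0) ε 0 hε
  have ha0' : a ≠ 0 := by
    rintro rfl
    rw [map_zero] at ha0
    exact lt_irrefl _ ha0
  -- the values outside `av`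
  have hkey : ∀ v : AbsoluteValue K ℝ, v.IsNontrivial → (∀ j, ¬ v.IsEquiv (av j)) →
      v a ≤ 1 ∧ v (a * x) ≤ 1 := by
    intro v hv hvj
    by_cases hk : ∃ k, v.IsEquiv (av₁ k)
    · obtain ⟨k, hk⟩ := hk
      have hk2 : ∀ j, ¬ (av₁ k).IsEquiv (av j) := fun j h => hvj j (hk.trans h)
      have h4 : av₁ k a < ε := haj (Sum.inr ⟨k, hk2⟩) (by simp)
      refine ⟨hk.le_one_iff.2 (h4.le.trans hε1), hk.le_one_iff.2 ?_⟩
      rw [map_mul]
      exact (mul_le_mul_of_nonneg_right h4.le ((av₁ k).nonneg _)).trans (hεx k)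
    · have hk' : ∀ k, ¬ v.IsEquiv (av₁ k) := fun k h => hk ⟨k, h⟩
      have h5 : v x = 1 := h1 v hv hk'
      have h6 : v a ≤ 1 := by
        refine ha v hv (na p K v) ?_
        rintro (j | k)
        · exact hvj j
        · exact hk' k.1
      refine ⟨h6, ?_⟩
      rw [map_mul, h5, mul_one]
      exact h6
  exact ⟨a, fun v hv _ hvj => (hkey v hv hvj).1, ha0', fun v hv _ hvj => (hkey v hv hvj).2⟩

private theorem frc_int {p : ℕ} [Fact p.Prime] {K : Type} [Field K] [CharP K p]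
    (na : S_Na) {J : Type} (av : J → AbsoluteValue K ℝ) (f : K) (hf : IsIntegral (OS av) f) :
    f ∈ OS av := by
  classical
  intro v hv _ hvj
  by_contra hlt
  rw [not_le] at hlt
  obtain ⟨P, hP, hPf⟩ := hf
  have hna := na p K v
  have hP' : aeval f P = 0 := hPf
  rw [Polynomial.aeval_eq_sum_range, Finset.sum_range_succ] at hP'
  have hlead : P.coeff P.natDegree = 1 := hP
  rw [hlead, one_smul] at hP'
  have h1 : f ^ P.natDegree = -∑ i ∈ Finset.range P.natDegree, P.coeff i • f ^ i :=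
    eq_neg_of_add_eq_zero_right hP'
  rcases Nat.eq_zero_or_pos P.natDegree with h0 | h0
  · rw [h0, Finset.range_zero, Finset.sum_empty, neg_zero, pow_zero] at h1
    exact one_ne_zero h1
  have h2 : v (∑ i ∈ Finset.range P.natDegree, P.coeff i • f ^ i) ≤ v f ^ (P.natDegree - 1) := by
    obtain ⟨i, hi, hle⟩ := IsNonarchimedean.finset_image_add_of_nonempty hna
      (fun i => P.coeff i • f ^ i) (t := Finset.range P.natDegree)
      ⟨0, Finset.mem_range.2 h0⟩
    refine hle.trans ?_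
    have hi' := Finset.mem_range.1 hi
    rw [Subring.smul_def, smul_eq_mul, map_mul, map_pow]
    have h3 : v ((P.coeff i : OS av) : K) ≤ 1 := (P.coeff i).2 v hv hna hvj
    calc v ((P.coeff i : OS av) : K) * v f ^ i ≤ 1 * v f ^ i :=
          mul_le_mul_of_nonneg_right h3 (by positivity)
      _ = v f ^ i := one_mul _
      _ ≤ v f ^ (P.natDegree - 1) := pow_le_pow_right₀ hlt.le (by omega)
  have h4 : v f ^ P.natDegree ≤ v f ^ (P.natDegree - 1) := by
    rw [← map_pow, h1, AbsoluteValue.map_neg]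
    exact h2
  have h5 : v f ^ (P.natDegree - 1) < v f ^ P.natDegree :=
    pow_lt_pow_right₀ hlt (by omega)
  exact absurd h4 (not_le.2 h5)

/-- **Frc**. `K` is the field of fractions of `A`, `A` is integrally closed. -/
theorem tFrc (na : S_Na) (sml : S_Sml) (alm : S_Alm) : S_Frc := by
  intro p _ K _ _ hK J _ _ av hav
  have h1 := frc_den hK na sml alm av hav
  have hfr : IsFractionRing (OS av) K := by
    refine ⟨?_, ?_, ?_⟩
    · intro y
      refine IsUnit.mk0 _ ?_
      intro h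
      have h2 : (y : OS av) = 0 := Subtype.ext h
      exact nonZeroDivisors.ne_zero y.2 h2
    · intro z
      obtain ⟨a, ha, ha0, hax⟩ := h1 z
      refine ⟨(⟨a * z, hax⟩, ⟨⟨a, ha⟩, mem_nonZeroDivisors_of_ne_zero ?_⟩), ?_⟩
      · intro h
        exact ha0 (congrArg Subtype.val h)
      · exact mul_comm z a
    · intro x y hxy
      refine ⟨1, ?_⟩
      rw [show x = y from Subtype.ext hxy]
  have h2 : ∀ f : K, IsIntegral (OS av) f → f ∈ OS av := fun f hf => frc_int (p := p) na av f hf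
  refine ⟨h1, hfr, h2, ?_⟩
  rw [isIntegrallyClosed_iff K]
  intro x hx
  exact ⟨⟨x, h2 x hx⟩, rfl⟩

end Pool.Agent.MP72P
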