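import Pool.Agent.Lib.MP_72e2e6_nt.P3.N.Spec

/-!
# MP_72e2e6_nt, theorem T3p, block N: absolute values in characteristic `p` are nonarchimedean
-/

set_option autoImplicit false

namespace Pool.Agent.MP72P

theorem tNa : S_Na := by
  intro p _ K _ _ v
  have hp : 1 < p := (Fact.out : p.Prime).one_lt
  have hn : ∀ n : ℕ, v (n : K) ≤ 1 := by
    intro n
    have h1 : ((n : ZMod p)) ^ p = n := ZMod.pow_card _
    have h2 : ((n : K)) ^ p = n := by
      have h3 := congrArg (ZMod.castHom dvd_rfl K) h1
      rw [map_pow, map_natCast] at h3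
      exact h3
    have h4 : v (n : K) ^ p = v (n : K) := by rw [← map_pow, h2]
    by_contra hc
    push Not at hc
    have h5 : v (n : K) ^ 1 < v (n : K) ^ p := pow_lt_pow_right₀ hc hp
    rw [pow_one, h4] at h5
    exact lt_irrefl _ h5
  have h : IsUltrametricDist (WithAbs v) :=
    IsUltrametricDist.isUltrametricDist_of_forall_norm_natCast_le_one fun n => hn n
  intro x y
  exact IsUltrametricDist.norm_add_le_max (WithAbs.toAbs v x) (WithAbs.toAbs v y)

end Pool.Agent.MP72P
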