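import Pool.Agent.Lib.MP_72e2e6_nt.P3.N.Spec

/-!
# MP_72e2e6_nt, theorem T3p, block N: restrictions of nontrivial absolute values
-/

namespace Pool.Agent.MP72P

open Polynomial
open Pool.Agent.MP72W (IsPl)

private theorem ntr_int {K L : Type} [Field K] [Field L] [Algebra K L] (v : AbsoluteValue L ℝ)
    (na : IsNonarchimedean v) (hK : ∀ c : K, v (algebraMap K L c) ≤ 1) (x : L)
    (hx : IsIntegral K x) : v x ≤ 1 := by
  obtain ⟨f, hf, hfx⟩ := hx
  by_contra hlt
  push Not at hlt
  rw [eval₂_eq_sum_range, Finset.sum_range_succ, Polynomial.Monic.coeff_natDegree hf, map_one,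
    one_mul] at hfx
  have h1 : x ^ f.natDegree =
      -∑ i ∈ Finset.range f.natDegree, algebraMap K L (f.coeff i) * x ^ i :=
    eq_neg_of_add_eq_zero_right hfx
  rcases Nat.eq_zero_or_pos f.natDegree with h0 | h0
  · rw [h0] at h1
    simp at h1
  · have hne : (Finset.range f.natDegree).Nonempty := Finset.nonempty_range_iff.2 h0.ne'
    have h2 : v (x ^ f.natDegree) ≤ v x ^ (f.natDegree - 1) := by
      rw [h1, AbsoluteValue.map_neg]
      refine (na.apply_sum_le_sup hne).trans (Finset.sup'_le hne _ fun i hi => ?_)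
      rw [map_mul, map_pow]
      have h3 : i ≤ f.natDegree - 1 := by
        have := Finset.mem_range.1 hi
        omega
      calc v (algebraMap K L (f.coeff i)) * v x ^ i ≤ 1 * v x ^ i :=
            mul_le_mul_of_nonneg_right (hK _) (pow_nonneg (v.nonneg _) _)
        _ = v x ^ i := one_mul _
        _ ≤ v x ^ (f.natDegree - 1) := pow_le_pow_right₀ hlt.le h3
    rw [map_pow] at h2
    exact absurd h2 (not_le.2 (pow_lt_pow_right₀ hlt (by omega)))

/-- **Ntr**. The restriction of a nontrivial absolute value is nontrivial. -/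
theorem tNtr (na : S_Na) : S_Ntr := by
  intro p _ K L _ _ _ _ _ v hv
  have hL : CharP L p := charP_of_injective_algebraMap (algebraMap K L).injective p
  by_contra hK
  have htriv : ∀ c : K, v (algebraMap K L c) ≤ 1 := by
    intro c
    by_cases hc : c = 0
    · rw [hc, map_zero, map_zero]
      exact zero_le_one
    · by_contra h
      exact hK ⟨c, hc, fun h1 => h (le_of_eq h1)⟩
  obtain ⟨x, hx⟩ := hv.exists_abv_gt_one
  exact absurd (ntr_int v (na p L v) htriv x (Algebra.IsIntegral.isIntegral x)) (not_le.2 hx)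

end Pool.Agent.MP72P
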