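import Pool.Agent.Lib.MP_72e2e6_nt.P3.N.Spec

/-!
# MP_72e2e6_nt, theorem T3p, block N: the map `x ↦ x ^ p - h x` on small balls
-/

namespace Pool.Agent.MP72P

open Polynomial

section
variable {K : Type} [Field K] (v : AbsoluteValue K ℝ)

private theorem phl_norm (x : K) : ‖algebraMap K v.Completion x‖ = v x :=
  UniformSpace.Completion.norm_coe (WithAbs.toAbs v x)

private theorem phl_ultra (hna : IsNonarchimedean v) : IsUltrametricDist v.Completion := by
  refine IsUltrametricDist.isUltrametricDist_of_forall_norm_add_le_max_norm fun x y => ?_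
  refine UniformSpace.Completion.induction_on₂ x y ?_ fun a b => ?_
  · exact isClosed_le (by fun_prop) (by fun_prop)
  · rw [← UniformSpace.Completion.coe_add, UniformSpace.Completion.norm_coe,
      UniformSpace.Completion.norm_coe, UniformSpace.Completion.norm_coe]
    exact hna a.ofAbs b.ofAbs

end

section
variable {L : Type} [NormedField L] [IsUltrametricDist L] {p : ℕ} [Fact p.Prime] [CharP L p]

omit [IsUltrametricDist L] in
private theorem phl_cont : Continuous (iterateFrobenius L p 1) := by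
  have : (iterateFrobenius L p 1 : L → L) = fun x => x ^ (p ^ 1) := by
    funext x
    exact iterateFrobenius_def _ _ _
  rw [this]
  fun_prop

/-- The terms of the solution of `w = w ^ p / h + z`. -/
private def phlT (p : ℕ) (h z : L) : ℕ → L
  | 0 => z
  | i + 1 => (phlT p h z i) ^ p / h

omit [CharP L p] in
private theorem phl_size (h : L) (ρ : ℝ) (hρ : ρ ^ (p - 1) < ‖h‖) (x : L) (hx : ‖x‖ ≤ ρ) :
    ‖Ph p h x‖ = ‖h‖ * ‖x‖ := by
  have hp : p.Prime := Fact.out
  by_cases hx0 : x = 0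
  · rw [hx0, Ph, zero_pow hp.ne_zero, mul_zero, sub_zero, norm_zero, mul_zero]
  · have hx1 : 0 < ‖x‖ := norm_pos_iff.2 hx0
    have h1 : ‖x ^ p‖ < ‖h * x‖ := by
      rw [norm_pow, norm_mul]
      have h2 : ‖x‖ ^ p = ‖x‖ ^ (p - 1) * ‖x‖ := by
        rw [← pow_succ, Nat.sub_add_cancel hp.one_le]
      rw [h2]
      apply mul_lt_mul_of_pos_right _ hx1
      exact (pow_le_pow_left₀ (norm_nonneg _) hx _).trans_lt hρ
    have h3 : Ph p h x = x ^ p + -(h * x) := by rw [Ph]; ring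
    rw [h3, IsUltrametricDist.norm_add_eq_max_of_norm_ne_norm, norm_neg, max_eq_right h1.le,
      norm_mul]
    rw [norm_neg]
    exact h1.ne

/-- Solution of `w ^ p - h w = x`. -/
private theorem phl_ex [CompleteSpace L] (h : L) (ρ : ℝ) (hρ0 : 0 < ρ) (hρ : ρ ^ (p - 1) < ‖h‖)
    (x : L) (hx : ‖x‖ ≤ ‖h‖ * ρ) : ∃ w : L, ‖w‖ ≤ ρ ∧ Ph p h w = x := by
  have hp : p.Prime := Fact.out
  have hh0 : 0 < ‖h‖ := (pow_pos hρ0 _).trans hρ
  have hh : h ≠ 0 := norm_pos_iff.1 hh0
  obtain ⟨θ, hθ⟩ : ∃ θ : ℝ, θ = ρ ^ (p - 1) / ‖h‖ := ⟨_, rfl⟩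
  have hθ0 : 0 ≤ θ := by rw [hθ]; exact div_nonneg (pow_pos hρ0 _).le hh0.le
  have hθ1 : θ < 1 := by rw [hθ, div_lt_one hh0]; exact hρ
  obtain ⟨z, hz⟩ : ∃ z : L, z = -x / h := ⟨_, rfl⟩
  have hzn : ‖z‖ ≤ ρ := by
    rw [hz, norm_div, norm_neg, div_le_iff₀ hh0, mul_comm]
    exact hx
  have hstep : ∀ y : L, ‖y‖ ≤ ρ → ‖y ^ p / h‖ ≤ ‖y‖ * θ := by
    intro y hy
    have h1 : ‖y‖ ^ (p - 1) ≤ ρ ^ (p - 1) := pow_le_pow_left₀ (norm_nonneg _) hy _
    have h2 : ‖y ^ p / h‖ = ‖y‖ * (‖y‖ ^ (p - 1) / ‖h‖) := by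
      rw [norm_div, norm_pow, ← mul_div_assoc, ← pow_succ', Nat.sub_add_cancel hp.one_le]
    rw [h2, hθ]
    refine mul_le_mul_of_nonneg_left ?_ (norm_nonneg _)
    exact div_le_div_of_nonneg_right h1 hh0.le
  have hle : ∀ i, ρ * θ ^ i ≤ ρ := fun i =>
    mul_le_of_le_one_right hρ0.le (pow_le_one₀ hθ0 hθ1.le)
  have hT : ∀ i, ‖phlT p h z i‖ ≤ ρ * θ ^ i := by
    intro i
    induction i with
    | zero => rw [phlT, pow_zero, mul_one]; exact hzn
    | succ i ih =>
      have h1 : ‖phlT p h z i‖ ≤ ρ := ih.trans (hle i)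
      have h2 := hstep _ h1
      rw [phlT, pow_succ, ← mul_assoc]
      exact h2.trans (mul_le_mul_of_nonneg_right ih hθ0)
  have hs : Summable (phlT p h z) := by
    refine Summable.of_norm_bounded (g := fun i => ρ * θ ^ i) ?_ hT
    exact (summable_geometric_of_lt_one hθ0 hθ1).mul_left _
  obtain ⟨w, hw⟩ : ∃ w, w = ∑' i, phlT p h z i := ⟨_, rfl⟩
  have hwz : ‖w‖ ≤ ρ := by
    rw [hw]
    exact IsUltrametricDist.norm_tsum_le_of_forall_le_of_nonneg hρ0.le
      fun i => (hT i).trans (hle i)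
  have he : w = z + w ^ p / h := by
    have h1 := hs.map_tsum (iterateFrobenius L p 1) phl_cont
    rw [iterateFrobenius_def, pow_one, ← hw] at h1
    rw [h1, ← tsum_div_const]
    conv_lhs => rw [hw, hs.tsum_eq_zero_add]
    congr 1
    refine tsum_congr fun i => ?_
    rw [iterateFrobenius_def, pow_one, phlT]
  refine ⟨w, hwz, ?_⟩
  have h1 : w ^ p / h * h = w ^ p := div_mul_cancel₀ _ hh
  have h2 : z * h = -x := by rw [hz, div_mul_cancel₀ _ hh]
  rw [Ph]
  linear_combination (-h) * he - h1 + (-1 : L) * h2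

omit [IsUltrametricDist L] in
private theorem phl_sub (h x y : L) : Ph p h x - Ph p h y = Ph p h (x - y) := by
  rw [Ph, Ph, Ph, sub_pow_char]
  ring

omit [IsUltrametricDist L] [CharP L p] in
private theorem phl_fin (h : L) : Finite {y : L // Ph p h y = 0} := by
  have hp : p.Prime := Fact.out
  have hP : (X ^ p - C h * X : L[X]) ≠ 0 := by
    intro h0
    have h1 : (X ^ p - C h * X : L[X]).coeff p = 0 := by rw [h0, coeff_zero]
    rw [coeff_sub, coeff_X_pow_self, coeff_C_mul, coeff_X_of_ne_one hp.one_lt.ne', mul_zero,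
      sub_zero] at h1
    exact one_ne_zero h1
  have h2 := Polynomial.finite_setOf_isRoot hP
  refine Set.Finite.to_subtype (h2.subset ?_)
  intro y hy
  have hy' : Ph p h y = 0 := hy
  change IsRoot _ y
  rw [IsRoot.def, eval_sub, eval_pow, eval_X, eval_mul, eval_C, eval_X]
  exact hy'

end

/-- **Phl**. -/
theorem tPhl : S_Na → S_Phl := by
  intro hNa p _ K _ _ v h ρ hh hρ0 hρ
  have := phl_ultra v (hNa p K v)
  have := charP_of_injective_algebraMap (algebraMap K v.Completion).injective p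
  have hn : ‖algebraMap K v.Completion h‖ = v h := phl_norm v h
  have hρ' : ρ ^ (p - 1) < ‖algebraMap K v.Completion h‖ := by rw [hn]; exact hρ
  have hv : 0 < v h := v.pos hh
  have key : ∀ x : v.Completion, ‖x‖ ≤ ρ →
      ‖Ph p (algebraMap K v.Completion h) x‖ = v h * ‖x‖ := by
    intro x hx
    rw [← hn]
    exact phl_size _ ρ hρ' x hx
  have hzero : ∀ y : v.Completion, Ph p (algebraMap K v.Completion h) y = 0 → ‖y‖ ≤ ρ → y = 0 := by
    intro y hy hy1
    have h1 := key y hy1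
    rw [hy, norm_zero] at h1
    rcases mul_eq_zero.1 h1.symm with h2 | h2
    · exact absurd h2 hv.ne'
    · exact norm_eq_zero.1 h2
  refine ⟨key, ?_, hzero, phl_fin _⟩
  intro z hz
  rw [← hn] at hz
  obtain ⟨w, hw1, hw2⟩ := phl_ex _ ρ hρ0 hρ' z hz
  refine ⟨w, ⟨hw1, hw2⟩, ?_⟩
  rintro y ⟨hy1, hy2⟩
  have h1 : Ph p (algebraMap K v.Completion h) (y - w) = 0 := by
    rw [← phl_sub, hy2, hw2, sub_self]
  have h2 : ‖y - w‖ ≤ ρ := by
    rw [sub_eq_add_neg]
    refine (IsUltrametricDist.norm_add_le_max _ _).trans ?_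
    rw [norm_neg]
    exact max_le hy1 hw1
  exact sub_eq_zero.1 (hzero _ h1 h2)

end Pool.Agent.MP72P
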