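import Pool.Agent.Lib.MP_72e2e6_nt.P3.N.Spec

/-!
# MP_72e2e6_nt, theorem T3p, block N: Ostrowski's theorem for `F(t)`
-/

set_option autoImplicit false

namespace Pool.Agent.MP72P

open Polynomial
open Pool.Agent.MP72W (IsPl tAv)

section

variable {F : Type} [Field F]

private theorem rt_ne {g : F[X]} (hg : g ≠ 0) : algebraMap F[X] (RatFunc F) g ≠ 0 := by
  rwa [Ne, FaithfulSMul.algebraMap_eq_zero_iff]

private theorem rt_dvd {P : F[X]} {v : AbsoluteValue (RatFunc F) ℝ} (h : IsPl (some P) v)
    {g : F[X]} : v (algebraMap F[X] (RatFunc F) g) < 1 ↔ P ∣ g := by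
  by_cases hg : g = 0
  · rw [hg, map_zero, map_zero]
    exact iff_of_true zero_lt_one (dvd_zero _)
  · rw [h.2.2 g hg]
    constructor
    · intro h1
      by_contra h2
      rw [multiplicity_eq_zero.2 h2, pow_zero] at h1
      exact lt_irrefl _ h1
    · intro h1
      exact pow_lt_one₀ (by norm_num) (by norm_num) fun h0 => multiplicity_eq_zero.1 h0 h1

private theorem rt_le {P : F[X]} {v : AbsoluteValue (RatFunc F) ℝ} (h : IsPl (some P) v)
    (g : F[X]) : v (algebraMap F[X] (RatFunc F) g) ≤ 1 := by
  by_cases hg : g = 0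
  · rw [hg, map_zero, map_zero]
    exact zero_le_one
  · rw [h.2.2 g hg]
    exact pow_le_one₀ (by norm_num) (by norm_num)

private theorem rt_inf {v : AbsoluteValue (RatFunc F) ℝ} (h : IsPl (none : Option F[X]) v)
    {g : F[X]} (hg : g ≠ 0) : v (algebraMap F[X] (RatFunc F) g) = 2 ^ g.natDegree := by
  rw [show v _ = _ from h _ (rt_ne hg), RatFunc.intDegree_polynomial, zpow_natCast]

private theorem rt_uniq (w : Option F[X]) (v v' : AbsoluteValue (RatFunc F) ℝ) (h : IsPl w v)
    (h' : IsPl w v') : v = v' := by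
  cases w with
  | none =>
    ext f
    by_cases hf : f = 0
    · rw [hf, map_zero, map_zero]
    · rw [show v f = _ from h f hf, show v' f = _ from h' f hf]
  | some P =>
    have h1 : ∀ g : F[X], v (algebraMap F[X] (RatFunc F) g) =
        v' (algebraMap F[X] (RatFunc F) g) := by
      intro g
      by_cases hg : g = 0
      · rw [hg, map_zero, map_zero, map_zero]
      · rw [h.2.2 g hg, h'.2.2 g hg]
    ext f
    rw [← RatFunc.num_div_denom f, map_div₀, map_div₀, h1, h1]

private theorem rt_inj (w w' : Option F[X]) (v v' : AbsoluteValue (RatFunc F) ℝ)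
    (h : IsPl w v) (h' : IsPl w' v') (hvv : v.IsEquiv v') : w = w' := by
  have hX : ∀ {w : AbsoluteValue (RatFunc F) ℝ}, IsPl (none : Option F[X]) w →
      1 < w (algebraMap F[X] (RatFunc F) X) := by
    intro w hw
    rw [rt_inf hw X_ne_zero, natDegree_X, pow_one]
    exact one_lt_two
  cases w with
  | none =>
    cases w' with
    | none => rfl
    | some P' =>
      have h1 := hvv.one_lt_iff.1 (hX h)
      exact absurd (rt_le h' X) (not_le.2 h1)
  | some P =>
    cases w' with
    | none =>
      have h1 := hvv.one_lt_iff.2 (hX h')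
      exact absurd (rt_le h X) (not_le.2 h1)
    | some P' =>
      have h1 : v (algebraMap F[X] (RatFunc F) P) < 1 := (rt_dvd h).2 dvd_rfl
      have h2 : P' ∣ P := (rt_dvd h').1 (hvv.lt_one_iff.1 h1)
      congr 1
      exact Polynomial.eq_of_monic_of_associated h.1 h'.1
        ((h'.2.1.dvd_irreducible_iff_associated h.2.1).1 h2).symm

end

section

variable {F : Type} [Field F] [Finite F] {u : AbsoluteValue (RatFunc F) ℝ}

private theorem rt_const {c : F} (hc : c ≠ 0) : u (algebraMap F[X] (RatFunc F) (C c)) = 1 := by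
  have : Fintype F := Fintype.ofFinite F
  have h1 : c ^ (Fintype.card F - 1) = 1 := FiniteField.pow_card_sub_one_eq_one c hc
  have h2 : u (algebraMap F[X] (RatFunc F) (C c)) ^ (Fintype.card F - 1) = 1 := by
    rw [← map_pow, ← map_pow, ← map_pow, h1, map_one, map_one, map_one]
  have h3 : Fintype.card F - 1 ≠ 0 := by
    have := Fintype.one_lt_card (α := F)
    omega
  exact (pow_eq_one_iff_of_nonneg (u.nonneg _) h3).1 h2

private theorem rt_mono (a : F) (i : ℕ) :
    u (algebraMap F[X] (RatFunc F) (C a * X ^ i)) ≤ u (algebraMap F[X] (RatFunc F) X) ^ i := by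
  by_cases ha : a = 0
  · rw [ha, map_zero, zero_mul, map_zero, map_zero]
    exact pow_nonneg (u.nonneg _) i
  · rw [map_mul, map_mul, rt_const ha, one_mul, map_pow, map_pow]

private theorem rt_sum (hna : IsNonarchimedean u) (g : F[X]) :
    ∃ i ≤ g.natDegree, u (algebraMap F[X] (RatFunc F) g) ≤
      u (algebraMap F[X] (RatFunc F) X) ^ i := by
  have h1 : algebraMap F[X] (RatFunc F) g = ∑ i ∈ Finset.range (g.natDegree + 1),
      algebraMap F[X] (RatFunc F) (C (g.coeff i) * X ^ i) := by
    rw [← map_sum]
    exact congrArg _ (as_sum_range_C_mul_X_pow g)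
  obtain ⟨i, hi, hle⟩ := IsNonarchimedean.finset_image_add_of_nonempty hna
    (fun i => algebraMap F[X] (RatFunc F) (C (g.coeff i) * X ^ i))
    (Finset.nonempty_range_add_one (n := g.natDegree))
  rw [← h1] at hle
  exact ⟨i, Nat.lt_succ_iff.1 (Finset.mem_range.1 hi), hle.trans (rt_mono _ _)⟩

/-- The value of a polynomial if the value of `X` is larger than one. -/
private theorem rt_deg (hna : IsNonarchimedean u)
    (hX : 1 < u (algebraMap F[X] (RatFunc F) X)) {g : F[X]} (hg : g ≠ 0) :
    u (algebraMap F[X] (RatFunc F) g) = u (algebraMap F[X] (RatFunc F) X) ^ g.natDegree := by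
  have hlc : g.leadingCoeff ≠ 0 := leadingCoeff_ne_zero.2 hg
  have h1 : u (algebraMap F[X] (RatFunc F) (C g.leadingCoeff * X ^ g.natDegree)) =
      u (algebraMap F[X] (RatFunc F) X) ^ g.natDegree := by
    rw [map_mul, map_mul, rt_const hlc, one_mul, map_pow, map_pow]
  have h2 : g = g.eraseLead + C g.leadingCoeff * X ^ g.natDegree :=
    (eraseLead_add_C_mul_X_pow g).symm
  have h3 : u (algebraMap F[X] (RatFunc F) g.eraseLead) <
      u (algebraMap F[X] (RatFunc F) (C g.leadingCoeff * X ^ g.natDegree)) := by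
    rw [h1]
    by_cases he : g.eraseLead = 0
    · rw [he, map_zero, map_zero]
      exact pow_pos (by linarith) _
    · have h4 : g.eraseLead.natDegree < g.natDegree := by
        refine lt_of_le_of_ne (eraseLead_natDegree_le_aux) fun h => ?_
        have h5 := eraseLead_coeff_natDegree (f := g)
        rw [← h] at h5
        exact leadingCoeff_ne_zero.2 he h5
      obtain ⟨i, hi, hle⟩ := rt_sum hna g.eraseLead
      exact hle.trans_lt (pow_lt_pow_right₀ hX (by omega))
  have h6 : algebraMap F[X] (RatFunc F) g = algebraMap F[X] (RatFunc F) g.eraseLead +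
      algebraMap F[X] (RatFunc F) (C g.leadingCoeff * X ^ g.natDegree) := by
    rw [← map_add, ← h2]
  rw [h6, IsNonarchimedean.add_eq_right_of_lt hna h3, h1]

private theorem rt_main (hna : IsNonarchimedean u) (hu : u.IsNontrivial) :
    ∃ (w : Option F[X]) (v : AbsoluteValue (RatFunc F) ℝ), IsPl w v ∧ u.IsEquiv v := by
  obtain ⟨hav1, hav2, hav3⟩ := tAv F
  by_cases hX : 1 < u (algebraMap F[X] (RatFunc F) X)
  · obtain ⟨v, hv⟩ := hav2
    refine ⟨none, v, hv, AbsoluteValue.isEquiv_of_lt_one_imp hu fun f hf => ?_⟩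
    by_cases hf0 : f = 0
    · rw [hf0, map_zero]
      exact zero_lt_one
    have hn : f.num ≠ 0 := RatFunc.num_ne_zero hf0
    have hd : f.denom ≠ 0 := f.denom_ne_zero
    have h1 : 0 < u (algebraMap F[X] (RatFunc F) f.denom) := u.pos (rt_ne hd)
    have h2 : 0 < v (algebraMap F[X] (RatFunc F) f.denom) := v.pos (rt_ne hd)
    rw [← RatFunc.num_div_denom f, map_div₀, div_lt_one h1, rt_deg hna hX hn,
      rt_deg hna hX hd] at hf
    have h3 := (pow_lt_pow_iff_right₀ hX).1 hf
    rw [← RatFunc.num_div_denom f, map_div₀, div_lt_one h2, rt_inf hv hn, rt_inf hv hd]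
    exact pow_lt_pow_right₀ one_lt_two h3
  · push Not at hX
    have hle : ∀ g : F[X], u (algebraMap F[X] (RatFunc F) g) ≤ 1 := by
      intro g
      obtain ⟨i, _, hi⟩ := rt_sum hna g
      exact hi.trans (pow_le_one₀ (u.nonneg _) hX)
    -- the prime ideal
    let I : Ideal F[X] :=
      { carrier := {g | u (algebraMap F[X] (RatFunc F) g) < 1}
        add_mem' := by
          intro a b ha hb
          show u (algebraMap F[X] (RatFunc F) (a + b)) < 1
          rw [map_add]
          exact (hna _ _).trans_lt (max_lt ha hb)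
        zero_mem' := by
          show u (algebraMap F[X] (RatFunc F) 0) < 1
          rw [map_zero, map_zero]
          exact zero_lt_one
        smul_mem' := by
          intro a b hb
          show u (algebraMap F[X] (RatFunc F) (a * b)) < 1
          rw [map_mul, map_mul]
          exact mul_lt_one_of_nonneg_of_lt_one_right (hle a) (u.nonneg _) hb }
    have hI : ∀ g, g ∈ I ↔ u (algebraMap F[X] (RatFunc F) g) < 1 := fun g => Iff.rfl
    have hIp : I.IsPrime := by
      refine Ideal.isPrime_iff.2 ⟨fun h => ?_, fun {a b} hab => ?_⟩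
      · have h1 : (1 : F[X]) ∈ I := by rw [h]; exact Submodule.mem_top
        rw [hI, map_one, map_one] at h1
        exact lt_irrefl _ h1
      · rw [hI, map_mul, map_mul] at hab
        rw [hI, hI]
        by_contra hc
        push Not at hc
        have h1 := le_antisymm (hle a) hc.1
        have h2 := le_antisymm (hle b) hc.2
        rw [h1, h2, one_mul] at hab
        exact lt_irrefl _ hab
    have hI0 : I ≠ ⊥ := by
      intro h
      have h1 : ∀ g : F[X], g ≠ 0 → u (algebraMap F[X] (RatFunc F) g) = 1 := by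
        intro g hg
        refine le_antisymm (hle g) ?_
        by_contra hc
        push Not at hc
        have h2 : g ∈ I := hc
        rw [h, Ideal.mem_bot] at h2
        exact hg h2
      obtain ⟨f, hf0, hf⟩ := hu
      apply hf
      rw [← RatFunc.num_div_denom f, map_div₀, h1 _ (RatFunc.num_ne_zero hf0),
        h1 _ f.denom_ne_zero, div_one]
    obtain ⟨g₀, hg₀⟩ := (IsPrincipalIdealRing.principal I).principal
    have hg₀' : I = Ideal.span {g₀} := hg₀
    have hg0 : g₀ ≠ 0 := by
      rintro rfl
      exact hI0 (hg₀'.trans (Ideal.span_singleton_eq_bot.2 rfl))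
    have hprime : Prime g₀ := (Ideal.span_singleton_prime hg0).1 (hg₀' ▸ hIp)
    classical
    have hirr : Irreducible (normalize g₀) :=
      (normalize_associated g₀).symm.irreducible hprime.irreducible
    have hmon : (normalize g₀).Monic := Polynomial.monic_normalize hg0
    obtain ⟨v, hv⟩ := hav1 (normalize g₀) hmon hirr
    have hdvd : ∀ g, u (algebraMap F[X] (RatFunc F) g) < 1 ↔ normalize g₀ ∣ g := by
      intro g
      rw [← hI, hg₀', Ideal.mem_span_singleton, normalize_dvd_iff]
    have hvu : ∀ g, v (algebraMap F[X] (RatFunc F) g) < 1 ↔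
        u (algebraMap F[X] (RatFunc F) g) < 1 := by
      intro g
      rw [hdvd, rt_dvd hv]
    refine ⟨some (normalize g₀), v, hv, AbsoluteValue.isEquiv_of_lt_one_imp hu fun f hf => ?_⟩
    by_cases hf0 : f = 0
    · rw [hf0, map_zero]
      exact zero_lt_one
    have hd : f.denom ≠ 0 := f.denom_ne_zero
    have h1 : 0 < u (algebraMap F[X] (RatFunc F) f.denom) := u.pos (rt_ne hd)
    have h2 : 0 < v (algebraMap F[X] (RatFunc F) f.denom) := v.pos (rt_ne hd)
    rw [← RatFunc.num_div_denom f, map_div₀, div_lt_one h1] at hf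
    rw [← RatFunc.num_div_denom f, map_div₀, div_lt_one h2]
    have h3 : u (algebraMap F[X] (RatFunc F) f.num) < 1 := hf.trans_le (hle _)
    have h4 : ¬ normalize g₀ ∣ f.denom := by
      intro h5
      have h6 : normalize g₀ ∣ f.num := (hdvd _).1 h3
      exact hirr.not_isUnit (f.isCoprime_num_denom.isUnit_of_dvd' h6 h5)
    have h5 : v (algebraMap F[X] (RatFunc F) f.denom) = 1 := by
      refine le_antisymm (rt_le hv _) ?_
      by_contra hc
      push Not at hc
      exact h4 ((rt_dvd hv).1 hc)
    rw [h5]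
    exact (hvu _).2 h3

end

theorem tRt (hNa : S_Na) : S_Rt := by
  intro F _ _
  obtain ⟨p, hp⟩ := CharP.exists F
  have hpr : Fact p.Prime := ⟨CharP.char_is_prime F p⟩
  have hR : CharP (RatFunc F) p :=
    charP_of_injective_algebraMap (algebraMap F (RatFunc F)).injective p
  exact ⟨fun u hu => rt_main (hNa p (RatFunc F) u) hu, rt_uniq, rt_inj⟩

end Pool.Agent.MP72P
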