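import Pool.Agent.Lib.MP_72e2e6_nt.P3.N.Spec

/-!
# MP_72e2e6_nt, theorem T3p, block N: functions large at one place, small at the others
-/

namespace Pool.Agent.MP72P

open Polynomial
open Pool.Agent.MP72W (IsPl)

private theorem sml_sub {K : Type} [Field K] {v : AbsoluteValue K ℝ} (h : IsNonarchimedean v)
    (a b : K) : v (a - b) ≤ max (v a) (v b) := by
  rw [sub_eq_add_neg]
  refine (h a (-b)).trans ?_
  rw [AbsoluteValue.map_neg]

/-- Powers of `y` which are small where `y` is small and large where `y` is large. -/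
private theorem sml_pow {J : Type} [Finite J] (f : J → ℝ) (j0 : J) (h0 : 1 < f j0)
    (hf : ∀ j, j ≠ j0 → 0 ≤ f j ∧ f j < 1) (δ M : ℝ) (hδ : 0 < δ) :
    ∃ N : ℕ, ∀ k, N ≤ k → M < f j0 ^ k ∧ ∀ j, j ≠ j0 → f j ^ k ≤ δ := by
  classical
  have hft : Fintype J := Fintype.ofFinite J
  obtain ⟨N₀, hN₀⟩ := pow_unbounded_of_one_lt M h0
  have h1 : ∀ j, j ≠ j0 → ∃ N : ℕ, f j ^ N < δ := fun j hj =>
    exists_pow_lt_of_lt_one hδ (hf j hj).2
  choose! N₁ hN₁ using h1
  refine ⟨max N₀ (Finset.univ.sup N₁), fun k hk => ⟨?_, fun j hj => ?_⟩⟩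
  · exact hN₀.trans_le (pow_le_pow_right₀ h0.le ((le_max_left _ _).trans hk))
  · refine (pow_le_pow_of_le_one (hf j hj).1 (hf j hj).2.le ?_).trans (hN₁ j hj).le
    exact (Finset.le_sup (f := N₁) (Finset.mem_univ j)).trans ((le_max_right _ _).trans hk)

/-- **Sml**. Functions which are large at one place and small at the others. -/
theorem tSml (na : S_Na) (co : S_CoK) : S_Sml := by
  classical
  intro p _ K _ _ hK J _ av hav j0 ε B hε
  obtain ⟨y, hy0, hy⟩ := AbsoluteValue.exists_one_lt_lt_one_pi_of_not_isEquiv hav.ntr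
    (fun i j hij => hav.inq i j hij) j0
  set δ : ℝ := min ε 1 / 2 with hδdef
  have hm : 0 < min ε 1 := lt_min hε one_pos
  have hδ : 0 < δ := half_pos hm
  have hδε : δ < ε := (half_lt_self hm).trans_le (min_le_left _ _)
  have hδ1 : δ < 1 := (half_lt_self hm).trans_le (min_le_right _ _)
  obtain ⟨X, hX, hco⟩ := co p K hK J av hav δ hδ
  choose s hs a ha hz using fun k : ℕ => hco (y ^ k)
  obtain ⟨N, hN⟩ := sml_pow (fun j => av j y) j0 hy0 (fun j hj => ⟨(av j).nonneg _, hy j hj⟩) δ
    (max B 1) hδ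
  have hfin : Finite X := hX
  obtain ⟨m, m', hmm, hsm⟩ := Finite.exists_ne_map_eq_of_infinite
    (fun m : ℕ => (⟨s (N + m), hs (N + m)⟩ : X))
  -- the two exponents
  obtain ⟨k, l, hkl, hNk, hskl⟩ : ∃ k l : ℕ, k < l ∧ N ≤ k ∧ s k = s l := by
    rcases lt_or_gt_of_ne hmm with h | h
    · exact ⟨N + m, N + m', by omega, by omega, congrArg Subtype.val hsm⟩
    · exact ⟨N + m', N + m, by omega, by omega, (congrArg Subtype.val hsm).symm⟩
  have hNl : N ≤ l := hNk.trans hkl.le
  have key : y ^ l - (y ^ k - (y ^ k - s k - a k) + (y ^ l - s l - a l)) = a l - a k := by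
    rw [hskl]
    ring
  refine ⟨a l - a k, sub_mem (ha l) (ha k), ?_, ?_⟩
  · have hv := na p K (av j0)
    have h2 : av j0 (y ^ k - (y ^ k - s k - a k) + (y ^ l - s l - a l)) < av j0 (y ^ l) := by
      have hk1 : δ < av j0 (y ^ l) := by
        rw [map_pow]
        exact hδ1.trans ((le_max_right B 1).trans_lt (hN l hNl).1)
      refine (hv _ _).trans_lt (max_lt ((sml_sub hv _ _).trans_lt (max_lt ?_ ?_)) ?_)
      · rw [map_pow, map_pow]
        exact pow_lt_pow_right₀ hy0 hkl
      · exact (hz k j0).trans_lt hk1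
      · exact (hz l j0).trans_lt hk1
    have h3 : av j0 (y ^ l) ≤ max (av j0 (a l - a k))
        (av j0 (y ^ k - (y ^ k - s k - a k) + (y ^ l - s l - a l))) := by
      have h4 := hv (a l - a k) (y ^ k - (y ^ k - s k - a k) + (y ^ l - s l - a l))
      have h5 : a l - a k + (y ^ k - (y ^ k - s k - a k) + (y ^ l - s l - a l)) = y ^ l := by
        rw [← key]
        ring
      rwa [h5] at h4
    have h6 : av j0 (y ^ l) ≤ av j0 (a l - a k) := by
      rcases le_max_iff.1 h3 with h | h
      · exact h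
      · exact absurd h (not_le.2 h2)
    refine lt_of_lt_of_le ?_ h6
    rw [map_pow]
    exact (le_max_left B 1).trans_lt (hN l hNl).1
  · intro j hj
    have hv := na p K (av j)
    refine lt_of_le_of_lt ?_ hδε
    rw [← key]
    refine (sml_sub hv _ _).trans (max_le ?_ ((hv _ _).trans (max_le ((sml_sub hv _ _).trans
      (max_le ?_ (hz k j))) (hz l j))))
    · rw [map_pow]
      exact (hN l hNl).2 j hj
    · rw [map_pow]
      exact (hN k hNk).2 j hj

end Pool.Agent.MP72P
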