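import Pool.Agent.Lib.MP_72e2e6_nt.P3.N.Spec

/-!
# MP_72e2e6_nt, theorem T3p, block N: Str, strong approximation
-/

set_option autoImplicit false

namespace Pool.Agent.MP72P

private theorem str_wa {K : Type} [Field K] {J : Type} [Finite J] {av : J → AbsoluteValue K ℝ}
    (h : Pls av) (t : J → K) (ε : ℝ) (hε : 0 < ε) : ∃ x : K, ∀ j, av j (x - t j) < ε := by
  have := Fintype.ofFinite J
  have hd := AbsoluteValue.denseRange_algebraMap_pi h.ntr (fun i j hij => h.inq i j hij)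
  obtain ⟨x, hx⟩ := Metric.denseRange_iff.1 hd (fun j => WithAbs.toAbs (av j) (t j)) ε hε
  refine ⟨x, fun j => ?_⟩
  have h1 := (dist_pi_lt_iff hε).1 hx j
  rw [dist_comm, dist_eq_norm] at h1
  exact h1

theorem tStr : S_Na → S_CoK → S_Sml → S_Str := by
  intro hNa hCoK hSml p _ K _ _ hK J _ av hav j0 t ε hε
  obtain ⟨x, hx⟩ := str_wa hav t ε hε
  obtain ⟨g, hg, hg1, hg2⟩ := hSml p K hK J av hav j0 (1 / 2) 1 (by norm_num)
  obtain ⟨X, hXf, hX⟩ := hCoK p K hK J av hav 1 one_pos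
  have hbd : BddAbove ((fun q : J × K => av q.1 q.2) '' (Set.univ ×ˢ X)) :=
    ((Set.finite_univ.prod hXf).image _).bddAbove
  obtain ⟨C, hC⟩ := hbd
  have hC' : ∀ j, ∀ s ∈ X, av j s ≤ C := fun j s hs =>
    hC ⟨(j, s), ⟨Set.mem_univ _, hs⟩, rfl⟩
  have hg0 : g ≠ 0 := by
    intro h
    rw [h, map_zero] at hg1
    linarith
  obtain ⟨k, hk⟩ := exists_pow_lt_of_lt_one (show 0 < ε / (max C 1) by positivity)
    (show (1 / 2 : ℝ) < 1 by norm_num)
  obtain ⟨s, hs, a, ha, hz⟩ := hX (x / g ^ k)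
  refine ⟨g ^ k * a, mul_mem (pow_mem hg k) ha, fun j hj => ?_⟩
  have hna := hNa p K (av j)
  have h1 : g ^ k * a - t j = -(g ^ k * (s + (x / g ^ k - s - a))) + (x - t j) := by
    have h2 : g ^ k * (x / g ^ k) = x := mul_div_cancel₀ x (pow_ne_zero k hg0)
    linear_combination h2
  rw [h1]
  refine lt_of_le_of_lt (hna _ _) (max_lt ?_ (hx j))
  rw [AbsoluteValue.map_neg, map_mul, map_pow]
  have h3 : av j (s + (x / g ^ k - s - a)) ≤ max C 1 :=
    (hna _ _).trans (max_le_max (hC' j s hs) (hz j))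
  have h4 : av j g ^ k ≤ (1 / 2) ^ k := pow_le_pow_left₀ ((av j).nonneg _) (hg2 j hj).le k
  have h5 : 0 < max C 1 := lt_of_lt_of_le one_pos (le_max_right _ _)
  calc av j g ^ k * av j (s + (x / g ^ k - s - a)) ≤ (1 / 2) ^ k * max C 1 :=
        mul_le_mul h4 h3 ((av j).nonneg _) (by positivity)
    _ < ε := (lt_div_iff₀ h5).1 hk

end Pool.Agent.MP72P
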