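import Pool.Agent.Lib.MP_72e2e6_nt.P3.N.Defs

/-!
# MP_72e2e6_nt, theorem T3p, block N: arithmetic of global function fields

The proofs are complete in the docstrings; every module is independent (used statements are
hypotheses): file `P3/N/<Name>.lean` (import this file only) with `theorem t<Name> : S_<Name>` or
`theorem t<Name> (h1 : S_X) (h2 : S_Y) .. : S_<Name>` (in the order of the docstring), namespace
`Pool.Agent.MP72P`, other declarations `private`. All types are in `Type`. Places are absolute values up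
to `AbsoluteValue.IsEquiv`; equivalent absolute values have the same sets `{v < 1}`, `{v ≤ 1}`, `{v = 1}`
and are powers of each other (`isEquiv_iff_exists_rpow_eq`). Weak approximation is
`AbsoluteValue.denseRange_algebraMap_pi` (and `exists_one_lt_lt_one_pi_of_not_isEquiv`). The phrase: `v` above `u` means
`rsa K v = u`. `A = OS av`.
-/

namespace Pool.Agent.MP72P

open Polynomial
open Pool.Agent.MP72W (IsPl)

/-! ### 1. The field of rational functions -/

/-- **Na** (30 lines). In characteristic `p` every absolute value is nonarchimedean.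

Proof. For a natural number `n` the element `n ∈ K` is `0` or satisfies `n ^ (p - 1) = 1`, so `v n ≤ 1`;
Mathlib: `IsUltrametricDist.isUltrametricDist_of_forall_norm_natCast_le_one` for `WithAbs v`, or the usual
proof (`v (x + y) ^ n ≤ ∑ v (x) ^ i v (y) ^ (n - i) ≤ (n + 1) max ^ n`). -/
def S_Na : Prop :=
  ∀ (p : ℕ) [Fact p.Prime] (K : Type) [Field K] [CharP K p] (v : AbsoluteValue K ℝ),
    IsNonarchimedean v

/-- **Rt** (150 lines, uses `S_Na`). Ostrowski's theorem for `F(t)`, `F` finite.

Proof. A constant `c ≠ 0` has `u c = 1` (`c ^ (q - 1) = 1`). (1) If `u X > 1` then for a polynomial `g ≠ 0` the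
leading term dominates: `u g = (u X) ^ deg g`, so `u f = (u X) ^ intDegree f`, a power of the `v` with
`IsPl none v` (`MP72W.tAv` gives `v`). If `u X ≤ 1` then `u g ≤ 1` for all polynomials, and there is
a polynomial `g ≠ 0` with `u g < 1` (otherwise `u` is trivial); let `P` be monic of minimal degree with
this property; it is irreducible (a product of polynomials of smaller degree has value `1`; constants
have value `1`). If `P ∤ g` then `a g + b P = 1`, so `u g = 1` (`1 ≤ max (u g) (u P)`). So
`u g = (u P) ^ multiplicity P g`, a power of the `v` with `IsPl (some P) v`. (2) `v`, `v'` agree on polynomials,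
so everywhere. (3) `w = none`: `v X > 1`, `w = some P`: `v X ≤ 1` and `P` is the only monic irreducible
polynomial of value `< 1`. -/
def S_Rt : Prop :=
  ∀ (F : Type) [Field F] [Finite F],
    (∀ u : AbsoluteValue (RatFunc F) ℝ, u.IsNontrivial →
      ∃ (w : Option F[X]) (v : AbsoluteValue (RatFunc F) ℝ), IsPl w v ∧ u.IsEquiv v) ∧
    (∀ (w : Option F[X]) (v v' : AbsoluteValue (RatFunc F) ℝ), IsPl w v → IsPl w v' → v = v') ∧
    ∀ (w w' : Option F[X]) (v v' : AbsoluteValue (RatFunc F) ℝ), IsPl w v → IsPl w' v' →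
      v.IsEquiv v' → w = w'

/-- **Fi0** (150 lines). Functions with bounded poles, `F(t)`.

Proof. Let `f = g / k ≠ 0` in lowest terms (`RatFunc.num`, `denom`). If `P` is a monic irreducible polynomial
which divides `k` then `v f > 1` for `IsPl (some P) v` (`MP72W.tAv`), so `some P ∈ T` and
`2 ^ (multiplicity P k) ≤ B`. So `k` divides `∏_{some P ∈ T, P monic irreducible} P ^ e` with `2 ^ e > B`, in
particular `deg k ≤ N`. At `none`: `2 ^ (deg g - deg k) ≤ max 1 B`, so `deg g ≤ N'`. There are only finitely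
many pairs of polynomials of bounded degree over `F`. -/
def S_Fi0 : Prop :=
  ∀ (F : Type) [Field F] [Finite F] (T : Finset (Option F[X])) (B : ℝ), 1 ≤ B →
    {f : RatFunc F | ∀ w v, IsPl w v → v f ≤ B ∧ (w ∉ T → v f ≤ 1)}.Finite

/-- **Co0** (200 lines). Approximation in `F(t)`, `T` contains `none`.

Proof. Let `N : ℕ` with `2 ^ (-N) ≤ ε`, `G'` the product of the monic irreducible `P` with `some P ∈ T`,
`G = G' ^ N`, `M = deg G`, `R = X G' + 1` (prime to `G'`, degree at least one), `L = M + N`. `X` is the set of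
the `G c / R ^ L`, `c` a polynomial with `deg c < L deg R` (finite). Let `x = g / (k H)` with `k ∣ G' ^ m` and `H` prime
to `G'` (split the denominator; or: `x = g / (G' ^ m H)` after extension by a power of `G'`: choose `m` with
`denom x ∣ G' ^ m H`, `H` the part prime to `G'`). Choose a polynomial `b` with `b H ≡ g` modulo `G' ^ m G`:
`x - b / G' ^ m = G e / H`, `e` a polynomial. `e = e' H + e''`, `deg e'' < deg H`. Let `c` be the quotient of
`R ^ L e''` by `H`, so `deg c < L deg R` and `e'' / H - c / R ^ L = r / (H R ^ L)`, `deg r < deg H`. Let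
`s = G c / R ^ L`, `a = b / G' ^ m + G e'`. Then `x - s - a = G r / (H R ^ L)`: at `some P ∈ T` the value is at most
`2 ^ (-N)` (`P ^ N ∣ G`, `H`, `R` prime to `P`), at `none` the degree is less than `M - L deg R ≤ - N`. `a` has
poles only at the `P ∈ T` and at infinity. (`IsPl (some P) v` requires `P` monic irreducible; elements `some P`
of `T` with other `P` do not matter.) -/
def S_Co0 : Prop :=
  ∀ (F : Type) [Field F] [Finite F] (T : Finset (Option F[X])), none ∈ T → ∀ ε : ℝ, 0 < ε →
    ∃ X : Set (RatFunc F), X.Finite ∧ ∀ x, ∃ s ∈ X, ∃ a : RatFunc F,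
      (∀ w v, IsPl w v → w ∉ T → v a ≤ 1) ∧ ∀ w v, IsPl w v → w ∈ T → v (x - s - a) ≤ ε

/-! ### 2. Finite extensions -/

/-- **Ntr** (60 lines, uses `S_Na`). The restriction of a nontrivial absolute value is nontrivial.

Proof. If `rsa K v` is trivial and `x ∈ L` with `v x > 1` (`exists_abv_gt_one`), then in the equation
`x ^ n = - ∑_{i < n} c_i x ^ i` of `x` over `K` all `v (c_i) ≤ 1`, so `v x ^ n ≤ v x ^ (n - 1)`, a contradiction. -/
def S_Ntr : Prop :=
  ∀ (p : ℕ) [Fact p.Prime] (K L : Type) [Field K] [Field L] [Algebra K L]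
    [Algebra.IsAlgebraic K L] [CharP K p] (v : AbsoluteValue L ℝ), v.IsNontrivial →
    (rsa K v).IsNontrivial

/-- **Exn** (200 lines, uses `S_Na`). Extensions of absolute values and the coefficients of the minimal
polynomial.

Proof. Let `M` be an algebraic closure of `u.Completion`, with the spectral norm (`spectralNorm`, a
multiplicative nonarchimedean norm which extends the norm of `u.Completion`; `u` is nonarchimedean
and nontrivial). For a `K`-embedding `i : L → M` the function `x ↦ spectralNorm (i x)` is an absolute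
value above `u`: (1). (2) The minimal polynomial of `f` over `K` splits in `M`; every root `z` is `i f` for a
`K`-embedding `i : L → M` (`K⟮f⟯ → M` by `algHomAdjoinIntegralEquiv`, extended to `L` by `IsAlgClosed.lift` or
`exists_algHom_of_..`), so `‖z‖ ≤ B`, and the coefficient of `X ^ i` is plus or minus the elementary symmetric
function of degree `n - i` of the roots (`Polynomial.coeff_eq_esymm_roots_of_card`), of norm at most
`B ^ (n - i)`. -/
def S_Exn : Prop :=
  ∀ (p : ℕ) [Fact p.Prime] (K L : Type) [Field K] [Field L] [Algebra K L]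
    [FiniteDimensional K L] [CharP K p] (u : AbsoluteValue K ℝ), u.IsNontrivial →
    (∃ v : AbsoluteValue L ℝ, rsa K v = u) ∧
    ∀ (f : L) (B : ℝ), 0 < B → (∀ v : AbsoluteValue L ℝ, rsa K v = u → v f ≤ B) →
      ∀ i ≤ (minpoly K f).natDegree,
        u ((minpoly K f).coeff i) ≤ B ^ ((minpoly K f).natDegree - i)

/-- **Cmp** (100 lines, uses `S_Na`). There are at most `[L : K]` places above a place.

Proof. The `w i` are nontrivial and not equivalent, so by weak approximation there are `a i ∈ L` with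
`w i (a i - 1) < 1`, so `w i (a i) = 1`, and `w j (a i) < 1` for `j ≠ i`. The `a i` are linearly independent
over `K`: let `∑ c i • a i = 0`, not all `c i = 0`, and let `u (c k)` be maximal; divide by `c k`: we may assume
`c k = 1` and `u (c i) ≤ 1` for all `i`, so `w k (c i) ≤ 1` for all `i` (`rsa K (w k)` is equivalent to `u`). Then
`1 = w k (a k) ≤ max_{i ≠ k} w k (c i • a i) < 1`. -/
def S_Cmp : Prop :=
  ∀ (p : ℕ) [Fact p.Prime] (K L : Type) [Field K] [Field L] [Algebra K L]
    [FiniteDimensional K L] [CharP K p] (u : AbsoluteValue K ℝ) (m : ℕ)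
    (w : Fin m → AbsoluteValue L ℝ), u.IsNontrivial → Pls w → (∀ i, (rsa K (w i)).IsEquiv u) →
    m ≤ Module.finrank K L

/-- **Abv** (100 lines, uses `S_Cmp`). The places above a finite set of places.

Proof. For every family `w` which satisfies the first two conditions `m ≤ #I [L : K]` (sort by the `i`; `S_Cmp` for
every `i`). Take a family with the largest `m` (the empty family is one). If `v` is above some `u i` up
to equivalence and not equivalent to a `w j`, then it can be added (`v` is nontrivial as its restriction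
is), a contradiction. -/
def S_Abv : Prop :=
  ∀ (p : ℕ) [Fact p.Prime] (K L : Type) [Field K] [Field L] [Algebra K L]
    [FiniteDimensional K L] [CharP K p] (I : Type) [Finite I] (u : I → AbsoluteValue K ℝ),
    (∀ i, (u i).IsNontrivial) →
    ∃ (m : ℕ) (w : Fin m → AbsoluteValue L ℝ), Pls w ∧
      (∀ j, ∃ i, (rsa K (w j)).IsEquiv (u i)) ∧
      ∀ v : AbsoluteValue L ℝ, (∃ i, (rsa K v).IsEquiv (u i)) → ∃ j, v.IsEquiv (w j)

/-- **Bas** (80 lines, uses `S_Na`). A basis of `K` over `F(t)` of elements which are integral outside the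
places above infinity.

Proof. There is a basis of elements integral over `F[X]` (`FiniteDimensional.exists_is_basis_integral`, or
multiply a basis by suitable polynomials, `exists_integral_multiple`). If `v X ≤ 1` then `v ≤ 1` on `F[X]`
(constants have value `1`, `F` is finite), so `v b ≤ 1` for `b` integral over `F[X]`. (`v X` means the value of
`algebraMap (RatFunc F) K RatFunc.X`.) -/
def S_BasN : Prop :=
  ∀ (p : ℕ) [Fact p.Prime] (F K : Type) [Field F] [Finite F] [Field K] [CharP K p]
    [Algebra (RatFunc F) K] [FiniteDimensional (RatFunc F) K],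
    ∃ (n : ℕ) (b : Module.Basis (Fin n) (RatFunc F) K), ∀ i, ∀ v : AbsoluteValue K ℝ,
      rsa (RatFunc F) v RatFunc.X ≤ 1 → v (b i) ≤ 1

/-- **CoK** (300 lines, uses `S_Na`, `S_Rt`, `S_Co0`, `S_Ntr`, `S_Abv`, `S_BasN`). COMPACTNESS: `K` modulo
`A` and a ball is finite.

Proof. (1) Let `T` be the finite set of the places `w` of `F(t)` such that the restriction of some `av j` is
equivalent to the `u` with `IsPl w u` (`S_Ntr`, `S_Rt`: exactly one `w` for every `j`), and of `none`. Let `av'` be the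
family of `S_Abv` for the `u`, `IsPl w u`, `w ∈ T`. First the claim for `av'`: let `b` be as in `S_BasN`, `C ≥ 1` a bound
for all `av' j (b i)`. Every restriction of an `av' j` is a power (exponent `> 0`) of some `u`, so there is
`ε' > 0` such that `u z ≤ ε'` for all `u` (`w ∈ T`) implies `av' j (z) C ≤ ε` for all `j`. Let `X₀` be as in
`S_Co0` for `T`, `ε'`, `X = {∑ s i • b i | s i ∈ X₀}`. For `x = ∑ x i • b i` let `x i = s i + a i + z i` be as in `S_Co0`,
`s = ∑ s i • b i`, `a = ∑ a i • b i`; then `av' j (x - s - a) ≤ ε`, and `a ∈ OS av'`: if `v` is not equivalent to an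
`av' j` then its restriction (nontrivial by `S_Ntr`) is equivalent to some `u`, `IsPl w u`, `w ∉ T` (by the
property of `av'`), so `v (a i) ≤ 1`, and `v X ≤ 1` as `w ≠ none`, `v (b i) ≤ 1`. (2) Every `av j` is equivalent
to exactly one `av' (i j)`, `i` is injective. Choose `ε' ≤ 1` such that `av' (i j) z ≤ ε'` implies `av j z ≤ ε`, and let
`X'` be as in (1) for `ε'`. For `s ∈ X'` let `x_s ∈ K` be an element with `av' k (x_s) ≤ 1` for all `k` not of the
form `i j` and `x_s ∈ s + OS av' + ball(ε')`, if there is one. `X = {x_s}`. Let `x ∈ K`. By weak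
approximation (for `av'`) there is `x'` with `av' (i j) (x - x') ≤ ε'` and `av' k (x') ≤ 1` for the other `k`. It is in
`s + OS av' + ball(ε')` for some `s ∈ X'`, so `x_s` exists and `x' - x_s = a + z`, `a ∈ OS av'`, `av' (z) ≤ ε'`. For the
other `k` `av' k (a) ≤ 1`, so `a ∈ OS av` (a `v` not equivalent to an `av j` is equivalent to an `av' k` of this
kind or to no `av'`). And `av j (x - x_s - a) ≤ ε`. -/
def S_CoK : Prop :=
  ∀ (p : ℕ) [Fact p.Prime] (K : Type) [Field K] [CharP K p], GFld p K →
    ∀ (J : Type) [Finite J] (av : J → AbsoluteValue K ℝ), Pls av → ∀ ε : ℝ, 0 < ε →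
      ∃ X : Set K, X.Finite ∧ ∀ x, ∃ s ∈ X, ∃ a ∈ OS av, ∀ j, av j (x - s - a) ≤ ε

/-- **FiK** (200 lines, uses `S_Na`, `S_Rt`, `S_Fi0`, `S_Ntr`, `S_Exn`). DISCRETENESS: the functions in `A` with
bounded values are finitely many.

Proof. We may assume `B ≥ 1`. Let `T` be the set of the places `w` of `F(t)` such that some `av j` restricts to a power
of the `u` with `IsPl w u`. Let `f` be in the set, `w` a place, `IsPl w u`, `v` above `u`. If `v` is not equivalent to an
`av j` then `v f ≤ 1` (`v` is nontrivial as `u` is). If `v` is equivalent to `av j` then `w ∈ T`, and `v = (av j) ^ s`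
(real exponent `s > 0`) with `s = log u(x) / log (av j x)` for any `x ∈ F(t)` with `av j x ≠ 1`, which depends
only on `j`; so `v f ≤ B₁` with `B₁ ≥ 1` depending only on `av`, `B`. By `S_Exn` the coefficients of the
minimal polynomial of `f` over `F(t)` satisfy `u (c) ≤ B₁ ^ n` for all `w`, and `u (c) ≤ 1` for `w ∉ T`, so they are
in a finite set (`S_Fi0`), and the degree is at most `n = [K : F(t)]`; so there are finitely many minimal
polynomials and finitely many `f`. -/
def S_FiK : Prop :=
  ∀ (p : ℕ) [Fact p.Prime] (K : Type) [Field K] [CharP K p], GFld p K →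
    ∀ (J : Type) [Finite J] (av : J → AbsoluteValue K ℝ), Pls av → ∀ B : ℝ,
      {f : K | f ∈ OS av ∧ ∀ j, av j f ≤ B}.Finite

/-! ### 3. Consequences -/

/-- **Dsc** (200 lines, uses `S_Na`, `S_CoK`, `S_FiK`). Every nontrivial absolute value is discrete with
finite residue field.

Proof. Apply `S_CoK` and `S_FiK` to the family `{v}` (`J = Unit`). Let `0 < ε < 1`. Claim: there are
finitely many classes of `{v x ≤ 1}` modulo `{v z ≤ ε}`: elements `x`, `x'` with the same `s ∈ X` satisfy
`x - x' = (a - a') + z`, `v z ≤ ε`, so `a - a' ∈ A`, `v (a - a') ≤ 1`, one of finitely many elements. If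
`ε < v x < v y ≤ 1` then `v (x - y) = v y > ε`, so `v` has finitely many values in `(ε, 1]`. So there is a
largest value `< 1`, `v ϖ` (nontrivial: there is a value in `(0, 1)`, take it as `ε`), and every value is a
power of it: `v x = v ϖ ^ n` for the `n` with `v ϖ ^ (n + 1) < v x ≤ v ϖ ^ n` (`v (x / ϖ ^ n) ∈ (v ϖ, 1]`). For
`ε = v ϖ` (and `v z ≤ v ϖ` iff `v z < 1`): the residue ring `{v ≤ 1} / {v < 1}` is a finite field of
characteristic `p`, so it has `Q = p ^ r` elements, `r ≥ 1`; `R` = a set of representatives; `x ^ Q = x` in this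
field. (Use `ValuationSubring` or a quotient of the subring `{v ≤ 1}` by the maximal ideal `{v < 1}`.) -/
def S_Dsc : Prop :=
  ∀ (p : ℕ) [Fact p.Prime] (K : Type) [Field K] [CharP K p], GFld p K →
    ∀ v : AbsoluteValue K ℝ, v.IsNontrivial → ∃ (Q : ℕ) (ϖ : K) (R : Finset K), LF v p Q ϖ R

/-- **Sml** (80 lines, uses `S_Na`, `S_CoK`). Functions which are large at one place and small at the
others.

Proof. Let `y ∈ K` with `av j0 y > 1` and `av j y < 1` for `j ≠ j0` (`exists_one_lt_lt_one_pi_of_not_isEquiv`),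
`ε' = min ε 1 / 2`, `X` as in `S_CoK` for `ε'`, `y ^ k = s_k + a_k + z_k`. `X` is finite, so for infinitely many
`k` the `s_k` is the same; let `k < l` be two of them with `av j (y) ^ k ≤ ε'` for `j ≠ j0` and
`av j0 (y) ^ l > max B 1`. `g = a_l - a_k = y ^ l - y ^ k - (z_l - z_k)`: `av j g ≤ ε' < ε` for `j ≠ j0`, and
`av j0 g = av j0 (y) ^ l`. -/
def S_Sml : Prop :=
  ∀ (p : ℕ) [Fact p.Prime] (K : Type) [Field K] [CharP K p], GFld p K →
    ∀ (J : Type) [Finite J] (av : J → AbsoluteValue K ℝ), Pls av → ∀ (j0 : J) (ε B : ℝ), 0 < ε →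
      ∃ g ∈ OS av, B < av j0 g ∧ ∀ j, j ≠ j0 → av j g < ε

/-- **Str** (80 lines, uses `S_Na`, `S_CoK`, `S_Sml`). STRONG APPROXIMATION.

Proof. By weak approximation there is `x ∈ K` with `av j (x - t j) < ε` for all `j`. Let `g ∈ A` with
`av j0 g > 1`, `av j g ≤ 1 / 2` for `j ≠ j0` (`S_Sml`). Let `X` be as in `S_CoK` for `1`, `C ≥ 1` a bound for all
`av j s`, `s ∈ X`. `x / g ^ k = s + a + z` gives `x - g ^ k a = g ^ k (s + z)`, at `j ≠ j0` of value at most
`2 ^ (-k) C < ε` for large `k`. `f = g ^ k a`. -/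
def S_Str : Prop :=
  ∀ (p : ℕ) [Fact p.Prime] (K : Type) [Field K] [CharP K p], GFld p K →
    ∀ (J : Type) [Finite J] (av : J → AbsoluteValue K ℝ), Pls av → ∀ (j0 : J) (t : J → K) (ε : ℝ),
      0 < ε → ∃ f ∈ OS av, ∀ j, j ≠ j0 → av j (f - t j) < ε

/-- **App** (80 lines, uses `S_Na`, `S_CoK`, `S_Str`). Approximation at one place up to a bounded error.

Proof. Let `ε' = min ε 1 / 2`, `X` as in `S_CoK` for `ε'`, and for `s ∈ X` let `f_s ∈ A` with `av j (s - f_s) < ε` for
`j ≠ j0` (`S_Str`); `C ≥ 1` a bound for the `av j0 (s - f_s)`. Let `x ∈ K`, `x'` with `av j0 (x - x') < 1` and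
`av j (x') < ε` for `j ≠ j0` (weak approximation), `x' = s + a + z`. `f = a + f_s = x' - z - (s - f_s)`:
`av j f < ε` for `j ≠ j0`, `x - f = (x - x') + z + (s - f_s)`. -/
def S_App : Prop :=
  ∀ (p : ℕ) [Fact p.Prime] (K : Type) [Field K] [CharP K p], GFld p K →
    ∀ (J : Type) [Finite J] (av : J → AbsoluteValue K ℝ), Pls av → ∀ (j0 : J) (ε : ℝ), 0 < ε →
      ∃ C : ℝ, ∀ x : K, ∃ f ∈ OS av, av j0 (x - f) ≤ C ∧ ∀ j, j ≠ j0 → av j f < ε

/-- **Alm** (120 lines, uses `S_Na`, `S_Rt`, `S_Ntr`, `S_Abv`). Almost all values are `1`.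

Proof. Let `P = X ^ n + ∑ c_i X ^ i` be the minimal polynomial of `x` over `F(t)`; `c_0 ≠ 0`. Let `T` be the finite set
of `none` and the `some P`, `P` a monic irreducible divisor of the numerator or denominator of a
coefficient `c_i ≠ 0`. For `w ∉ T`, `IsPl w u`: `u c_i ≤ 1`, `u c_0 = 1`. Let `av` be the family of `S_Abv` for the `u`,
`w ∈ T`. If `v` is not equivalent to an `av j` then its restriction is equivalent to a `u` with `w ∉ T`, so
`v (c_i) ≤ 1`, `v (c_0) = 1`; if `v x > 1` the term `x ^ n` dominates, if `v x < 1` the term `c_0`. -/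
def S_Alm : Prop :=
  ∀ (p : ℕ) [Fact p.Prime] (K : Type) [Field K] [CharP K p], GFld p K → ∀ x : K, x ≠ 0 →
    ∃ (m : ℕ) (av : Fin m → AbsoluteValue K ℝ), Pls av ∧ ∀ v : AbsoluteValue K ℝ,
      v.IsNontrivial → (∀ j, ¬ v.IsEquiv (av j)) → v x = 1

/-- **Frc** (120 lines, uses `S_Na`, `S_Sml`, `S_Alm`). `K` is the field of fractions of `A`, `A` is
integrally closed, `J` not empty.

Proof. (1) `x ≠ 0`; let `av₁` be as in `S_Alm` for `x`, `J₂` the set of the indices of the `av₁ k` which are not equivalent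
to an `av j`. The family `av` together with the `av₁ k`, `k ∈ J₂`, is a `Pls`. By `S_Sml` with `j0 ∈ J` there is `a` in
the ring of this family with `av j0 a > 0` and `av₁ k (a) < min 1 (1 / av₁ k (x))`. Then `a ≠ 0`, `a ∈ OS av`
and `a x ∈ OS av` (let `v` be not equivalent to an `av j`: either it is equivalent to an `av₁ k`, `k ∈ J₂`, or
`v x = 1`, `v a ≤ 1`). (2) If `f ^ n + ∑ a_i f ^ i = 0`, `a_i ∈ A`, then `v f ≤ 1` (else `f ^ n` dominates). -/
def S_Frc : Prop :=
  ∀ (p : ℕ) [Fact p.Prime] (K : Type) [Field K] [CharP K p], GFld p K →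
    ∀ (J : Type) [Finite J] [Nonempty J] (av : J → AbsoluteValue K ℝ), Pls av →
      (∀ x : K, ∃ a ∈ OS av, a ≠ 0 ∧ a * x ∈ OS av) ∧ IsFractionRing (OS av) K ∧
      (∀ f : K, IsIntegral (OS av) f → f ∈ OS av) ∧ IsIntegrallyClosed (OS av)

/-- **Itg** (80 lines, uses `S_Na`, `S_Exn`). Integral elements of finite extensions.

Proof. Let `v` be a nontrivial absolute value of `K` not equivalent to an `av j`. Every `w` above `v` is
nontrivial and satisfies `w f ≤ 1`, so by `S_Exn` (with `B = 1`) the coefficients of the minimal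
polynomial `P` of `f` over `K` satisfy `v ≤ 1`. So `P` has coefficients in `OS av`, it is monic, and
`f` is a root. -/
def S_Itg : Prop :=
  ∀ (p : ℕ) [Fact p.Prime] (K L : Type) [Field K] [Field L] [Algebra K L]
    [FiniteDimensional K L] [CharP K p] (J : Type) (av : J → AbsoluteValue K ℝ) (f : L),
    (∀ w : AbsoluteValue L ℝ, w.IsNontrivial → (∀ j, ¬ (rsa K w).IsEquiv (av j)) → w f ≤ 1) →
    IsIntegral (OS av) f

/-- **Den** (60 lines). `K` is dense in the product of the completions.

Proof. `K` is dense in every `(av j).Completion`: choose `x j ∈ K` near `y j`; weak approximation gives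
`x ∈ K` with `av j (x - x j)` small for all `j`. -/
def S_Den : Prop :=
  ∀ (K : Type) [Field K] (J : Type) [Finite J] (av : J → AbsoluteValue K ℝ), Pls av →
    ∀ (y : ∀ j, (av j).Completion) (ε : ℝ), 0 < ε →
      ∃ x : K, ∀ j, ‖algebraMap K (av j).Completion x - y j‖ < ε

/-! ### 4. Level one -/

/-- **Phl** (120 lines, uses `S_Na`). `x ↦ x ^ p - h x` on small balls of a completion.

Proof. For `‖x‖ ≤ ρ`, `x ≠ 0`: `‖x ^ p‖ < ‖h x‖` as `‖x‖ ^ (p - 1) ≤ ρ ^ (p - 1) < v h`, so `‖Ph x‖ = v h ‖x‖`: (1), and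
uniqueness in (2) (`Ph` is additive). Existence: the map `x ↦ (x ^ p - z) / h` maps the complete ball
`{‖x‖ ≤ ρ}` into itself and is a contraction with the constant `ρ ^ (p - 1) / v h < 1`
(`x ^ p - y ^ p = (x - y) ^ p`); or sum the series `x = ∑ x_k`, `x_0 = - z / h`, `x_(k + 1) = x_k ^ p / h`. (3) Let
`Ph y = 0`, `y ≠ 0`: `y ^ (p - 1) = h`. -/
def S_Phl : Prop :=
  ∀ (p : ℕ) [Fact p.Prime] (K : Type) [Field K] [CharP K p] (v : AbsoluteValue K ℝ) (h : K)
    (ρ : ℝ), h ≠ 0 → 0 < ρ → ρ ^ (p - 1) < v h →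
    (∀ x : v.Completion, ‖x‖ ≤ ρ → ‖Ph p (algebraMap K v.Completion h) x‖ = v h * ‖x‖) ∧
    (∀ z : v.Completion, ‖z‖ ≤ v h * ρ →
      ∃! x : v.Completion, ‖x‖ ≤ ρ ∧ Ph p (algebraMap K v.Completion h) x = z) ∧
    (∀ y : v.Completion, Ph p (algebraMap K v.Completion h) y = 0 → ‖y‖ ≤ ρ → y = 0) ∧
    Finite {y : v.Completion // Ph p (algebraMap K v.Completion h) y = 0}

/-- **Eul** (300 lines, uses `S_Na`, `S_CoK`, `S_FiK`, `S_Den`, `S_Phl`). THE EULER CHARACTERISTIC AT LEVEL ONE.
`A = OS av`, `h` is a unit of `A`.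

Proof. Write `P = PhA p h`, `K(r) = Bl av r`, `|h| r` for the radii `v_j(h) r j`. Choose `ρ ≤ 1` with
`ρ ^ (p - 1) < av j h` and such that every `f ≠ 0` in `A` with `av j f ≤ max 1 (av j h)` for all `j` (finitely many, `S_FiK`)
satisfies `av j f > max 1 (av j h) ρ` for some `j`; so `A ∩ K(r) = 0` and `A ∩ K(|h| r) = 0` for `r ≤ ρ`. It suffices
to prove the statement for the radii `|h| r`, `r ≤ ρ` (replace `ρ` by the minimum of the `av j h ρ`).
(1) `K / (A + K(r))` is finite (`S_CoK`). `P` maps `A` to `A` and `K(r)` to `K(|h| r)` (`S_Phl`), so it induces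
`P' : K / (A + K(r)) → K / (A + K(|h| r))`. Multiplication by `h` induces a bijection between the same groups
(`h A = A`, `h K(r) = K(|h| r)`). So `#coker P' = #ker P'`, and `coker P' = K / (A + P(K) + K(|h| r))`.
(2) `ker P'`: let `x` with `P x = a + z`, `a ∈ A`, `z ∈ K(|h| r)`; `a`, `z` are unique. By `S_Phl` `z = P(y_j)` in the
completions, so `a = P(x - y_j)` and `a ∈ ShN`. The map `x ↦ a` from `{x | P x ∈ A + K(|h| r)}` to `ShN` is additive, and
the composite to `ShN / PhN` is surjective: let `a = P(y_j)` for all `j`; choose `x ∈ K` with `‖x - y_j‖ ≤ r j`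
(`S_Den`), then `‖P x - a‖ = v_j(h) ‖x - y_j‖ ≤ v_j(h) r j`. Its kernel consists of the `x` with `a = P b`,
`b ∈ A`, i.e. it is `A + W`, `W = {x | P x ∈ K(|h| r)}`. So `#ker P' = #(ShN / PhN) * #((A + W) / (A + K(r)))`.
(3) For `x ∈ W` and every `j` there is exactly one `y_j` with `‖y_j‖ ≤ r j`, `P y_j = P x`; `κ_j = x - y_j` is in
`N_j = {y ∈ K_j | P y = 0}`. The map `W → ∏ N_j` is additive, surjective (`S_Den`: `x` near `κ_j`; by
uniqueness `y_j = x - κ_j`), with kernel `K(r)`. `(A + W) / (A + K(r)) = W / (W ∩ (A + K(r)))`, and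
`W ∩ (A + K(r)) = K(r) + (A ∩ W)` with `A ∩ W = {x ∈ K | P x = 0} =: N` (for `a ∈ A ∩ W` `P a ∈ A ∩ K(|h| r) = 0`;
a root `x ≠ 0` satisfies `x ^ (p - 1) = h`, so `v x = 1` outside `S` and `x ∈ A`). `N ∩ K(r) = 0`. So
`#((A + W) / (A + K(r))) * #N = ∏ #N_j`. -/
def S_Eul : Prop :=
  ∀ (p : ℕ) [Fact p.Prime] (K : Type) [Field K] [CharP K p], GFld p K →
    ∀ (J : Type) [Fintype J] [Nonempty J] (av : J → AbsoluteValue K ℝ), Pls av → ∀ h : K, h ≠ 0 →
    (∀ v : AbsoluteValue K ℝ, v.IsNontrivial → (∀ j, ¬ v.IsEquiv (av j)) → v h = 1) →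
    Finite (ShN p av h ⧸ (PhN p av h).addSubgroupOf (ShN p av h)) ∧
    ∃ ρ : ℝ, 0 < ρ ∧ ∀ r : J → ℝ, (∀ j, 0 < r j ∧ r j ≤ ρ) →
      Finite (K ⧸ ((OS av).toAddSubgroup ⊔ (PhA p h).range ⊔ Bl av r)) ∧
      Nat.card (K ⧸ ((OS av).toAddSubgroup ⊔ (PhA p h).range ⊔ Bl av r)) *
        Nat.card {x : K // Ph p h x = 0} =
      Nat.card (ShN p av h ⧸ (PhN p av h).addSubgroupOf (ShN p av h)) *
        ∏ j, Nat.card {x : (av j).Completion // Ph p (algebraMap K (av j).Completion h) x = 0}

end Pool.Agent.MP72P
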