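import Pool.Agent.Lib.MP_72e2e6_nt.P3.Defs
import Pool.Agent.Lib.MP_72e2e6_nt.W2.C.Av

/-!
# MP_72e2e6_nt, theorem T3p, block N (arithmetic of global function fields): definitions
-/

namespace Pool.Agent.MP72P

open Polynomial

/-- The restriction of an absolute value to a subfield. -/
def rsa (K : Type) {L : Type} [Field K] [Field L] [Algebra K L] (v : AbsoluteValue L ℝ) :
    AbsoluteValue K ℝ := v.comp (algebraMap K L).injective

/-- The ball with the radii `r j > 0`. -/
def Bl {K : Type} [Field K] {J : Type} (av : J → AbsoluteValue K ℝ) (r : J → ℝ) :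
    AddSubgroup K where
  carrier := {x | ∀ j, IsNonarchimedean (av j) → av j x ≤ |r j|}
  add_mem' := fun {a b} ha hb j hj => (hj a b).trans (max_le (ha j hj) (hb j hj))
  zero_mem' := fun j _ => by rw [map_zero]; exact abs_nonneg _
  neg_mem' := fun {a} ha j hj => by rw [AbsoluteValue.map_neg]; exact ha j hj

/-- The additive map `x ↦ x ^ p - h x`. -/
def PhA (p : ℕ) [Fact p.Prime] {L : Type} [Field L] [CharP L p] (h : L) : L →+ L where
  toFun := Ph p h
  map_zero' := by
    rw [Ph, zero_pow (Fact.out : p.Prime).ne_zero, mul_zero, sub_zero]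
  map_add' := fun a b => by
    rw [Ph, Ph, Ph, add_pow_char, mul_add]
    ring

/-- The functions regular outside the `av j` which are locally of the form `x ^ p - h x`. -/
def ShN (p : ℕ) [Fact p.Prime] {K : Type} [Field K] [CharP K p] {J : Type}
    (av : J → AbsoluteValue K ℝ) (h : K) : AddSubgroup K where
  carrier := {f | f ∈ OS av ∧ ∀ j, ∃ y : (av j).Completion,
    Ph p (algebraMap K (av j).Completion h) y = algebraMap K (av j).Completion f}
  add_mem' := fun {a b} ha hb => ⟨add_mem ha.1 hb.1, fun j => by
    have := charP_of_injective_algebraMap (algebraMap K (av j).Completion).injective p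
    obtain ⟨y, hy⟩ := ha.2 j
    obtain ⟨z, hz⟩ := hb.2 j
    refine ⟨y + z, ?_⟩
    rw [map_add, ← hy, ← hz]
    exact (PhA p (algebraMap K (av j).Completion h)).map_add y z⟩
  zero_mem' := ⟨zero_mem _, fun j => ⟨0, by
    rw [Ph, zero_pow (Fact.out : p.Prime).ne_zero, mul_zero, sub_zero, map_zero]⟩⟩
  neg_mem' := fun {a} ha => ⟨neg_mem ha.1, fun j => by
    have := charP_of_injective_algebraMap (algebraMap K (av j).Completion).injective p
    obtain ⟨y, hy⟩ := ha.2 j
    refine ⟨-y, ?_⟩
    rw [map_neg, ← hy]
    exact (PhA p (algebraMap K (av j).Completion h)).map_neg y⟩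

/-- The functions `x ^ p - h x` with `x` regular outside the `av j`. -/
noncomputable def PhN (p : ℕ) [Fact p.Prime] {K : Type} [Field K] [CharP K p] {J : Type}
    (av : J → AbsoluteValue K ℝ) (h : K) : AddSubgroup K :=
  (OS av).toAddSubgroup.map (PhA p h)

end Pool.Agent.MP72P
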