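import Pool.Agent.Lib.MP_72e2e6_nt.P3.N.Spec

/-!
# MP_72e2e6_nt, theorem T3p, block N: approximation at one place
-/

namespace Pool.Agent.MP72P

open Polynomial
open Pool.Agent.MP72W (IsPl)

private theorem app_sub {K : Type} [Field K] {v : AbsoluteValue K ℝ} (h : IsNonarchimedean v)
    (a b : K) : v (a - b) ≤ max (v a) (v b) := by
  rw [sub_eq_add_neg]
  refine (h a (-b)).trans ?_
  rw [AbsoluteValue.map_neg]

/-- Weak approximation. -/
private theorem app_weak {K : Type} [Field K] {J : Type} [Finite J] (av : J → AbsoluteValue K ℝ)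
    (hav : Pls av) (t : J → K) (ε : ℝ) (hε : 0 < ε) : ∃ x : K, ∀ j, av j (x - t j) < ε := by
  classical
  have hft : Fintype J := Fintype.ofFinite J
  have hd := AbsoluteValue.denseRange_algebraMap_pi hav.ntr (fun i j hij => hav.inq i j hij)
  obtain ⟨x, hx⟩ := Metric.denseRange_iff.1 hd (fun j => (WithAbs.equiv (av j)).symm (t j)) ε hε
  refine ⟨x, fun j => ?_⟩
  have h1 := (dist_pi_lt_iff hε).1 hx j
  rw [dist_comm, dist_eq_norm] at h1
  exact h1

/-- **App**. Approximation at one place up to a bounded error. -/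
theorem tApp (na : S_Na) (co : S_CoK) (str : S_Str) : S_App := by
  classical
  intro p _ K _ _ hK J _ av hav j0 ε hε
  set δ : ℝ := min ε 1 / 2 with hδdef
  have hm : 0 < min ε 1 := lt_min hε one_pos
  have hδ : 0 < δ := half_pos hm
  have hδε : δ < ε := (half_lt_self hm).trans_le (min_le_left _ _)
  have hδ1 : δ < 1 := (half_lt_self hm).trans_le (min_le_right _ _)
  obtain ⟨X, hX, hco⟩ := co p K hK J av hav δ hδ
  choose f hf hfs using fun s : K => str p K hK J av hav j0 (fun _ => s) ε hε
  obtain ⟨C, hC⟩ := (hX.image fun s => av j0 (s - f s)).bddAbove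
  refine ⟨max C 1, fun x => ?_⟩
  obtain ⟨x', hx'⟩ := app_weak av hav (fun j => if j = j0 then x else 0) (min ε 1) hm
  obtain ⟨s, hs, a, ha, hz⟩ := hco x'
  have e1 : x' - (x' - s - a) + (f s - s) = a + f s := by ring
  refine ⟨a + f s, add_mem ha (hf s), ?_, ?_⟩
  · have hv := na p K (av j0)
    have e2 : (x' - s - a) + (s - f s) - (x' - x) = x - (a + f s) := by ring
    rw [← e2]
    refine (app_sub hv _ _).trans (max_le ((hv _ _).trans (max_le ?_ ?_)) ?_)
    · exact (hz j0).trans (hδ1.le.trans (le_max_right _ _))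
    · exact (hC ⟨s, hs, rfl⟩).trans (le_max_left _ _)
    · have h1 := hx' j0
      rw [if_pos rfl] at h1
      exact (h1.le.trans (min_le_right _ _)).trans (le_max_right _ _)
  · intro j hj
    have hv := na p K (av j)
    rw [← e1]
    refine (hv _ _).trans_lt (max_lt ((app_sub hv _ _).trans_lt (max_lt ?_ ?_)) ?_)
    · have h1 := hx' j
      rw [if_neg hj, sub_zero] at h1
      exact h1.trans_le (min_le_left _ _)
    · exact (hz j).trans_lt hδε
    · exact hfs s j hj

end Pool.Agent.MP72P
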