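import Pool.Agent.Lib.MP_72e2e6_nt.P3.N.Spec

/-!
# MP_72e2e6_nt, theorem T3p, block N: functions with bounded poles in `F(t)`
-/

set_option autoImplicit false

namespace Pool.Agent.MP72P

open Polynomial
open Pool.Agent.MP72W (IsPl tAv)

section

variable {F : Type} [Field F]

private theorem fi0_ne {g : F[X]} (hg : g ≠ 0) : algebraMap F[X] (RatFunc F) g ≠ 0 := by
  rwa [Ne, FaithfulSMul.algebraMap_eq_zero_iff]

private theorem fi0_fin [Finite F] (N : ℕ) : {g : F[X] | g.natDegree ≤ N}.Finite := by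
  have h1 : Finite {g : F[X] | g.natDegree ≤ N} := by
    refine Finite.of_injective (fun g (i : Fin (N + 1)) => g.1.coeff i) ?_
    intro g g' h
    apply Subtype.ext
    ext i
    by_cases hi : i < N + 1
    · exact congrFun h ⟨i, hi⟩
    · have h2 : g.1.natDegree ≤ N := g.2
      have h3 : g'.1.natDegree ≤ N := g'.2
      rw [coeff_eq_zero_of_natDegree_lt (by omega), coeff_eq_zero_of_natDegree_lt (by omega)]
  exact Set.finite_coe_iff.1 h1

/-- The multiplicity of a prime divisor of the denominator. -/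
private theorem fi0_mul {T : Finset (Option F[X])} {B : ℝ} {f : RatFunc F} (hf0 : f ≠ 0)
    (hf : ∀ w v, IsPl w v → v f ≤ B ∧ (w ∉ T → v f ≤ 1)) {P : F[X]} (hm : P.Monic)
    (hi : Irreducible P) {n : ℕ} (hn : 1 ≤ n) (hd : P ^ n ∣ f.denom) :
    some P ∈ T ∧ (2 : ℝ) ^ n ≤ B := by
  obtain ⟨v, hv⟩ := (tAv F).1 P hm hi
  have hden : f.denom ≠ 0 := f.denom_ne_zero
  have hnum : f.num ≠ 0 := RatFunc.num_ne_zero hf0
  have h1 : P ∣ f.denom := (dvd_pow_self P (by omega)).trans hd
  have h2 : ¬ P ∣ f.num := fun h => hi.not_isUnit (f.isCoprime_num_denom.isUnit_of_dvd' h h1)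
  have h3 : n ≤ multiplicity P f.denom :=
    (FiniteMultiplicity.of_prime_left hi.prime hden).le_multiplicity_of_pow_dvd hd
  have h4 : v f = 2 ^ multiplicity P f.denom := by
    conv_lhs => rw [← RatFunc.num_div_denom f]
    rw [map_div₀, hv.2.2 _ hnum, hv.2.2 _ hden, multiplicity_eq_zero.2 h2, pow_zero, one_div,
      one_div, inv_pow, inv_inv]
  have h5 : (2 : ℝ) ^ n ≤ v f := by
    rw [h4]
    exact pow_le_pow_right₀ one_le_two h3
  have h6 : (1 : ℝ) < 2 ^ n := one_lt_pow₀ one_lt_two (by omega)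
  refine ⟨?_, h5.trans (hf _ _ hv).1⟩
  by_contra h7
  have h8 := (hf _ _ hv).2 h7
  linarith

end

theorem tFi0 : S_Fi0 := by
  classical
  intro F _ _ T B hB
  obtain ⟨E, hE⟩ := pow_unbounded_of_one_lt B (one_lt_two : (1 : ℝ) < 2)
  obtain ⟨M, hM⟩ : ∃ M : F[X], M = ∏ P ∈ (Finset.eraseNone T).filter
    (fun P => P.Monic ∧ Irreducible P), P ^ E := ⟨_, rfl⟩
  have hM0 : M ≠ 0 := by
    rw [hM]
    refine Finset.prod_ne_zero_iff.2 fun P hP => pow_ne_zero _ ?_
    exact (Finset.mem_filter.1 hP).2.1.ne_zero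
  refine (((fi0_fin (F := F) (E + M.natDegree)).prod (fi0_fin (F := F) M.natDegree)).image
    fun q : F[X] × F[X] => algebraMap F[X] (RatFunc F) q.1 / algebraMap F[X] (RatFunc F) q.2).subset
    ?_
  intro f hf
  refine ⟨(f.num, f.denom), ?_, RatFunc.num_div_denom f⟩
  by_cases hf0 : f = 0
  · rw [hf0, RatFunc.num_zero, RatFunc.denom_zero]
    exact ⟨by simp, by simp⟩
  have hden : f.denom ≠ 0 := f.denom_ne_zero
  have h1 : f.denom ∣ M := by
    rw [UniqueFactorizationMonoid.dvd_iff_emultiplicity_le hden]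
    intro P hP
    rw [emultiplicity_le_emultiplicity_iff]
    intro n hn
    rcases Nat.eq_zero_or_pos n with h0 | h0
    · rw [h0, pow_zero]
      exact one_dvd _
    have hmon : (normalize P).Monic := Polynomial.monic_normalize hP.ne_zero
    have hirr : Irreducible (normalize P) :=
      (normalize_associated P).symm.irreducible hP.irreducible
    have h2 : normalize P ^ n ∣ f.denom :=
      ((normalize_associated P).pow_pow.dvd).trans hn
    obtain ⟨h3, h4⟩ := fi0_mul hf0 hf hmon hirr h0 h2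
    have h5 : n ≤ E := by
      by_contra hc
      push Not at hc
      have h6 : (2 : ℝ) ^ E ≤ 2 ^ n := pow_le_pow_right₀ one_le_two hc.le
      linarith
    have h6 : normalize P ^ E ∣ M := by
      rw [hM]
      refine Finset.dvd_prod_of_mem (fun Q => Q ^ E) ?_
      rw [Finset.mem_filter, Finset.mem_eraseNone]
      exact ⟨h3, hmon, hirr⟩
    exact ((normalize_associated P).symm.pow_pow.dvd).trans ((pow_dvd_pow _ h5).trans h6)
  have h2 : f.denom.natDegree ≤ M.natDegree := natDegree_le_of_dvd h1 hM0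
  refine ⟨?_, h2⟩
  obtain ⟨v, hv⟩ := (tAv F).2.1
  have h3 := (hf none v hv).1
  rw [show v f = _ from hv f hf0] at h3
  have h4 : (2 : ℝ) ^ f.intDegree < 2 ^ (E : ℤ) := by
    rw [zpow_natCast]
    exact h3.trans_lt hE
  have h5 : f.intDegree < E := (zpow_lt_zpow_iff_right₀ one_lt_two).1 h4
  unfold RatFunc.intDegree at h5
  show f.num.natDegree ≤ E + M.natDegree
  omega

end Pool.Agent.MP72P
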