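import Pool.Agent.Lib.MP_72e2e6_nt.P3.N.Spec

/-!
# MP_72e2e6_nt, theorem T3p, block N: integral elements of finite extensions
-/

namespace Pool.Agent.MP72P

open Polynomial
open Pool.Agent.MP72W (IsPl)

/-- **Itg**. Integral elements of finite extensions. -/
theorem tItg (_na : S_Na) (ex : S_Exn) : S_Itg := by
  intro p _ K L _ _ _ _ _ J av f hf
  have hc : ∀ i, (minpoly K f).coeff i ∈ OS av := by
    intro i v hv _ hva
    rcases le_or_gt i (minpoly K f).natDegree with hi | hi
    · have h1 := (ex p K L v hv).2 f 1 one_pos ?_ i hi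
      · rwa [one_pow] at h1
      · intro w hw
        refine hf w ?_ fun j hj => hva j (hw ▸ hj)
        obtain ⟨x, hx0, hx1⟩ := hv
        refine ⟨algebraMap K L x, ?_, ?_⟩
        · rwa [Ne, map_eq_zero]
        · intro h2
          exact hx1 (by rw [← hw]; exact h2)
    · rw [coeff_eq_zero_of_natDegree_lt hi, map_zero]
      exact zero_le_one
  have hT : (↑(minpoly K f).coeffs : Set K) ⊆ (OS av : Set K) := by
    intro c hc'
    obtain ⟨i, -, rfl⟩ := Polynomial.mem_coeffs_iff.1 (Finset.mem_coe.1 hc')
    exact hc i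
  refine ⟨(minpoly K f).toSubring (OS av) hT, ?_, ?_⟩
  · rw [Polynomial.monic_toSubring]
    exact minpoly.monic (Algebra.IsIntegral.isIntegral f)
  · have h1 : ((minpoly K f).toSubring (OS av) hT).map (algebraMap (OS av) K) = minpoly K f :=
      Polynomial.map_toSubring _ _ _
    have h2 : aeval f (((minpoly K f).toSubring (OS av) hT).map (algebraMap (OS av) K)) = 0 := by
      rw [h1]
      exact minpoly.aeval K f
    rw [Polynomial.aeval_map_algebraMap] at h2
    exact h2

end Pool.Agent.MP72P
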